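import Pool.Agent.Lib_helper59.DH.W
import Mathlib
import Pool.Agent.Lib_helper98.GAF.Lgr

/-!
# DH: blocks A1, Tail, Zs, Hyp, Asy, Pr, A4, A5 of dhr_block
-/

set_option autoImplicit false

/-! ## Block A1 (helper55) -/

namespace Pool.Agent.DH

open Finset Complex Metric Pool.Agent.GA
open scoped ArithmeticFunction.vonMangoldt Classical

theorem a1_val {q : ℕ} {χ : DirichletCharacter ℂ q} (hχ : χ ^ 2 = 1) (n : ℕ) :
    χ (n : ZMod q) = 0 ∨ χ (n : ZMod q) = 1 ∨ χ (n : ZMod q) = -1 := by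
  by_cases hu : IsUnit (n : ZMod q)
  · right
    have h1 : χ (n : ZMod q) ^ 2 = 1 := by
      rw [← MulChar.pow_apply' χ two_ne_zero, hχ, MulChar.one_apply hu]
    have h2 : (χ (n : ZMod q) - 1) * (χ (n : ZMod q) + 1) = 0 := by linear_combination h1
    rcases mul_eq_zero.1 h2 with h3 | h3
    · left; linear_combination h3
    · right; linear_combination h3
  · left
    exact χ.map_nonunit hu

theorem A1_pr : A1 := by
  intro q₁ χ _ hχ
  have h : ∀ n : ℕ, χ (n : ZMod q₁) = (cr χ n : ℂ) ∧ |cr χ n| ≤ 1 := by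
    intro n
    unfold cr
    rcases a1_val hχ n with h | h | h <;> rw [h] <;> simp
  refine ⟨h, fun m n => ?_⟩
  have h1 : χ ((m * n : ℕ) : ZMod q₁) = χ (m : ZMod q₁) * χ (n : ZMod q₁) := by
    rw [Nat.cast_mul, map_mul]
  have h2 : cr χ (m * n) = (χ (m : ZMod q₁) * χ (n : ZMod q₁)).re := by
    unfold cr
    rw [h1]
  rw [h2, (h m).1, (h n).1, ← Complex.ofReal_mul, Complex.ofReal_re]

end Pool.Agent.DH

/-! ## Block Tail (helper26) -/

namespace Pool.Agent.DHP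

open Finset Complex Filter Topology Set MeasureTheory
open Pool.Agent.GA

/-- partial sums -/
theorem tail_C {q : ℕ} [NeZero q] {χ : DirichletCharacter ℂ q} (hχ : χ ≠ 1) {s : ℝ} (hs : 0 < s)
    {N : ℕ} (hN : 1 ≤ N) :
    ‖∑ n ∈ Finset.Icc 1 N, χ (n : ZMod q) * (n : ℂ) ^ (-(s : ℂ)) - LF χ (s : ℂ)‖ ≤
      2 * q * (N : ℝ) ^ (-s) := by
  have h3 := three_le hχ
  have hnt : Nontrivial (ZMod q) := ZMod.nontrivial_iff.mpr (by omega)
  have hc0 : χ ((0:ℕ) : ZMod q) = 0 := by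
    rw [Nat.cast_zero, MulChar.map_zero]
  have hNR : (1 : ℝ) ≤ N := by exact_mod_cast hN
  have hN0 : (0 : ℝ) < N := by linarith
  have hre : ((s : ℂ)).re = s := Complex.ofReal_re s
  set S : ℝ → ℂ := fun t => ∑ k ∈ Finset.Icc 1 ⌊t⌋₊, χ (k : ZMod q) with hS
  set g : ℝ → ℂ := fun t => S t * (t : ℂ) ^ (-((s : ℂ) + 1)) with hg
  have hSn : ∀ t, ‖S t‖ ≤ q := fun t => lgr_Icc χ hχ _
  have hgn : ∀ t : ℝ, 0 < t → ‖g t‖ ≤ q * t ^ (-(s + 1)) := by
    intro t ht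
    rw [hg]
    simp only
    rw [norm_mul, Complex.norm_cpow_eq_rpow_re_of_pos ht]
    simp only [neg_re, add_re, one_re, hre]
    exact mul_le_mul_of_nonneg_right (hSn t) (Real.rpow_nonneg ht.le _)
  have hmeas : Measurable g := by
    refine Measurable.mul ?_ ?_
    · exact (measurable_from_nat (f := fun n : ℕ => ∑ k ∈ Finset.Icc 1 n, χ (k : ZMod q))).comp
        Nat.measurable_floor
    · exact (Complex.measurable_ofReal.pow_const _)
  have hint : ∀ a : ℝ, 1 ≤ a → IntegrableOn g (Set.Ioi a) := by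
    intro a ha
    have h1 : IntegrableOn (fun t : ℝ => (q : ℝ) * t ^ (-(s + 1))) (Set.Ioi a) :=
      (integrableOn_Ioi_rpow_of_lt (by linarith) (by linarith)).const_mul _
    refine Integrable.mono h1 hmeas.aestronglyMeasurable ?_
    refine (ae_restrict_mem measurableSet_Ioi).mono fun t ht => ?_
    have ht0 : (0 : ℝ) < t := by
      have : a < t := ht
      linarith
    rw [Real.norm_of_nonneg (mul_nonneg (Nat.cast_nonneg q) (Real.rpow_nonneg ht0.le _))]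
    exact hgn t ht0
  have hLF : LF χ (s : ℂ) = s * ∫ t in Set.Ioi (1 : ℝ), g t := by
    rw [LF_eq_mellin hχ (by rw [hre]; exact hs), lgrS_mellin]
  have hsplit : ∫ t in Set.Ioi (1 : ℝ), g t =
      (∫ t in Set.Ioc (1 : ℝ) N, g t) + ∫ t in Set.Ioi (N : ℝ), g t := by
    rw [← Set.Ioc_union_Ioi_eq_Ioi hNR, setIntegral_union (Set.Ioc_disjoint_Ioi le_rfl)
      measurableSet_Ioi ((hint 1 le_rfl).mono_set Set.Ioc_subset_Ioi_self) (hint N hNR)]
  have hder : ∀ t : ℝ, 0 < t → HasDerivAt (fun t : ℝ => (t : ℂ) ^ (-(s : ℂ)))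
      (-(s : ℂ) * (t : ℂ) ^ (-(s : ℂ) - 1)) t := by
    intro t ht
    have h1 : HasDerivAt (fun z : ℂ => z ^ (-(s : ℂ))) (-(s : ℂ) * (t : ℂ) ^ (-(s : ℂ) - 1) * 1)
        (t : ℂ) := (hasDerivAt_id (t : ℂ)).cpow_const (by
          left
          simpa using ht)
    rw [mul_one] at h1
    exact h1.comp_ofReal
  have hsum : ∑ n ∈ Finset.Icc 1 N, χ (n : ZMod q) * (n : ℂ) ^ (-(s : ℂ)) =
      S N * (N : ℂ) ^ (-(s : ℂ)) + s * ∫ t in Set.Ioc (1 : ℝ) N, g t := by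
    have h1 := sum_mul_eq_sub_integral_mul₀' (𝕜 := ℂ) (fun n : ℕ => χ (n : ZMod q))
      (f := fun t : ℝ => (t : ℂ) ^ (-(s : ℂ))) hc0 N
      (fun t ht => (hder t (by linarith [ht.1])).differentiableAt) ?_
    · have h2 : ∀ n : ℕ, ∑ k ∈ Finset.Icc 0 n, χ (k : ZMod q) =
          ∑ k ∈ Finset.Icc 1 n, χ (k : ZMod q) := by
        intro n
        rw [← Finset.add_sum_Ioc_eq_sum_Icc (Nat.zero_le n), hc0, zero_add]
        rfl
      have h3 : ∑ k ∈ Finset.Icc 0 N, (k : ℂ) ^ (-(s : ℂ)) * χ (k : ZMod q) =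
          ∑ n ∈ Finset.Icc 1 N, χ (n : ZMod q) * (n : ℂ) ^ (-(s : ℂ)) := by
        rw [← Finset.add_sum_Ioc_eq_sum_Icc (Nat.zero_le N), hc0, mul_zero, zero_add]
        exact Finset.sum_congr rfl fun k _ => mul_comm _ _
      simp only [ofReal_natCast] at h1
      rw [h3] at h1
      rw [h1, h2]
      have h4 : ∫ t in Set.Ioc (1 : ℝ) N, deriv (fun t : ℝ => (t : ℂ) ^ (-(s : ℂ))) t *
          ∑ k ∈ Finset.Icc 0 ⌊t⌋₊, χ (k : ZMod q) =
            ∫ t in Set.Ioc (1 : ℝ) N, -(s : ℂ) * g t := by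
        refine setIntegral_congr_fun measurableSet_Ioc fun t ht => ?_
        have ht0 : 0 < t := by linarith [ht.1]
        rw [(hder t ht0).deriv, h2, hg]
        simp only [hS]
        rw [neg_add, ← sub_eq_add_neg]
        ring
      rw [h4, integral_const_mul, hS]
      simp only [Nat.floor_natCast]
      ring
    · have h5 : ContinuousOn (fun t : ℝ => -(s : ℂ) * (t : ℂ) ^ (-(s : ℂ) - 1))
          (Set.Icc (1 : ℝ) N) := by
        intro t ht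
        have ht0 : 0 < t := by linarith [ht.1]
        apply ContinuousAt.continuousWithinAt
        refine continuousAt_const.mul ?_
        exact Complex.continuousAt_ofReal_cpow_const t _ (Or.inr ht0.ne')
      refine (h5.integrableOn_Icc).congr_fun (fun t ht => ?_) measurableSet_Icc
      exact ((hder t (by linarith [ht.1])).deriv).symm
  have hrw : ∑ n ∈ Finset.Icc 1 N, χ (n : ZMod q) * (n : ℂ) ^ (-(s : ℂ)) - LF χ (s : ℂ) =
      S N * (N : ℂ) ^ (-(s : ℂ)) - s * ∫ t in Set.Ioi (N : ℝ), g t := by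
    rw [hsum, hLF, hsplit]
    ring
  rw [hrw]
  refine (norm_sub_le _ _).trans ?_
  have e1 : ‖S N * (N : ℂ) ^ (-(s : ℂ))‖ ≤ q * (N : ℝ) ^ (-s) := by
    rw [norm_mul]
    have : ‖(N : ℂ) ^ (-(s : ℂ))‖ = (N : ℝ) ^ (-s) := by
      have h := Complex.norm_cpow_eq_rpow_re_of_pos hN0 (-(s : ℂ))
      rw [ofReal_natCast] at h
      rw [h]
      simp
    rw [this]
    exact mul_le_mul_of_nonneg_right (hSn _) (Real.rpow_nonneg hN0.le _)
  have e2 : ‖(s : ℂ) * ∫ t in Set.Ioi (N : ℝ), g t‖ ≤ q * (N : ℝ) ^ (-s) := by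
    rw [norm_mul]
    have h1 : ‖∫ t in Set.Ioi (N : ℝ), g t‖ ≤ q * (N : ℝ) ^ (-s) / s := by
      refine (norm_integral_le_integral_norm _).trans ?_
      have h2 : ∫ t in Set.Ioi (N : ℝ), (q : ℝ) * t ^ (-(s + 1)) = q * (N : ℝ) ^ (-s) / s := by
        rw [integral_const_mul, integral_Ioi_rpow_of_lt (by linarith) hN0]
        have : -(s + 1) + 1 = -s := by ring
        rw [this]
        field_simp
      rw [← h2]
      have hint2 : IntegrableOn (fun t : ℝ => (q : ℝ) * t ^ (-(s + 1))) (Set.Ioi (N : ℝ)) :=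
        (integrableOn_Ioi_rpow_of_lt (by linarith) hN0).const_mul _
      refine integral_mono_of_nonneg (Eventually.of_forall fun t => norm_nonneg _) hint2 ?_
      refine (ae_restrict_mem measurableSet_Ioi).mono fun t ht => ?_
      have ht0 : (0 : ℝ) < t := by
        have : (N : ℝ) < t := ht
        linarith
      exact hgn t ht0
    have h2 : ‖(s : ℂ)‖ = s := by
      rw [Complex.norm_real, Real.norm_of_nonneg hs.le]
    rw [h2]
    calc s * ‖∫ t in Set.Ioi (N : ℝ), g t‖ ≤ s * (q * (N : ℝ) ^ (-s) / s) :=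
          mul_le_mul_of_nonneg_left h1 hs.le
      _ = q * (N : ℝ) ^ (-s) := by field_simp
  linarith

/-- the values of a real character -/
noncomputable def rx {q : ℕ} (χ : DirichletCharacter ℂ q) (n : ℕ) : ℝ := (χ (n : ZMod q)).re

/-- the value of the L-function -/
noncomputable def Lr {q : ℕ} (χ : DirichletCharacter ℂ q) (s : ℝ) : ℝ := (LF χ (s : ℂ)).re

theorem tail {q : ℕ} [NeZero q] {χ : DirichletCharacter ℂ q} (hχ : χ ≠ 1) {s : ℝ} (hs : 0 < s)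
    {N : ℕ} (hN : 1 ≤ N) :
    |∑ n ∈ Finset.Icc 1 N, rx χ n * (n : ℝ) ^ (-s) - Lr χ s| ≤ 2 * q * (N : ℝ) ^ (-s) := by
  refine le_trans ?_ (tail_C hχ hs hN)
  have h1 : ∑ n ∈ Finset.Icc 1 N, rx χ n * (n : ℝ) ^ (-s) - Lr χ s =
      (∑ n ∈ Finset.Icc 1 N, χ (n : ZMod q) * (n : ℂ) ^ (-(s : ℂ)) - LF χ (s : ℂ)).re := by
    rw [Complex.sub_re, Complex.re_sum]
    unfold Lr rx
    congr 1
    refine Finset.sum_congr rfl fun n hn => ?_
    have hn1 : 1 ≤ n := (Finset.mem_Icc.1 hn).1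
    have hn0 : (0 : ℝ) ≤ n := Nat.cast_nonneg n
    have : (n : ℂ) ^ (-(s : ℂ)) = (((n : ℝ) ^ (-s) : ℝ) : ℂ) := by
      rw [Complex.ofReal_cpow hn0]
      push_cast
      rfl
    rw [this, Complex.re_mul_ofReal]
  rw [h1]
  exact Complex.abs_re_le_norm _

end Pool.Agent.DHP

/-! ## Block Zs (helper26) -/

namespace Pool.Agent.DHP

open Finset Filter Topology

theorem rp_up {β x y : ℝ} (hβ0 : 0 ≤ β) (hβ : β < 1) (hx : 0 < x) (hxy : x ≤ y) :
    (y ^ (1 - β) - x ^ (1 - β)) / (1 - β) ≤ x ^ (-β) * (y - x) := by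
  have h1β : 0 < 1 - β := by linarith
  have hy : 0 < y := by linarith
  rw [div_le_iff₀ h1β]
  have h1 := rpow_one_add_le_one_add_mul_self (s := y / x - 1) (p := 1 - β) (by
    have : 0 ≤ y / x := by positivity
    linarith) h1β.le (by linarith)
  have h2 : 1 + (y / x - 1) = y / x := by ring
  rw [h2, Real.div_rpow hy.le hx.le, div_le_iff₀ (Real.rpow_pos_of_pos hx _)] at h1
  have h3 : x ^ (1 - β) = x * x ^ (-β) := by
    rw [sub_eq_add_neg, Real.rpow_add hx, Real.rpow_one]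
  have h4 : (1 + (1 - β) * (y / x - 1)) * x ^ (1 - β) =
      x ^ (1 - β) + x ^ (-β) * (y - x) * (1 - β) := by
    have : (y / x - 1) * x ^ (1 - β) = x ^ (-β) * (y - x) := by
      rw [h3]
      field_simp
    calc _ = x ^ (1 - β) + (1 - β) * ((y / x - 1) * x ^ (1 - β)) := by ring
      _ = _ := by rw [this]; ring
  linarith

theorem rp_lo {β x y : ℝ} (hβ0 : 0 ≤ β) (hβ : β < 1) (hx : 0 < x) (hxy : x ≤ y) :
    y ^ (-β) * (y - x) ≤ (y ^ (1 - β) - x ^ (1 - β)) / (1 - β) := by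
  have h1β : 0 < 1 - β := by linarith
  have hy : 0 < y := by linarith
  rw [le_div_iff₀ h1β]
  have h1 := rpow_one_add_le_one_add_mul_self (s := x / y - 1) (p := 1 - β) (by
    have : 0 ≤ x / y := by positivity
    linarith) h1β.le (by linarith)
  have h2 : 1 + (x / y - 1) = x / y := by ring
  rw [h2, Real.div_rpow hx.le hy.le, div_le_iff₀ (Real.rpow_pos_of_pos hy _)] at h1
  have h3 : y ^ (1 - β) = y * y ^ (-β) := by
    rw [sub_eq_add_neg, Real.rpow_add hy, Real.rpow_one]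
  have h4 : (1 + (1 - β) * (x / y - 1)) * y ^ (1 - β) =
      y ^ (1 - β) - y ^ (-β) * (y - x) * (1 - β) := by
    have : (x / y - 1) * y ^ (1 - β) = - (y ^ (-β) * (y - x)) := by
      rw [h3]
      field_simp
      ring
    calc _ = y ^ (1 - β) + (1 - β) * ((x / y - 1) * y ^ (1 - β)) := by ring
      _ = _ := by rw [this]; ring
  linarith

/-- the sum of `m ^ (-β)` up to a real number -/
theorem zs_real {β : ℝ} (hβ0 : 0 ≤ β) (hβ : β < 1) : ∃ κ : ℝ, |κ| ≤ 1 / (1 - β) ∧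
    ∀ t : ℝ, 1 ≤ t → |∑ m ∈ Icc 1 ⌊t⌋₊, (m : ℝ) ^ (-β) - t ^ (1 - β) / (1 - β) - κ| ≤
      2 * t ^ (-β) := by
  have h1β : 0 < 1 - β := by linarith
  set g : ℕ → ℝ := fun n => ∑ m ∈ Icc 1 (n + 1), (m : ℝ) ^ (-β) -
    ((n + 1 : ℕ) : ℝ) ^ (1 - β) / (1 - β) with hg
  have hstep : ∀ n : ℕ, g (n + 1) ≤ g n ∧
      g n - ((n + 1 : ℕ) : ℝ) ^ (-β) ≤ g (n + 1) - ((n + 2 : ℕ) : ℝ) ^ (-β) := by
    intro n
    have hn : (0 : ℝ) < ((n + 1 : ℕ) : ℝ) := by positivity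
    have hle : ((n + 1 : ℕ) : ℝ) ≤ ((n + 2 : ℕ) : ℝ) := by push_cast; linarith
    have hd : ((n + 2 : ℕ) : ℝ) - ((n + 1 : ℕ) : ℝ) = 1 := by push_cast; ring
    have h1 := rp_up hβ0 hβ hn hle
    have h2 := rp_lo hβ0 hβ hn hle
    rw [hd, mul_one] at h1 h2
    have h3 : g (n + 1) = g n + ((n + 2 : ℕ) : ℝ) ^ (-β) -
        (((n + 2 : ℕ) : ℝ) ^ (1 - β) - ((n + 1 : ℕ) : ℝ) ^ (1 - β)) / (1 - β) := by
      simp only [hg]
      rw [sum_Icc_succ_top (by omega : 1 ≤ n + 1 + 1)]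
      have e : n + 1 + 1 = n + 2 := by ring
      rw [e]
      ring
    constructor
    · rw [h3]; linarith
    · rw [h3]; linarith
  have hanti : Antitone g := antitone_nat_of_succ_le fun n => (hstep n).1
  have hmono : Monotone (fun n : ℕ => g n - ((n + 1 : ℕ) : ℝ) ^ (-β)) :=
    monotone_nat_of_le_succ fun n => by
      have := (hstep n).2
      simpa [add_assoc] using this
  have hlow : ∀ n : ℕ, g 0 - 1 ≤ g n := by
    intro n
    have h1 := hmono (Nat.zero_le n)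
    simp only [zero_add, Nat.cast_one, Real.one_rpow] at h1
    have h2 : (0 : ℝ) ≤ ((n + 1 : ℕ) : ℝ) ^ (-β) := by positivity
    linarith
  have hbdd : BddBelow (Set.range g) := ⟨g 0 - 1, by rintro _ ⟨n, rfl⟩; exact hlow n⟩
  have hg0 : g 0 = 1 - 1 / (1 - β) := by
    simp [hg]
  set κ : ℝ := ⨅ n, g n with hκ
  have hκ1 : ∀ n, κ ≤ g n := fun n => ciInf_le hbdd n
  have hκ2 : ∀ n, g n - ((n + 1 : ℕ) : ℝ) ^ (-β) ≤ κ := by
    intro n
    refine le_ciInf fun m => ?_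
    rcases le_total n m with h | h
    · have h1 := hmono h
      have h2 : (0 : ℝ) ≤ ((m + 1 : ℕ) : ℝ) ^ (-β) := by positivity
      simp only at h1
      linarith
    · have h1 := hanti h
      have h2 : (0 : ℝ) ≤ ((n + 1 : ℕ) : ℝ) ^ (-β) := by positivity
      linarith
  have hinv : 1 ≤ 1 / (1 - β) := by
    rw [le_div_iff₀ h1β]; linarith
  refine ⟨κ, ?_, fun t ht => ?_⟩
  · rw [abs_le]
    constructor
    · have : g 0 - 1 ≤ κ := le_ciInf hlow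
      rw [hg0] at this
      linarith
    · have := hκ1 0
      rw [hg0] at this
      linarith
  · set n : ℕ := ⌊t⌋₊ - 1 with hn
    have hfl : 1 ≤ ⌊t⌋₊ := Nat.one_le_floor_iff _ |>.2 ht
    have hn1 : n + 1 = ⌊t⌋₊ := by omega
    have ht0 : 0 ≤ t := by linarith
    have h1 : ((n + 1 : ℕ) : ℝ) ≤ t := by rw [hn1]; exact Nat.floor_le ht0
    have h2 : t < ((n + 1 : ℕ) : ℝ) + 1 := by rw [hn1]; exact Nat.lt_floor_add_one t
    have hp : (0 : ℝ) < ((n + 1 : ℕ) : ℝ) := by positivity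
    have h3 := rp_up hβ0 hβ hp h1
    have h4 : ((n + 1 : ℕ) : ℝ) ^ (-β) * (t - ((n + 1 : ℕ) : ℝ)) ≤ ((n + 1 : ℕ) : ℝ) ^ (-β) := by
      have : (0 : ℝ) ≤ ((n + 1 : ℕ) : ℝ) ^ (-β) := by positivity
      nlinarith
    have h5 : ((n + 1 : ℕ) : ℝ) ^ (1 - β) ≤ t ^ (1 - β) :=
      Real.rpow_le_rpow hp.le h1 h1β.le
    have h6 : 0 ≤ (t ^ (1 - β) - ((n + 1 : ℕ) : ℝ) ^ (1 - β)) / (1 - β) :=
      div_nonneg (by linarith) h1β.le
    have h7 : ((n + 1 : ℕ) : ℝ) ^ (-β) ≤ 2 * t ^ (-β) := by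
      have h8 : t / 2 ≤ ((n + 1 : ℕ) : ℝ) := by
        have : (1 : ℝ) ≤ ((n + 1 : ℕ) : ℝ) := by push_cast; linarith [Nat.cast_nonneg (α := ℝ) n]
        linarith
      have h9 : ((n + 1 : ℕ) : ℝ) ^ (-β) ≤ (t / 2) ^ (-β) :=
        Real.rpow_le_rpow_of_nonpos (by linarith) h8 (by linarith)
      refine h9.trans ?_
      rw [Real.div_rpow ht0 (by norm_num), div_eq_mul_inv, mul_comm]
      have h10 : ((2 : ℝ) ^ (-β))⁻¹ ≤ 2 := by
        rw [← Real.rpow_neg (by norm_num), neg_neg]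
        calc (2 : ℝ) ^ β ≤ 2 ^ (1 : ℝ) :=
              Real.rpow_le_rpow_of_exponent_le (by norm_num) hβ.le
          _ = 2 := Real.rpow_one 2
      exact mul_le_mul_of_nonneg_right h10 (Real.rpow_nonneg ht0 _)
    have h11 : ∑ m ∈ Icc 1 ⌊t⌋₊, (m : ℝ) ^ (-β) - t ^ (1 - β) / (1 - β) =
        g n - (t ^ (1 - β) - ((n + 1 : ℕ) : ℝ) ^ (1 - β)) / (1 - β) := by
      simp only [hg]
      rw [hn1]
      ring
    rw [h11]
    have k1 := hκ1 n
    have k2 := hκ2 n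
    rw [abs_le]
    constructor <;> linarith

theorem zs {β : ℝ} (hβ0 : 0 ≤ β) (hβ : β < 1) : ∃ κ : ℝ, |κ| ≤ 1 / (1 - β) ∧
    ∀ N d : ℕ, 1 ≤ d → d ≤ N →
      |∑ m ∈ Icc 1 (N / d), (m : ℝ) ^ (-β) - ((N : ℝ) / d) ^ (1 - β) / (1 - β) - κ| ≤
        2 * ((N : ℝ) / d) ^ (-β) := by
  obtain ⟨κ, h1, h2⟩ := zs_real hβ0 hβ
  refine ⟨κ, h1, fun N d hd hdN => ?_⟩
  have hd0 : (0 : ℝ) < d := by exact_mod_cast hd
  have h3 := h2 ((N : ℝ) / d) (by
    rw [le_div_iff₀ hd0, one_mul]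
    exact_mod_cast hdN)
  rwa [Nat.floor_div_eq_div] at h3

/-- the sum of `m ^ (-β)` is at most its main term -/
theorem zs_le {β : ℝ} (hβ0 : 0 ≤ β) (hβ : β < 1) (M : ℕ) :
    ∑ m ∈ Icc 1 M, (m : ℝ) ^ (-β) ≤ (M : ℝ) ^ (1 - β) / (1 - β) := by
  have h1β : 0 < 1 - β := by linarith
  induction M with
  | zero =>
      simp only [Nat.cast_zero]
      rw [Real.zero_rpow h1β.ne']
      simp
  | succ n ih =>
      rw [sum_Icc_succ_top (by omega : 1 ≤ n + 1)]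
      rcases Nat.eq_zero_or_pos n with rfl | hn
      · simp only [Nat.cast_zero, zero_add, Nat.cast_one, Real.one_rpow] at *
        have : 1 ≤ 1 / (1 - β) := by rw [le_div_iff₀ h1β]; linarith
        simpa using this
      · have hn0 : (0 : ℝ) < n := by exact_mod_cast hn
        have h2 := rp_lo hβ0 hβ hn0 (by push_cast; linarith : (n : ℝ) ≤ ((n + 1 : ℕ) : ℝ))
        have hd : ((n + 1 : ℕ) : ℝ) - (n : ℝ) = 1 := by push_cast; ring
        rw [hd, mul_one, sub_div] at h2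
        linarith

theorem zs1_real : ∀ t : ℝ, 1 ≤ t →
    |∑ m ∈ Icc 1 ⌊t⌋₊, ((m : ℝ))⁻¹ - Real.log t - Real.eulerMascheroniConstant| ≤ 2 / t := by
  intro t ht
  have hfl : 1 ≤ ⌊t⌋₊ := Nat.one_le_floor_iff _ |>.2 ht
  have ht0 : 0 < t := by linarith
  set n : ℕ := ⌊t⌋₊ with hn
  have h1 : (n : ℝ) ≤ t := Nat.floor_le ht0.le
  have h2 : t < (n : ℝ) + 1 := Nat.lt_floor_add_one t
  have hn0 : (0 : ℝ) < n := by exact_mod_cast hfl
  have e1 : ∑ m ∈ Icc 1 n, ((m : ℝ))⁻¹ = (harmonic n : ℝ) := by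
    rw [harmonic_eq_sum_Icc]
    push_cast
    rfl
  have h3 := Real.eulerMascheroniSeq_lt_eulerMascheroniConstant n
  have h4 := Real.eulerMascheroniConstant_lt_eulerMascheroniSeq' n
  unfold Real.eulerMascheroniSeq at h3
  unfold Real.eulerMascheroniSeq' at h4
  rw [if_neg (by omega)] at h4
  have h5 : Real.log (n + 1) - Real.log n ≤ 1 / n := by
    rw [← Real.log_div (by positivity) hn0.ne']
    have : ((n : ℝ) + 1) / n = 1 + 1 / n := by field_simp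
    rw [this]
    have := Real.log_le_sub_one_of_pos (show (0 : ℝ) < 1 + 1 / n by positivity)
    linarith
  have h6 : Real.log n ≤ Real.log t := Real.log_le_log hn0 h1
  have h7 : Real.log t ≤ Real.log (n + 1) := Real.log_le_log ht0 h2.le
  have h8 : (1 : ℝ) / n ≤ 2 / t := by
    rw [div_le_div_iff₀ hn0 ht0]
    have : (1 : ℝ) ≤ n := by exact_mod_cast hfl
    linarith
  rw [e1, abs_le]
  constructor <;> linarith

theorem zs1 : ∀ N d : ℕ, 1 ≤ d → d ≤ N →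
    |∑ m ∈ Icc 1 (N / d), ((m : ℝ))⁻¹ - Real.log ((N : ℝ) / d) - Real.eulerMascheroniConstant| ≤
      2 / ((N : ℝ) / d) := by
  intro N d hd hdN
  have hd0 : (0 : ℝ) < d := by exact_mod_cast hd
  have h3 := zs1_real ((N : ℝ) / d) (by
    rw [le_div_iff₀ hd0, one_mul]
    exact_mod_cast hdN)
  rwa [Nat.floor_div_eq_div] at h3

end Pool.Agent.DHP

/-! ## Block Hyp (helper26) -/

namespace Pool.Agent.DHP

open Finset
open Pool.Agent.GA

/-- the convolution of `1` and `χ` -/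
noncomputable def ff {q : ℕ} (χ : DirichletCharacter ℂ q) (n : ℕ) : ℝ :=
  ∑ d ∈ n.divisors, rx χ d

theorem ff_re {q : ℕ} (χ : DirichletCharacter ℂ q) (n : ℕ) : (χ.zetaMul n).re = ff χ n := by
  unfold DirichletCharacter.zetaMul ff rx
  rw [ArithmeticFunction.coe_zeta_mul_apply, Complex.re_sum]
  refine sum_congr rfl fun d hd => ?_
  have hd0 : d ≠ 0 := (Nat.pos_of_mem_divisors hd).ne'
  simp [toArithmeticFunction, hd0]

theorem ff_C {q : ℕ} {χ : DirichletCharacter ℂ q} (hχ : χ ^ 2 = 1) (n : ℕ) :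
    ((ff χ n : ℝ) : ℂ) = χ.zetaMul n := by
  have h := DirichletCharacter.zetaMul_nonneg hχ n
  rw [Complex.nonneg_iff] at h
  apply Complex.ext
  · rw [Complex.ofReal_re, ff_re]
  · rw [Complex.ofReal_im]
    exact h.2

theorem ff_nonneg {q : ℕ} {χ : DirichletCharacter ℂ q} (hχ : χ ^ 2 = 1) (n : ℕ) : 0 ≤ ff χ n := by
  have h := DirichletCharacter.zetaMul_nonneg hχ n
  rw [Complex.nonneg_iff, ff_re] at h
  exact h.1

theorem ff_one {q : ℕ} (χ : DirichletCharacter ℂ q) : ff χ 1 = 1 := by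
  simp [ff, rx]

theorem ff_prime {q : ℕ} (χ : DirichletCharacter ℂ q) {p : ℕ} (hp : p.Prime) :
    ff χ p = 1 + rx χ p := by
  unfold ff
  rw [Nat.Prime.sum_divisors hp]
  simp [rx, add_comm]

theorem ff_mul {q : ℕ} {χ : DirichletCharacter ℂ q} (hχ : χ ^ 2 = 1) {m n : ℕ}
    (h : Nat.Coprime m n) : ff χ (m * n) = ff χ m * ff χ n := by
  have h1 := (DirichletCharacter.isMultiplicative_zetaMul χ).map_mul_of_coprime h
  rw [← ff_C hχ, ← ff_C hχ, ← ff_C hχ, ← Complex.ofReal_mul] at h1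
  exact Complex.ofReal_injective h1

/-- the interchange of the sums -/
theorem sum_div (N : ℕ) (F : ℕ → ℕ → ℝ) :
    ∑ n ∈ Icc 1 N, ∑ d ∈ n.divisors, F d n = ∑ d ∈ Icc 1 N, ∑ m ∈ Icc 1 (N / d), F d (d * m) := by
  rw [Finset.sum_sigma', Finset.sum_sigma']
  refine Finset.sum_nbij' (fun x => ⟨x.2, x.1 / x.2⟩) (fun x => ⟨x.1 * x.2, x.1⟩) ?_ ?_ ?_ ?_ ?_
  · rintro ⟨n, d⟩ h
    simp only [mem_sigma, mem_Icc, Nat.mem_divisors] at h ⊢
    obtain ⟨⟨h1, h2⟩, ⟨k, rfl⟩, h4⟩ := h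
    have hd : 0 < d := Nat.pos_of_ne_zero (by rintro rfl; simp at h4)
    have hk : 0 < k := Nat.pos_of_ne_zero (by rintro rfl; simp at h4)
    refine ⟨⟨hd, le_trans (Nat.le_mul_of_pos_right d hk) h2⟩, ?_, ?_⟩
    · rw [Nat.mul_div_cancel_left k hd]; exact hk
    · exact Nat.div_le_div_right h2
  · rintro ⟨d, m⟩ h
    simp only [mem_sigma, mem_Icc, Nat.mem_divisors] at h ⊢
    obtain ⟨⟨h1, h2⟩, h3, h4⟩ := h
    have h5 : d * m ≤ N := by
      rw [mul_comm]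
      exact (Nat.le_div_iff_mul_le h1).1 h4
    exact ⟨⟨Nat.mul_pos h1 h3, h5⟩, dvd_mul_right d m, (Nat.mul_pos h1 h3).ne'⟩
  · rintro ⟨n, d⟩ h
    simp only [mem_sigma, mem_Icc, Nat.mem_divisors] at h
    simp only [Sigma.mk.injEq, heq_eq_eq, and_true]
    exact Nat.mul_div_cancel' h.2.1
  · rintro ⟨d, m⟩ h
    simp only [mem_sigma, mem_Icc] at h
    simp only [Sigma.mk.injEq, heq_eq_eq, true_and]
    exact Nat.mul_div_cancel_left m h.1.1
  · rintro ⟨n, d⟩ h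
    simp only [mem_sigma, mem_Icc, Nat.mem_divisors] at h
    simp only
    rw [Nat.mul_div_cancel' h.2.1]

/-- the hyperbola method -/
theorem hyp {q : ℕ} (χ : DirichletCharacter ℂ q) (s : ℝ) {N y : ℕ} (hy : 1 ≤ y) (hyN : y ≤ N) :
    ∑ n ∈ Icc 1 N, ff χ n * (n : ℝ) ^ (-s) =
      ∑ d ∈ Icc 1 y, rx χ d * (d : ℝ) ^ (-s) * ∑ m ∈ Icc 1 (N / d), (m : ℝ) ^ (-s) +
      ∑ m ∈ Icc 1 (N / y), (m : ℝ) ^ (-s) * ∑ d ∈ Ioc y (N / m), rx χ d * (d : ℝ) ^ (-s) := by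
  have h1 : ∑ n ∈ Icc 1 N, ff χ n * (n : ℝ) ^ (-s) =
      ∑ d ∈ Icc 1 N, ∑ m ∈ Icc 1 (N / d), rx χ d * (d : ℝ) ^ (-s) * (m : ℝ) ^ (-s) := by
    have h2 := sum_div N (fun d n => rx χ d * (n : ℝ) ^ (-s))
    simp only [← sum_mul] at h2
    unfold ff
    rw [h2]
    refine sum_congr rfl fun d _ => sum_congr rfl fun m _ => ?_
    push_cast
    rw [Real.mul_rpow (Nat.cast_nonneg d) (Nat.cast_nonneg m)]
    ring
  have h3 : Icc 1 N = Icc 1 y ∪ Ioc y N := by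
    ext k
    simp only [mem_Icc, mem_union, mem_Ioc]
    omega
  have h4 : Disjoint (Icc 1 y) (Ioc y N) := by
    rw [Finset.disjoint_left]
    intro k hk hk2
    simp only [mem_Icc, mem_Ioc] at hk hk2
    omega
  rw [h1, h3, sum_union h4]
  congr 1
  · exact sum_congr rfl fun d _ => by rw [mul_sum]
  · rw [Finset.sum_comm' (s' := fun m => Ioc y (N / m)) (t' := Icc 1 (N / y))]
    · refine sum_congr rfl fun m _ => ?_
      rw [mul_sum]
      exact sum_congr rfl fun d _ => by ring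
    · intro d m
      simp only [mem_Icc, mem_Ioc]
      constructor
      · rintro ⟨⟨h5, h6⟩, h7, h8⟩
        have hd : 0 < d := by omega
        have h9 : m * d ≤ N := (Nat.le_div_iff_mul_le hd).1 h8
        refine ⟨⟨h5, (Nat.le_div_iff_mul_le h7).2 (by rw [mul_comm]; exact h9)⟩, h7, ?_⟩
        exact h8.trans (Nat.div_le_div_left h5.le hy)
      · rintro ⟨⟨h5, h6⟩, h7, h8⟩
        have hd : 0 < d := by omega
        have h9 : d * m ≤ N := (Nat.le_div_iff_mul_le h7).1 h6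
        refine ⟨⟨h5, le_trans (Nat.le_mul_of_pos_right d h7) h9⟩, h7, ?_⟩
        exact (Nat.le_div_iff_mul_le hd).2 (by rw [mul_comm]; exact h9)

/-- a segment -/
theorem seg {q : ℕ} [NeZero q] {χ : DirichletCharacter ℂ q} (hχ : χ ≠ 1) {s : ℝ} (hs : 0 < s)
    {y : ℕ} (hy : 1 ≤ y) (M : ℕ) :
    |∑ d ∈ Ioc y M, rx χ d * (d : ℝ) ^ (-s)| ≤ 4 * q * (y : ℝ) ^ (-s) := by
  have hyR : (0 : ℝ) < y := by exact_mod_cast hy
  rcases le_or_gt M y with h | h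
  · rw [Ioc_eq_empty (by omega), sum_empty, abs_zero]
    positivity
  · have h1 := tail hχ hs hy
    have h2 := tail hχ hs (hy.trans h.le)
    have h3 : ∑ n ∈ Icc 1 M, rx χ n * (n : ℝ) ^ (-s) = ∑ n ∈ Icc 1 y, rx χ n * (n : ℝ) ^ (-s) +
        ∑ d ∈ Ioc y M, rx χ d * (d : ℝ) ^ (-s) := by
      rw [← sum_union]
      · congr 1
        ext k
        simp only [mem_Icc, mem_union, mem_Ioc]
        omega
      · rw [Finset.disjoint_left]
        intro k hk hk2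
        simp only [mem_Icc, mem_Ioc] at hk hk2
        omega
    have h4 : (M : ℝ) ^ (-s) ≤ (y : ℝ) ^ (-s) :=
      Real.rpow_le_rpow_of_nonpos hyR (by exact_mod_cast h.le) (by linarith)
    have h5 : 2 * (q : ℝ) * (M : ℝ) ^ (-s) ≤ 2 * q * (y : ℝ) ^ (-s) :=
      mul_le_mul_of_nonneg_left h4 (by positivity)
    rw [abs_le] at h1 h2 ⊢
    constructor <;> linarith

end Pool.Agent.DHP

/-! ## Block Asy (helper26) -/

namespace Pool.Agent.DHP

open Finset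
open Pool.Agent.GA

theorem rx_abs {q : ℕ} (χ : DirichletCharacter ℂ q) (n : ℕ) : |rx χ n| ≤ 1 :=
  (Complex.abs_re_le_norm _).trans (DirichletCharacter.norm_le_one χ _)

theorem sqrt_facts {N : ℕ} (hN : 1 ≤ N) : 1 ≤ Nat.sqrt N ∧ Nat.sqrt N ≤ N ∧
    ((Nat.sqrt N : ℕ) : ℝ) ≤ (N : ℝ) ^ (1 / 2 : ℝ) ∧
    (N : ℝ) ^ (1 / 2 : ℝ) ≤ 2 * ((Nat.sqrt N : ℕ) : ℝ) := by
  have h1 : 1 ≤ Nat.sqrt N := Nat.le_sqrt.2 (by simpa using hN)
  refine ⟨h1, Nat.sqrt_le_self N, ?_, ?_⟩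
  · rw [← Real.sqrt_eq_rpow]
    apply Real.le_sqrt_of_sq_le
    have := Nat.sqrt_le' N
    exact_mod_cast this
  · rw [← Real.sqrt_eq_rpow]
    apply Real.sqrt_le_iff.2
    refine ⟨by positivity, ?_⟩
    have h2 := Nat.lt_succ_sqrt' N
    have h3 : (N : ℝ) < (((Nat.sqrt N : ℕ) : ℝ) + 1) ^ 2 := by exact_mod_cast h2
    have h4 : (1 : ℝ) ≤ ((Nat.sqrt N : ℕ) : ℝ) := by exact_mod_cast h1
    nlinarith

theorem low {q : ℕ} [NeZero q] {χ : DirichletCharacter ℂ q} (hχ : χ ≠ 1) {β : ℝ}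
    (hβ : 3 / 4 ≤ β) (hβ1 : β < 1) (hz : Lr χ β = 0) {N : ℕ} (hN : 1 ≤ N) :
    (N : ℝ) ^ (1 - β) / (1 - β) * (Lr χ 1 - 18 * q * (N : ℝ) ^ (-(1 / 4) : ℝ)) ≤
      ∑ n ∈ Icc 1 N, ff χ n * (n : ℝ) ^ (-β) := by
  obtain ⟨hy1, hyN, hy2, hy3⟩ := sqrt_facts hN
  set y : ℕ := Nat.sqrt N with hy
  have hyR : (1 : ℝ) ≤ y := by exact_mod_cast hy1
  have hNR : (1 : ℝ) ≤ N := by exact_mod_cast hN
  have hN0 : (0 : ℝ) < N := by linarith
  have hy0 : (0 : ℝ) < y := by linarith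
  have h1β : 0 < 1 - β := by linarith
  have hqR : (1 : ℝ) ≤ q := by exact_mod_cast (NeZero.pos q)
  obtain ⟨κ, hκ, hzs⟩ := zs (by linarith : (0 : ℝ) ≤ β) hβ1
  set T : ℝ := (N : ℝ) ^ (1 - β) / (1 - β) with hT
  have hNp : 1 ≤ (N : ℝ) ^ (1 - β) := Real.one_le_rpow hNR h1β.le
  have hT1 : 1 / (1 - β) ≤ T := div_le_div_of_nonneg_right hNp h1β.le
  have hT2 : 1 ≤ T := by
    refine le_trans ?_ hT1
    rw [le_div_iff₀ h1β]
    linarith
  have hT0 : 0 ≤ T := by linarith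
  rw [hyp χ β hy1 hyN]
  -- the first part
  have e1 : |∑ d ∈ Icc 1 y, rx χ d * (d : ℝ) ^ (-β) * ∑ m ∈ Icc 1 (N / d), (m : ℝ) ^ (-β) -
      (T * ∑ d ∈ Icc 1 y, rx χ d * (d : ℝ) ^ (-1 : ℝ) +
        κ * ∑ d ∈ Icc 1 y, rx χ d * (d : ℝ) ^ (-β))| ≤ 2 * y * (N : ℝ) ^ (-β) := by
    have h1 : ∑ d ∈ Icc 1 y, rx χ d * (d : ℝ) ^ (-β) * ∑ m ∈ Icc 1 (N / d), (m : ℝ) ^ (-β) -
      (T * ∑ d ∈ Icc 1 y, rx χ d * (d : ℝ) ^ (-1 : ℝ) +
        κ * ∑ d ∈ Icc 1 y, rx χ d * (d : ℝ) ^ (-β)) =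
        ∑ d ∈ Icc 1 y, rx χ d * (d : ℝ) ^ (-β) * (∑ m ∈ Icc 1 (N / d), (m : ℝ) ^ (-β) -
          ((N : ℝ) / d) ^ (1 - β) / (1 - β) - κ) := by
      rw [mul_sum, mul_sum, ← sum_add_distrib, ← sum_sub_distrib]
      refine sum_congr rfl fun d hd => ?_
      have hd0 : (0 : ℝ) < d := by exact_mod_cast (mem_Icc.1 hd).1
      have h2 : ((N : ℝ) / d) ^ (1 - β) = (N : ℝ) ^ (1 - β) * ((d : ℝ) ^ (-1 : ℝ) / (d : ℝ) ^ (-β))
          := by
        rw [Real.div_rpow hN0.le hd0.le, div_eq_mul_inv, ← Real.rpow_neg hd0.le,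
          ← Real.rpow_sub hd0]
        congr 2
        ring
      rw [h2, hT]
      have h3 : (d : ℝ) ^ (-β) ≠ 0 := (Real.rpow_pos_of_pos hd0 _).ne'
      field_simp
      ring
    rw [h1]
    refine (abs_sum_le_sum_abs _ _).trans ?_
    calc ∑ d ∈ Icc 1 y, |rx χ d * (d : ℝ) ^ (-β) * (∑ m ∈ Icc 1 (N / d), (m : ℝ) ^ (-β) -
          ((N : ℝ) / d) ^ (1 - β) / (1 - β) - κ)| ≤ ∑ d ∈ Icc 1 y, 2 * (N : ℝ) ^ (-β) := by
          refine sum_le_sum fun d hd => ?_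
          obtain ⟨hd1, hd2⟩ := mem_Icc.1 hd
          have hd0 : (0 : ℝ) < d := by exact_mod_cast hd1
          have h2 := hzs N d hd1 (hd2.trans hyN)
          have h3 : 0 ≤ (d : ℝ) ^ (-β) := Real.rpow_nonneg hd0.le _
          rw [abs_mul, abs_mul, abs_of_nonneg h3]
          calc |rx χ d| * (d : ℝ) ^ (-β) * _ ≤ 1 * (d : ℝ) ^ (-β) * (2 * ((N : ℝ) / d) ^ (-β)) :=
                mul_le_mul (mul_le_mul_of_nonneg_right (rx_abs χ d) h3) h2 (abs_nonneg _)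
                  (by positivity)
            _ = 2 * (N : ℝ) ^ (-β) := by
                rw [Real.div_rpow hN0.le hd0.le]
                have : (d : ℝ) ^ (-β) ≠ 0 := (Real.rpow_pos_of_pos hd0 _).ne'
                field_simp
      _ = 2 * y * (N : ℝ) ^ (-β) := by
          rw [sum_const, nsmul_eq_mul, Nat.card_Icc, Nat.add_sub_cancel]
          ring
  have e2 := tail hχ (by norm_num : (0 : ℝ) < 1) hy1
  have e3 := tail hχ (by linarith : (0 : ℝ) < β) hy1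
  rw [hz, sub_zero] at e3
  -- the second part
  have e4 : |∑ m ∈ Icc 1 (N / y), (m : ℝ) ^ (-β) * ∑ d ∈ Ioc y (N / m), rx χ d * (d : ℝ) ^ (-β)| ≤
      4 * q * (y : ℝ) ^ (-β) * T := by
    refine (abs_sum_le_sum_abs _ _).trans ?_
    calc ∑ m ∈ Icc 1 (N / y), |(m : ℝ) ^ (-β) * ∑ d ∈ Ioc y (N / m), rx χ d * (d : ℝ) ^ (-β)| ≤
        ∑ m ∈ Icc 1 (N / y), (m : ℝ) ^ (-β) * (4 * q * (y : ℝ) ^ (-β)) := by
          refine sum_le_sum fun m _ => ?_
          have h3 : 0 ≤ (m : ℝ) ^ (-β) := Real.rpow_nonneg (Nat.cast_nonneg m) _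
          rw [abs_mul, abs_of_nonneg h3]
          exact mul_le_mul_of_nonneg_left (seg hχ (by linarith) hy1 _) h3
      _ = (∑ m ∈ Icc 1 (N / y), (m : ℝ) ^ (-β)) * (4 * q * (y : ℝ) ^ (-β)) := by rw [sum_mul]
      _ ≤ T * (4 * q * (y : ℝ) ^ (-β)) := by
          apply mul_le_mul_of_nonneg_right _ (by positivity)
          refine (zs_le (by linarith) hβ1 (N / y)).trans ?_
          apply div_le_div_of_nonneg_right _ h1β.le
          apply Real.rpow_le_rpow (Nat.cast_nonneg _) _ h1β.le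
          exact_mod_cast Nat.div_le_self N y
      _ = _ := by ring
  -- the sizes
  set E : ℝ := (N : ℝ) ^ (-(1 / 4) : ℝ) with hE
  have hE0 : 0 ≤ E := Real.rpow_nonneg hN0.le _
  have b1 : (y : ℝ) ^ (-β) ≤ 2 * E := by
    have h1 : (y : ℝ) ^ (-β) ≤ ((N : ℝ) ^ (1 / 2 : ℝ) / 2) ^ (-β) :=
      Real.rpow_le_rpow_of_nonpos (by positivity) (by linarith) (by linarith)
    refine h1.trans ?_
    rw [Real.div_rpow (by positivity) (by norm_num), ← Real.rpow_mul hN0.le, div_eq_mul_inv,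
      mul_comm]
    have h10 : ((2 : ℝ) ^ (-β))⁻¹ ≤ 2 := by
      rw [← Real.rpow_neg (by norm_num), neg_neg]
      calc (2 : ℝ) ^ β ≤ 2 ^ (1 : ℝ) :=
            Real.rpow_le_rpow_of_exponent_le (by norm_num) hβ1.le
        _ = 2 := Real.rpow_one 2
    refine mul_le_mul h10 ?_ (Real.rpow_nonneg hN0.le _) (by norm_num)
    exact Real.rpow_le_rpow_of_exponent_le hNR (by linarith)
  have b2 : (y : ℝ) ^ (-1 : ℝ) ≤ 2 * E := by
    have h1 : (y : ℝ) ^ (-1 : ℝ) ≤ (y : ℝ) ^ (-β) :=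
      Real.rpow_le_rpow_of_exponent_le hyR (by linarith)
    exact h1.trans b1
  have b3 : (y : ℝ) * (N : ℝ) ^ (-β) ≤ E := by
    calc (y : ℝ) * (N : ℝ) ^ (-β) ≤ (N : ℝ) ^ (1 / 2 : ℝ) * (N : ℝ) ^ (-β) :=
          mul_le_mul_of_nonneg_right hy2 (Real.rpow_nonneg hN0.le _)
      _ = (N : ℝ) ^ (1 / 2 - β) := by
          rw [← Real.rpow_add hN0]
          congr 1
      _ ≤ E := Real.rpow_le_rpow_of_exponent_le hNR (by linarith)
  have c1 : T * (2 * q * (y : ℝ) ^ (-1 : ℝ)) ≤ T * (4 * q * E) := by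
    apply mul_le_mul_of_nonneg_left _ hT0
    nlinarith
  have c2 : |κ * ∑ d ∈ Icc 1 y, rx χ d * (d : ℝ) ^ (-β)| ≤ T * (4 * q * E) := by
    rw [abs_mul]
    apply mul_le_mul (hκ.trans hT1) _ (abs_nonneg _) hT0
    refine e3.trans ?_
    nlinarith
  have c3 : 2 * y * (N : ℝ) ^ (-β) ≤ T * (2 * q * E) := by
    have h1 : E ≤ T * E := by nlinarith
    have h2 : T * E ≤ T * (q * E) := by
      apply mul_le_mul_of_nonneg_left _ hT0
      nlinarith
    nlinarith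
  have c4 : 4 * q * (y : ℝ) ^ (-β) * T ≤ T * (8 * q * E) := by
    have : 4 * q * (y : ℝ) ^ (-β) ≤ 8 * q * E := by nlinarith
    nlinarith
  have c5 : T * (Lr χ 1 - 2 * q * (y : ℝ) ^ (-1 : ℝ)) ≤
      T * ∑ d ∈ Icc 1 y, rx χ d * (d : ℝ) ^ (-1 : ℝ) := by
    apply mul_le_mul_of_nonneg_left _ hT0
    rw [abs_le] at e2
    linarith
  rw [abs_le] at e1 e4 c2
  have hfin : T * (Lr χ 1 - 18 * q * E) = T * (Lr χ 1 - 2 * q * (y : ℝ) ^ (-1 : ℝ)) +
      T * (2 * q * (y : ℝ) ^ (-1 : ℝ)) - T * (4 * q * E) - T * (4 * q * E) - T * (2 * q * E) -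
        T * (8 * q * E) := by ring
  rw [hfin]
  linarith [e1.1, e4.1, c2.1]

theorem up {q : ℕ} [NeZero q] {χ : DirichletCharacter ℂ q} (hχ : χ ≠ 1) {a b : ℕ} (ha : 1 ≤ a)
    (hab : a ≤ b) :
    ∑ n ∈ Icc 1 b, ff χ n * (n : ℝ) ^ (-1 : ℝ) - ∑ n ∈ Icc 1 a, ff χ n * (n : ℝ) ^ (-1 : ℝ) ≤
      Lr χ 1 * Real.log ((b : ℝ) / a) +
        24 * q * (a : ℝ) ^ (-(1 / 2) : ℝ) * (1 + Real.log b) := by
  obtain ⟨hy1, hya, hy2, hy3⟩ := sqrt_facts ha
  set y : ℕ := Nat.sqrt a with hy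
  have hyR : (1 : ℝ) ≤ y := by exact_mod_cast hy1
  have haR : (1 : ℝ) ≤ a := by exact_mod_cast ha
  have ha0 : (0 : ℝ) < a := by linarith
  have habR : (a : ℝ) ≤ b := by exact_mod_cast hab
  have hb0 : (0 : ℝ) < b := by linarith
  have hy0 : (0 : ℝ) < y := by linarith
  have hqR : (1 : ℝ) ≤ q := by exact_mod_cast (NeZero.pos q)
  have hlb : 0 ≤ Real.log b := Real.log_nonneg (by linarith)
  have hlba : 0 ≤ Real.log ((b : ℝ) / a) := Real.log_nonneg (by rwa [le_div_iff₀ ha0, one_mul])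
  have hlba2 : Real.log ((b : ℝ) / a) ≤ Real.log b := by
    apply Real.log_le_log (by positivity)
    exact div_le_self hb0.le haR
  rw [hyp χ 1 hy1 (hya.trans hab), hyp χ 1 hy1 hya]
  have hinv : ∀ n : ℕ, (n : ℝ) ^ (-1 : ℝ) = (n : ℝ)⁻¹ := fun n => Real.rpow_neg_one _
  -- the second parts
  have e4 : ∀ N : ℕ, 1 ≤ N → |∑ m ∈ Icc 1 (N / y), (m : ℝ) ^ (-1 : ℝ) *
      ∑ d ∈ Ioc y (N / m), rx χ d * (d : ℝ) ^ (-1 : ℝ)| ≤
      4 * q * (y : ℝ) ^ (-1 : ℝ) * (1 + Real.log N) := by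
    intro N hN
    refine (abs_sum_le_sum_abs _ _).trans ?_
    calc ∑ m ∈ Icc 1 (N / y), |(m : ℝ) ^ (-1 : ℝ) *
          ∑ d ∈ Ioc y (N / m), rx χ d * (d : ℝ) ^ (-1 : ℝ)| ≤
        ∑ m ∈ Icc 1 (N / y), (m : ℝ) ^ (-1 : ℝ) * (4 * q * (y : ℝ) ^ (-1 : ℝ)) := by
          refine sum_le_sum fun m _ => ?_
          have h3 : 0 ≤ (m : ℝ) ^ (-1 : ℝ) := Real.rpow_nonneg (Nat.cast_nonneg m) _
          rw [abs_mul, abs_of_nonneg h3]
          exact mul_le_mul_of_nonneg_left (seg hχ (by norm_num) hy1 _) h3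
      _ = (∑ m ∈ Icc 1 (N / y), (m : ℝ) ^ (-1 : ℝ)) * (4 * q * (y : ℝ) ^ (-1 : ℝ)) := by
          rw [sum_mul]
      _ ≤ (1 + Real.log N) * (4 * q * (y : ℝ) ^ (-1 : ℝ)) := by
          apply mul_le_mul_of_nonneg_right _ (by positivity)
          simp only [hinv]
          have h5 := harmonic_le_one_add_log N
          have h6 : (harmonic N : ℝ) = ∑ m ∈ Icc 1 N, ((m : ℝ))⁻¹ := by
            rw [harmonic_eq_sum_Icc]
            push_cast
            rfl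
          rw [h6] at h5
          refine le_trans ?_ h5
          apply sum_le_sum_of_subset_of_nonneg
          · exact Icc_subset_Icc_right (Nat.div_le_self N y)
          · intro i _ _
            positivity
      _ = _ := by ring
  have f1 := e4 b (ha.trans hab)
  have f2 := e4 a ha
  have f3 : 4 * q * (y : ℝ) ^ (-1 : ℝ) * (1 + Real.log a) ≤
      4 * q * (y : ℝ) ^ (-1 : ℝ) * (1 + Real.log b) := by
    apply mul_le_mul_of_nonneg_left _ (by positivity)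
    have := Real.log_le_log ha0 habR
    linarith
  -- the first parts
  have e1 : |(∑ d ∈ Icc 1 y, rx χ d * (d : ℝ) ^ (-1 : ℝ) *
        ∑ m ∈ Icc 1 (b / d), (m : ℝ) ^ (-1 : ℝ) -
      ∑ d ∈ Icc 1 y, rx χ d * (d : ℝ) ^ (-1 : ℝ) * ∑ m ∈ Icc 1 (a / d), (m : ℝ) ^ (-1 : ℝ)) -
      Real.log ((b : ℝ) / a) * ∑ d ∈ Icc 1 y, rx χ d * (d : ℝ) ^ (-1 : ℝ)| ≤ 4 * (y / a) := by
    rw [mul_sum, ← sum_sub_distrib, ← sum_sub_distrib]
    refine (abs_sum_le_sum_abs _ _).trans ?_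
    calc _ ≤ ∑ d ∈ Icc 1 y, 4 * ((a : ℝ))⁻¹ := by
          refine sum_le_sum fun d hd => ?_
          obtain ⟨hd1, hd2⟩ := mem_Icc.1 hd
          have hd0 : (0 : ℝ) < d := by exact_mod_cast hd1
          have g1 := zs1 b d hd1 (hd2.trans (hya.trans hab))
          have g2 := zs1 a d hd1 (hd2.trans hya)
          simp only [hinv]
          have g3 : Real.log ((b : ℝ) / a) = Real.log ((b : ℝ) / d) - Real.log ((a : ℝ) / d) := by
            rw [Real.log_div hb0.ne' ha0.ne', Real.log_div hb0.ne' hd0.ne',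
              Real.log_div ha0.ne' hd0.ne']
            ring
          have g4 : rx χ d * (d : ℝ)⁻¹ * ∑ m ∈ Icc 1 (b / d), ((m : ℝ))⁻¹ -
              rx χ d * (d : ℝ)⁻¹ * ∑ m ∈ Icc 1 (a / d), ((m : ℝ))⁻¹ -
              Real.log ((b : ℝ) / a) * (rx χ d * (d : ℝ)⁻¹) =
              rx χ d * (d : ℝ)⁻¹ * ((∑ m ∈ Icc 1 (b / d), ((m : ℝ))⁻¹ - Real.log ((b : ℝ) / d) -
                Real.eulerMascheroniConstant) - (∑ m ∈ Icc 1 (a / d), ((m : ℝ))⁻¹ -
                  Real.log ((a : ℝ) / d) - Real.eulerMascheroniConstant)) := by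
            rw [g3]; ring
          rw [g4, abs_mul, abs_mul, abs_of_nonneg (by positivity : (0 : ℝ) ≤ (d : ℝ)⁻¹)]
          have g5 : 2 / ((b : ℝ) / d) ≤ 2 / ((a : ℝ) / d) := by
            apply div_le_div_of_nonneg_left (by norm_num) (by positivity)
            exact div_le_div_of_nonneg_right habR hd0.le
          have g6 := (abs_sub (∑ m ∈ Icc 1 (b / d), ((m : ℝ))⁻¹ - Real.log ((b : ℝ) / d) -
                Real.eulerMascheroniConstant) (∑ m ∈ Icc 1 (a / d), ((m : ℝ))⁻¹ -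
                  Real.log ((a : ℝ) / d) - Real.eulerMascheroniConstant))
          calc |rx χ d| * (d : ℝ)⁻¹ * _ ≤ 1 * (d : ℝ)⁻¹ * (4 / ((a : ℝ) / d)) := by
                refine mul_le_mul (mul_le_mul_of_nonneg_right (rx_abs χ d) (by positivity)) ?_
                  (abs_nonneg _) (by positivity)
                have g7 : 4 / ((a : ℝ) / d) = 2 / ((a : ℝ) / d) + 2 / ((a : ℝ) / d) := by ring
                rw [g7]
                linarith
            _ = 4 * ((a : ℝ))⁻¹ := by field_simp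
      _ = 4 * (y / a) := by
          rw [sum_const, nsmul_eq_mul, Nat.card_Icc, Nat.add_sub_cancel]
          ring
  have e2 := tail hχ (by norm_num : (0 : ℝ) < 1) hy1
  set E : ℝ := (a : ℝ) ^ (-(1 / 2) : ℝ) with hE
  have hE0 : 0 ≤ E := Real.rpow_nonneg ha0.le _
  have haE : (a : ℝ) ^ (1 / 2 : ℝ) * E = 1 := by
    rw [hE, ← Real.rpow_add ha0]
    norm_num
  have haa : (a : ℝ) ^ (1 / 2 : ℝ) * (a : ℝ) ^ (1 / 2 : ℝ) = a := by
    rw [← Real.rpow_add ha0]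
    norm_num
  have b2 : (y : ℝ) ^ (-1 : ℝ) ≤ 2 * E := by
    rw [Real.rpow_neg_one, inv_le_iff_one_le_mul₀ hy0]
    nlinarith
  have b3 : (y : ℝ) / a ≤ E := by
    rw [div_le_iff₀ ha0]
    have : E * a = (a : ℝ) ^ (1 / 2 : ℝ) := by
      calc E * a = E * ((a : ℝ) ^ (1 / 2 : ℝ) * (a : ℝ) ^ (1 / 2 : ℝ)) := by rw [haa]
        _ = ((a : ℝ) ^ (1 / 2 : ℝ) * E) * (a : ℝ) ^ (1 / 2 : ℝ) := by ring
        _ = _ := by rw [haE, one_mul]
    rw [this]
    exact hy2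
  have c5 : Real.log ((b : ℝ) / a) * ∑ d ∈ Icc 1 y, rx χ d * (d : ℝ) ^ (-1 : ℝ) ≤
      Real.log ((b : ℝ) / a) * (Lr χ 1 + 2 * q * (y : ℝ) ^ (-1 : ℝ)) := by
    apply mul_le_mul_of_nonneg_left _ hlba
    rw [abs_le] at e2
    linarith
  have c6 : Real.log ((b : ℝ) / a) * (2 * q * (y : ℝ) ^ (-1 : ℝ)) ≤
      Real.log b * (4 * q * E) := by
    apply mul_le_mul hlba2 _ (by positivity) hlb
    nlinarith
  have c7 : 4 * q * (y : ℝ) ^ (-1 : ℝ) * (1 + Real.log b) ≤ 8 * q * E * (1 + Real.log b) := by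
    apply mul_le_mul_of_nonneg_right _ (by linarith)
    nlinarith
  have c8 : 4 * E ≤ 4 * q * E := by nlinarith
  rw [abs_le] at e1 f1 f2
  have hqE : 0 ≤ (q : ℝ) * E := by positivity
  nlinarith [e1.2, f1.2, f2.1]

end Pool.Agent.DHP

/-! ## Block Pr (helper26) -/

namespace Pool.Agent.DHP

open Finset
open Pool.Agent.GA

theorem sum_log_primeFactors {n : ℕ} (hn : 1 ≤ n) : ∑ p ∈ n.primeFactors, Real.log p ≤ Real.log n := by
  have h1 : ∏ p ∈ n.primeFactors, p ≤ n := Nat.le_of_dvd hn (Nat.prod_primeFactors_dvd n)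
  have h2 : ∑ p ∈ n.primeFactors, Real.log p = Real.log (∏ p ∈ n.primeFactors, (p : ℝ)) := by
    rw [Real.log_prod]
    intro p hp
    exact_mod_cast (Nat.prime_of_mem_primeFactors hp).ne_zero
  rw [h2]
  apply Real.log_le_log
  · apply prod_pos
    intro p hp
    exact_mod_cast (Nat.prime_of_mem_primeFactors hp).pos
  · have h3 : ∏ p ∈ n.primeFactors, (p : ℝ) = ((∏ p ∈ n.primeFactors, p : ℕ) : ℝ) := by
      push_cast
      rfl
    rw [h3]
    exact_mod_cast h1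

/-- the products `m p` -/
theorem prod_ineq {q : ℕ} {χ : DirichletCharacter ℂ q} (hχ : χ ^ 2 = 1) {a b : ℕ} (_ : 1 ≤ a) :
    (∑ n ∈ Icc 1 a, ff χ n * (n : ℝ) ^ (-1 : ℝ)) *
      ∑ p ∈ (Ioc a b).filter Nat.Prime, (1 + rx χ p) * (Real.log p / p) ≤
    Real.log ((a * b : ℕ) : ℝ) * ∑ n ∈ Ioc a (a * b), ff χ n * (n : ℝ) ^ (-1 : ℝ) := by
  have hinv : ∀ n : ℕ, (n : ℝ) ^ (-1 : ℝ) = (n : ℝ)⁻¹ := fun n => Real.rpow_neg_one _
  simp only [hinv]
  set P := (Ioc a b).filter Nat.Prime with hP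
  have hPp : ∀ p ∈ P, p.Prime ∧ a < p ∧ p ≤ b := by
    intro p hp
    rw [hP, mem_filter, mem_Ioc] at hp
    exact ⟨hp.2, hp.1.1, hp.1.2⟩
  calc (∑ n ∈ Icc 1 a, ff χ n * (n : ℝ)⁻¹) * ∑ p ∈ P, (1 + rx χ p) * (Real.log p / p) =
      ∑ p ∈ P, ∑ m ∈ Icc 1 a, (ff χ (m * p) * ((m * p : ℕ) : ℝ)⁻¹) * Real.log p := by
        rw [mul_comm, sum_mul]
        refine sum_congr rfl fun p hp => ?_
        obtain ⟨hp1, hp2, hp3⟩ := hPp p hp
        rw [mul_sum]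
        refine sum_congr rfl fun m hm => ?_
        obtain ⟨hm1, hm2⟩ := mem_Icc.1 hm
        have hcop : Nat.Coprime m p := by
          rw [Nat.coprime_comm, Nat.Prime.coprime_iff_not_dvd hp1]
          intro h
          have := Nat.le_of_dvd hm1 h
          omega
        rw [ff_mul hχ hcop, ff_prime χ hp1]
        have hp0 : (p : ℝ) ≠ 0 := by exact_mod_cast hp1.ne_zero
        have hm0 : (m : ℝ) ≠ 0 := by
          have : m ≠ 0 := by omega
          exact_mod_cast this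
        push_cast
        field_simp
    _ ≤ ∑ p ∈ P, ∑ n ∈ (Ioc a (a * b)).filter (fun n => p ∣ n),
        (ff χ n * (n : ℝ)⁻¹) * Real.log p := by
        refine sum_le_sum fun p hp => ?_
        obtain ⟨hp1, hp2, hp3⟩ := hPp p hp
        have hlp : 0 ≤ Real.log p := Real.log_nonneg (by exact_mod_cast hp1.one_le)
        rw [← sum_image (f := fun n : ℕ => (ff χ n * (n : ℝ)⁻¹) * Real.log p)
          (g := fun m : ℕ => m * p) (s := Icc 1 a)]
        · apply sum_le_sum_of_subset_of_nonneg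
          · intro n hn
            rw [mem_image] at hn
            obtain ⟨m, hm, rfl⟩ := hn
            obtain ⟨hm1, hm2⟩ := mem_Icc.1 hm
            rw [mem_filter, mem_Ioc]
            refine ⟨⟨?_, Nat.mul_le_mul hm2 hp3⟩, dvd_mul_left p m⟩
            exact lt_of_lt_of_le hp2 (Nat.le_mul_of_pos_left p hm1)
          · intro n _ _
            exact mul_nonneg (mul_nonneg (ff_nonneg hχ n) (by positivity)) hlp
        · intro x _ y _ hxy
          exact Nat.eq_of_mul_eq_mul_right hp1.pos hxy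
    _ = ∑ n ∈ Ioc a (a * b), ∑ p ∈ P.filter (fun p => p ∣ n),
        (ff χ n * (n : ℝ)⁻¹) * Real.log p := by
        refine Finset.sum_comm' ?_
        intro p n
        simp only [mem_filter]
        tauto
    _ ≤ ∑ n ∈ Ioc a (a * b), (ff χ n * (n : ℝ)⁻¹) * Real.log ((a * b : ℕ) : ℝ) := by
        refine sum_le_sum fun n hn => ?_
        obtain ⟨hn1, hn2⟩ := mem_Ioc.1 hn
        rw [← mul_sum]
        apply mul_le_mul_of_nonneg_left _ (mul_nonneg (ff_nonneg hχ n) (by positivity))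
        have hn0 : 1 ≤ n := by omega
        calc ∑ p ∈ P.filter (fun p => p ∣ n), Real.log p ≤ ∑ p ∈ n.primeFactors, Real.log p := by
              apply sum_le_sum_of_subset_of_nonneg
              · intro p hp
                rw [mem_filter] at hp
                exact Nat.mem_primeFactors.2 ⟨(hPp p hp.1).1, hp.2, by omega⟩
              · intro p hp _
                exact Real.log_nonneg (by exact_mod_cast (Nat.prime_of_mem_primeFactors hp).one_le)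
          _ ≤ Real.log n := sum_log_primeFactors hn0
          _ ≤ _ := by
              apply Real.log_le_log (by exact_mod_cast hn0)
              exact_mod_cast hn2
    _ = _ := by rw [← sum_mul, mul_comm]

/-- the primes with `χ(p) = 1` are rare -/
theorem primes_rare {q : ℕ} [NeZero q] {χ : DirichletCharacter ℂ q} (hχ : χ ≠ 1) (hχ2 : χ ^ 2 = 1)
    {β : ℝ} (hβ : 3 / 4 ≤ β) (hβ1 : β < 1) (hz : Lr χ β = 0) {a b : ℕ} (ha : 2 ≤ a)
    (hqa : q ^ 8 ≤ a) (hab : a ≤ b) :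
    ∑ p ∈ (Ioc a b).filter Nat.Prime, (1 + rx χ p) * (Real.log p / p) ≤
      240 * Real.log b ^ 2 * ((1 - β) + (a : ℝ) ^ (-(1 / 8) : ℝ)) := by
  have haR : (2 : ℝ) ≤ a := by exact_mod_cast ha
  have ha0 : (0 : ℝ) < a := by linarith
  have habR : (a : ℝ) ≤ b := by exact_mod_cast hab
  have hb0 : (0 : ℝ) < b := by linarith
  have h1β : 0 < 1 - β := by linarith
  have hqR : (1 : ℝ) ≤ q := by exact_mod_cast (NeZero.pos q)
  have hlog2 : (0.69 : ℝ) ≤ Real.log 2 := by linarith [Real.log_two_gt_d9]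
  have hlb : Real.log 2 ≤ Real.log b := Real.log_le_log (by norm_num) (by linarith)
  have hlb0 : 0 < Real.log b := by linarith
  have hlab : Real.log a ≤ Real.log b := Real.log_le_log ha0 habR
  set M : ℝ := ∑ n ∈ Icc 1 a, ff χ n * (n : ℝ) ^ (-1 : ℝ) with hM
  set P : ℝ := ∑ p ∈ (Ioc a b).filter Nat.Prime, (1 + rx χ p) * (Real.log p / p) with hP
  set E : ℝ := (a : ℝ) ^ (-(1 / 8) : ℝ) with hE
  have hE0 : 0 < E := Real.rpow_pos_of_pos ha0 _
  have hE1 : E ≤ 1 := Real.rpow_le_one_of_one_le_of_nonpos (by linarith) (by norm_num)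
  have hq8 : (q : ℝ) ≤ (a : ℝ) ^ (1 / 8 : ℝ) := by
    have h1 : ((q : ℝ) ^ 8) ≤ a := by exact_mod_cast hqa
    have h2 : (q : ℝ) = ((q : ℝ) ^ 8) ^ (1 / 8 : ℝ) := by
      rw [← Real.rpow_natCast, ← Real.rpow_mul (by linarith)]
      norm_num
    rw [h2]
    exact Real.rpow_le_rpow (by positivity) h1 (by norm_num)
  have hP0 : 0 ≤ P := by
    refine sum_nonneg fun p hp => ?_
    have h1 := rx_abs χ p
    rw [abs_le] at h1
    have h2 : 0 ≤ Real.log p := by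
      apply Real.log_nonneg
      exact_mod_cast (mem_filter.1 hp).2.one_le
    exact mul_nonneg (by linarith) (by positivity)
  -- the upper bound
  have hD : M * P ≤ 2 * Real.log b ^ 2 * (Lr χ 1 + 84 * E ^ 3) := by
    have h1 := prod_ineq (b := b) hχ2 (by omega : 1 ≤ a)
    have hle : a ≤ a * b := Nat.le_mul_of_pos_right a (by omega)
    have h2 := up hχ (by omega : 1 ≤ a) hle
    have h3 : ∑ n ∈ Icc 1 (a * b), ff χ n * (n : ℝ) ^ (-1 : ℝ) - M =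
        ∑ n ∈ Ioc a (a * b), ff χ n * (n : ℝ) ^ (-1 : ℝ) := by
      rw [sub_eq_iff_eq_add, hM, add_comm, ← sum_union]
      · congr 1
        ext k
        simp only [mem_Icc, mem_union, mem_Ioc]
        omega
      · rw [Finset.disjoint_left]
        intro k hk hk2
        simp only [mem_Icc, mem_Ioc] at hk hk2
        omega
    rw [h3] at h2
    have h4 : ((a * b : ℕ) : ℝ) / a = b := by
      push_cast
      field_simp
    have h5 : Real.log ((a * b : ℕ) : ℝ) ≤ 2 * Real.log b := by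
      push_cast
      rw [Real.log_mul ha0.ne' hb0.ne']
      linarith
    have h50 : 0 ≤ Real.log ((a * b : ℕ) : ℝ) := by
      apply Real.log_nonneg
      push_cast
      nlinarith
    rw [h4] at h2
    have h6 : (q : ℝ) * (a : ℝ) ^ (-(1 / 2) : ℝ) ≤ E ^ 3 := by
      calc (q : ℝ) * (a : ℝ) ^ (-(1 / 2) : ℝ) ≤ (a : ℝ) ^ (1 / 8 : ℝ) * (a : ℝ) ^ (-(1 / 2) : ℝ) :=
            mul_le_mul_of_nonneg_right hq8 (Real.rpow_nonneg ha0.le _)
        _ = E ^ 3 := by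
            rw [← Real.rpow_add ha0, hE, ← Real.rpow_natCast, ← Real.rpow_mul ha0.le]
            norm_num
    have h7 : 24 * q * (a : ℝ) ^ (-(1 / 2) : ℝ) * (1 + Real.log ((a * b : ℕ) : ℝ)) ≤
        84 * E ^ 3 * Real.log b := by
      have h8 : 1 + Real.log ((a * b : ℕ) : ℝ) ≤ 3.5 * Real.log b := by
        have : 1 ≤ 1.5 * Real.log b := by linarith
        linarith
      calc 24 * q * (a : ℝ) ^ (-(1 / 2) : ℝ) * (1 + Real.log ((a * b : ℕ) : ℝ)) =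
          24 * (q * (a : ℝ) ^ (-(1 / 2) : ℝ)) * (1 + Real.log ((a * b : ℕ) : ℝ)) := by ring
        _ ≤ 24 * E ^ 3 * (3.5 * Real.log b) := by
            apply mul_le_mul _ h8 (by linarith) (by positivity)
            linarith
        _ = _ := by ring
    have h9 : ∑ n ∈ Ioc a (a * b), ff χ n * (n : ℝ) ^ (-1 : ℝ) ≤
        Real.log b * (Lr χ 1 + 84 * E ^ 3) := by nlinarith
    have h90 : 0 ≤ ∑ n ∈ Ioc a (a * b), ff χ n * (n : ℝ) ^ (-1 : ℝ) :=
      sum_nonneg fun n _ => mul_nonneg (ff_nonneg hχ2 n) (Real.rpow_nonneg (Nat.cast_nonneg n) _)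
    calc M * P ≤ Real.log ((a * b : ℕ) : ℝ) * ∑ n ∈ Ioc a (a * b), ff χ n * (n : ℝ) ^ (-1 : ℝ) := h1
      _ ≤ (2 * Real.log b) * (Real.log b * (Lr χ 1 + 84 * E ^ 3)) :=
          mul_le_mul h5 h9 h90 (by positivity)
      _ = _ := by ring
  -- the lower bounds
  have hM1 : 1 ≤ M := by
    have h1 : ff χ 1 * ((1 : ℕ) : ℝ) ^ (-1 : ℝ) ≤ M :=
      single_le_sum (f := fun n : ℕ => ff χ n * (n : ℝ) ^ (-1 : ℝ))
        (fun n _ => mul_nonneg (ff_nonneg hχ2 n) (Real.rpow_nonneg (Nat.cast_nonneg n) _))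
        (mem_Icc.2 ⟨le_rfl, by omega⟩)
    rw [ff_one, Nat.cast_one, Real.one_rpow, mul_one] at h1
    exact h1
  have hM2 : (Lr χ 1 - 18 * E) / (1 - β) ≤ M := by
    have h1 := low hχ hβ hβ1 hz (by omega : 1 ≤ a)
    have h2 : (a : ℝ) ^ (1 - β) * M ≥ ∑ n ∈ Icc 1 a, ff χ n * (n : ℝ) ^ (-β) := by
      rw [hM, mul_sum]
      refine sum_le_sum fun n hn => ?_
      obtain ⟨hn1, hn2⟩ := mem_Icc.1 hn
      have hn0 : (0 : ℝ) < n := by exact_mod_cast hn1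
      have h3 : (n : ℝ) ^ (-β) = (n : ℝ) ^ (1 - β) * (n : ℝ) ^ (-1 : ℝ) := by
        rw [← Real.rpow_add hn0]
        congr 1
        ring
      rw [h3]
      have h4 : (n : ℝ) ^ (1 - β) ≤ (a : ℝ) ^ (1 - β) :=
        Real.rpow_le_rpow hn0.le (by exact_mod_cast hn2) h1β.le
      have h5 : 0 ≤ ff χ n * (n : ℝ) ^ (-1 : ℝ) :=
        mul_nonneg (ff_nonneg hχ2 n) (Real.rpow_nonneg hn0.le _)
      nlinarith
    have h6 : 0 < (a : ℝ) ^ (1 - β) := Real.rpow_pos_of_pos ha0 _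
    have h7 : (a : ℝ) ^ (1 - β) * ((Lr χ 1 - 18 * q * (a : ℝ) ^ (-(1 / 4) : ℝ)) / (1 - β)) ≤
        (a : ℝ) ^ (1 - β) * M := by
      refine le_trans (le_of_eq ?_) (h1.trans h2)
      ring
    have h8 := le_of_mul_le_mul_left h7 h6
    refine le_trans ?_ h8
    apply div_le_div_of_nonneg_right _ h1β.le
    have h9 : (q : ℝ) * (a : ℝ) ^ (-(1 / 4) : ℝ) ≤ E := by
      calc (q : ℝ) * (a : ℝ) ^ (-(1 / 4) : ℝ) ≤ (a : ℝ) ^ (1 / 8 : ℝ) * (a : ℝ) ^ (-(1 / 4) : ℝ) :=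
            mul_le_mul_of_nonneg_right hq8 (Real.rpow_nonneg ha0.le _)
        _ = E := by
            rw [← Real.rpow_add ha0, hE]
            norm_num
    nlinarith
  have hlb2 : 0 < Real.log b ^ 2 := by positivity
  have hE3 : E ^ 3 ≤ E := by nlinarith [mul_nonneg hE0.le hE0.le]
  rcases le_or_gt (36 * E) (Lr χ 1) with h | h
  · -- a large value
    have hL0 : 0 < Lr χ 1 := by linarith
    have h1 : Lr χ 1 / 2 / (1 - β) ≤ M := by
      refine le_trans ?_ hM2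
      apply div_le_div_of_nonneg_right _ h1β.le
      linarith
    have h2 : Lr χ 1 / 2 / (1 - β) * P ≤ 2 * Real.log b ^ 2 * (Lr χ 1 + 84 * E ^ 3) :=
      (mul_le_mul_of_nonneg_right h1 hP0).trans hD
    have h3 : Lr χ 1 + 84 * E ^ 3 ≤ 4 * Lr χ 1 := by linarith
    have h4 : Lr χ 1 / 2 / (1 - β) * P ≤ 8 * Real.log b ^ 2 * Lr χ 1 := by
      refine h2.trans ?_
      nlinarith
    have h5 : P ≤ 16 * Real.log b ^ 2 * (1 - β) := by
      have h6 : Lr χ 1 / 2 / (1 - β) * P ≤ Lr χ 1 / 2 / (1 - β) *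
          (16 * Real.log b ^ 2 * (1 - β)) := by
        refine h4.trans (le_of_eq ?_)
        field_simp
        ring
      exact le_of_mul_le_mul_left h6 (by positivity)
    refine h5.trans ?_
    nlinarith [mul_nonneg hlb2.le hE0.le, mul_nonneg hlb2.le h1β.le]
  · have h1 : P ≤ M * P := by nlinarith
    have h2 : P ≤ 2 * Real.log b ^ 2 * (120 * E) := by
      refine h1.trans (hD.trans ?_)
      apply mul_le_mul_of_nonneg_left _ (by positivity)
      linarith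
    refine h2.trans ?_
    nlinarith [mul_nonneg hlb2.le hE0.le, mul_nonneg hlb2.le h1β.le]

end Pool.Agent.DHP

/-! ## Block A4 (helper26) -/

namespace Pool.Agent.DH

open Finset Pool.Agent.GA

theorem A4_pr : A4 := by
  refine ⟨400, 1 / 8, by norm_num, by norm_num, fun q₁ χ β hq hχ h2 hβ hβ1 hz a b ha hqa hab => ?_⟩
  haveI : NeZero q₁ := ⟨by omega⟩
  have hχ1 : χ ≠ 1 := (mem_Prm.1 hχ).2
  have hz' : DHP.Lr χ β = 0 := by
    unfold DHP.Lr
    rw [hz]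
    rfl
  have h := DHP.primes_rare hχ1 h2 (by linarith) hβ1 hz' ha hqa hab
  have h' : ∑ p ∈ (Ioc a b).filter Nat.Prime, (1 + cr χ p) * (Real.log p / p) ≤
      240 * Real.log b ^ 2 * ((1 - β) + (a : ℝ) ^ (-(1 / 8) : ℝ)) := h
  refine h'.trans ?_
  have haR : (2 : ℝ) ≤ a := by exact_mod_cast ha
  have habR : (a : ℝ) ≤ b := by exact_mod_cast hab
  have hlog2 : (0.69 : ℝ) ≤ Real.log 2 := by linarith [Real.log_two_gt_d9]
  have hla : Real.log 2 ≤ Real.log a := Real.log_le_log (by norm_num) haR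
  have hla0 : 0 < Real.log a := by linarith
  have hlab : Real.log a ≤ Real.log b := Real.log_le_log (by linarith) habR
  have hlb : 0.69 ≤ Real.log b := by linarith
  have hE0 : 0 ≤ (a : ℝ) ^ (-(1 / 8) : ℝ) := Real.rpow_nonneg (by linarith) _
  have h1β : 0 < 1 - β := by linarith
  have h3 : 1 ≤ (Real.log b / Real.log a) ^ 2 := by
    apply one_le_pow₀
    rwa [le_div_iff₀ hla0, one_mul]
  have h4 : 240 * ((1 - β) * Real.log b ^ 2) ≤
      400 * (Real.log b / Real.log a) ^ 2 * ((1 - β) * Real.log b ^ 2) := by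
    apply mul_le_mul_of_nonneg_right _ (by positivity)
    linarith
  have h5 : 240 * Real.log b ^ 2 * (a : ℝ) ^ (-(1 / 8) : ℝ) ≤
      400 * Real.log b ^ 3 * (a : ℝ) ^ (-(1 / 8) : ℝ) := by
    apply mul_le_mul_of_nonneg_right _ hE0
    have : 0 ≤ Real.log b ^ 2 := by positivity
    nlinarith
  have h6 : 240 * Real.log b ^ 2 * ((1 - β) + (a : ℝ) ^ (-(1 / 8) : ℝ)) =
      240 * ((1 - β) * Real.log b ^ 2) + 240 * Real.log b ^ 2 * (a : ℝ) ^ (-(1 / 8) : ℝ) := by ring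
  rw [h6]
  linarith

end Pool.Agent.DH

/-! ## Block A5 (helper55) -/

namespace Pool.Agent.DH

open Finset Complex Metric Pool.Agent.GA
open scoped ArithmeticFunction.vonMangoldt Classical

theorem a5_log {δ : ℝ} {K : ℕ} (hδ : 0 < δ) (hδ1 : δ ≤ 1 / 600) (hK : 1 ≤ K) :
    wa δ K ≤ wb δ K ∧ K / (200 * δ) ≤ Real.log (wa δ K) ∧ Real.log (wb δ K) ≤ 40 * K / δ ∧
      0 < Real.log (wa δ K) ∧ 0 ≤ Real.log (wb δ K) := by
  have hK' : (1 : ℝ) ≤ K := by exact_mod_cast hK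
  have hx : 6 ≤ (K : ℝ) / (100 * δ) := by
    rw [le_div_iff₀ (by positivity)]
    nlinarith
  have hxy : (K : ℝ) / (100 * δ) ≤ 40 * K / δ := by
    rw [div_le_div_iff₀ (by positivity) hδ]
    have : 0 < (K : ℝ) * δ := by positivity
    nlinarith
  have hab : wa δ K ≤ wb δ K := Nat.floor_le_floor (Real.exp_le_exp.2 hxy)
  have he : Real.exp (K / (100 * δ)) / 2 ≤ (wa δ K : ℝ) := by
    have h1 := Nat.lt_floor_add_one (Real.exp ((K : ℝ) / (100 * δ)))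
    have h2 : (2 : ℝ) ≤ Real.exp (K / (100 * δ)) := by
      have := Real.add_one_le_exp ((K : ℝ) / (100 * δ))
      linarith
    unfold wa
    linarith
  have h0 : 0 < Real.exp ((K : ℝ) / (100 * δ)) / 2 := by positivity
  have h3 : (K : ℝ) / (100 * δ) - Real.log 2 ≤ Real.log (wa δ K) := by
    have := Real.log_le_log h0 he
    rwa [Real.log_div (Real.exp_pos _).ne' two_ne_zero, Real.log_exp] at this
  have h4 : Real.log 2 < 1 := by
    have := Real.log_two_lt_d9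
    linarith
  have h5 : (K : ℝ) / (200 * δ) = K / (100 * δ) / 2 := by
    field_simp
    ring
  have h6 : (K : ℝ) / (200 * δ) ≤ Real.log (wa δ K) := by
    rw [h5]; linarith
  have h7 : (wb δ K : ℝ) ≤ Real.exp (40 * K / δ) := Nat.floor_le (Real.exp_pos _).le
  have ha : (0 : ℝ) < wa δ K := lt_of_lt_of_le h0 he
  have hb : (0 : ℝ) < wb δ K := by
    have : (wa δ K : ℝ) ≤ wb δ K := by exact_mod_cast hab
    linarith
  refine ⟨hab, h6, ?_, lt_of_lt_of_le (by positivity) h6, ?_⟩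
  · have := Real.log_le_log hb h7
    rwa [Real.log_exp] at this
  · apply Real.log_nonneg
    have : 0 < wb δ K := by exact_mod_cast hb
    exact_mod_cast this

theorem a5_num {C₀ c₀ : ℝ} (hC : 1 ≤ C₀) (hc : 0 < c₀) {D K a b : ℕ} {δ e : ℝ} (hD : 2 ≤ D)
    (hδ : 1 / (8 * Real.log D) ≤ δ) (hδ0 : 0 < δ) (hK : 1 ≤ K) (he : 0 ≤ e) (hDa : D ^ 8 ≤ a)
    (hla : K / (200 * δ) ≤ Real.log a) (hlb : Real.log b ≤ 40 * K / δ) (hla0 : 0 < Real.log a)
    (hlb0 : 0 ≤ Real.log b) {S : ℝ} (hS : S ≤ C₀ * (Real.log b / Real.log a) ^ 2 *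
      (e * Real.log b ^ 2) + C₀ * Real.log b ^ 3 * (a : ℝ) ^ (-c₀)) :
    δ * (2 * S) ≤ (8 * (C₀ * (2000000000000 + 8192000 * (4 / c₀ ^ 2)))) ^ K *
      (e * Real.log D + (D : ℝ) ^ (-(7 * c₀))) := by
  have hD' : (2 : ℝ) ≤ D := by exact_mod_cast hD
  have hK' : (1 : ℝ) ≤ K := by exact_mod_cast hK
  have hL : 0 < Real.log D := Real.log_pos (by linarith)
  have hδL : 1 / δ ≤ 8 * Real.log D := by
    rw [div_le_iff₀ hδ0]
    rw [div_le_iff₀ (by positivity)] at hδ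
    linarith
  have hr : Real.log b / Real.log a ≤ 8000 := by
    rw [div_le_iff₀ hla0]
    have : 40 * (K : ℝ) / δ = 8000 * (K / (200 * δ)) := by
      field_simp
      ring
    linarith
  have hr0 : 0 ≤ Real.log b / Real.log a := div_nonneg hlb0 hla0.le
  have ha : ((D : ℝ) ^ 8) ≤ a := by exact_mod_cast hDa
  have haD : (a : ℝ) ^ (-c₀) ≤ (D : ℝ) ^ (-(8 * c₀)) := by
    have h1 : ((D : ℝ) ^ (8 : ℕ)) ^ (-c₀) = (D : ℝ) ^ (-(8 * c₀)) := by
      rw [← Real.rpow_natCast, ← Real.rpow_mul (by linarith)]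
      congr 1
      push_cast
      ring
    rw [← h1]
    exact Real.rpow_le_rpow_of_nonpos (by positivity) ha (by linarith)
  have hlog : Real.log D ^ 2 * (D : ℝ) ^ (-(8 * c₀)) ≤ 4 / c₀ ^ 2 * (D : ℝ) ^ (-(7 * c₀)) := by
    have h1 : Real.log D ≤ (D : ℝ) ^ (c₀ / 2) / (c₀ / 2) :=
      Real.log_le_rpow_div (by linarith) (by positivity)
    have h2 : Real.log D ^ 2 ≤ ((D : ℝ) ^ (c₀ / 2) / (c₀ / 2)) ^ 2 :=
      pow_le_pow_left₀ hL.le h1 2
    have h3 : ((D : ℝ) ^ (c₀ / 2) / (c₀ / 2)) ^ 2 = 4 / c₀ ^ 2 * (D : ℝ) ^ c₀ := by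
      rw [div_pow, ← Real.rpow_natCast, ← Real.rpow_mul (by linarith)]
      have : c₀ / 2 * ((2 : ℕ) : ℝ) = c₀ := by push_cast; ring
      rw [this]
      field_simp
      ring
    rw [h3] at h2
    have h4 : (D : ℝ) ^ c₀ * (D : ℝ) ^ (-(8 * c₀)) = (D : ℝ) ^ (-(7 * c₀)) := by
      rw [← Real.rpow_add (by linarith)]
      congr 1
      ring
    calc Real.log D ^ 2 * (D : ℝ) ^ (-(8 * c₀))
        ≤ (4 / c₀ ^ 2 * (D : ℝ) ^ c₀) * (D : ℝ) ^ (-(8 * c₀)) :=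
          mul_le_mul_of_nonneg_right h2 (by positivity)
      _ = 4 / c₀ ^ 2 * ((D : ℝ) ^ c₀ * (D : ℝ) ^ (-(8 * c₀))) := by ring
      _ = _ := by rw [h4]
  -- first term
  have t1 : δ * (2 * (C₀ * (Real.log b / Real.log a) ^ 2 * (e * Real.log b ^ 2))) ≤
      C₀ * 2000000000000 * K ^ 3 * (e * Real.log D) := by
    have h1 : (Real.log b / Real.log a) ^ 2 ≤ 8000 ^ 2 := pow_le_pow_left₀ hr0 hr 2
    have h2 : Real.log b ^ 2 ≤ (40 * K / δ) ^ 2 := pow_le_pow_left₀ hlb0 hlb 2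
    have h3 : (K : ℝ) ^ 2 ≤ K ^ 3 := pow_le_pow_right₀ hK' (by norm_num)
    calc δ * (2 * (C₀ * (Real.log b / Real.log a) ^ 2 * (e * Real.log b ^ 2)))
        ≤ δ * (2 * (C₀ * 8000 ^ 2 * (e * (40 * K / δ) ^ 2))) := by gcongr
      _ = C₀ * (2 * 8000 ^ 2 * 1600) * (K : ℝ) ^ 2 * e * (1 / δ) := by
          field_simp
          ring
      _ ≤ C₀ * (2 * 8000 ^ 2 * 1600) * (K : ℝ) ^ 3 * e * (8 * Real.log D) := by gcongr
      _ = C₀ * 1638400000000 * K ^ 3 * (e * Real.log D) := by ring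
      _ ≤ _ := by gcongr; norm_num
  have t2 : δ * (2 * (C₀ * Real.log b ^ 3 * (a : ℝ) ^ (-c₀))) ≤
      C₀ * (8192000 * (4 / c₀ ^ 2)) * K ^ 3 * (D : ℝ) ^ (-(7 * c₀)) := by
    have h2 : Real.log b ^ 3 ≤ (40 * K / δ) ^ 3 := pow_le_pow_left₀ hlb0 hlb 3
    have h4 : (1 / δ) ^ 2 ≤ (8 * Real.log D) ^ 2 := pow_le_pow_left₀ (by positivity) hδL 2
    calc δ * (2 * (C₀ * Real.log b ^ 3 * (a : ℝ) ^ (-c₀)))
        ≤ δ * (2 * (C₀ * (40 * K / δ) ^ 3 * (D : ℝ) ^ (-(8 * c₀)))) := by gcongr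
      _ = C₀ * (2 * 40 ^ 3) * K ^ 3 * (D : ℝ) ^ (-(8 * c₀)) * (1 / δ) ^ 2 := by
          field_simp
      _ ≤ C₀ * (2 * 40 ^ 3) * K ^ 3 * (D : ℝ) ^ (-(8 * c₀)) * (8 * Real.log D) ^ 2 := by gcongr
      _ = C₀ * 8192000 * K ^ 3 * (Real.log D ^ 2 * (D : ℝ) ^ (-(8 * c₀))) := by ring
      _ ≤ C₀ * 8192000 * K ^ 3 * (4 / c₀ ^ 2 * (D : ℝ) ^ (-(7 * c₀))) := by gcongr
      _ = _ := by ring
  have hX : 0 ≤ e * Real.log D := by positivity
  have hY : 0 ≤ (D : ℝ) ^ (-(7 * c₀)) := by positivity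
  set A : ℝ := C₀ * (2000000000000 + 8192000 * (4 / c₀ ^ 2)) with hA
  have hc2 : 0 ≤ 4 / c₀ ^ 2 := by positivity
  have hA1 : 1 ≤ A := by
    rw [hA]
    nlinarith
  have hpow : A * (K : ℝ) ^ 3 ≤ (8 * A) ^ K := by
    have h1 : (K : ℝ) ≤ 2 ^ K := by
      exact_mod_cast (Nat.lt_two_pow_self (n := K)).le
    have h2 : (K : ℝ) ^ 3 ≤ 8 ^ K := by
      calc (K : ℝ) ^ 3 ≤ (2 ^ K) ^ 3 := pow_le_pow_left₀ (by linarith) h1 3
        _ = 8 ^ K := by rw [← pow_mul, mul_comm, pow_mul]; norm_num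
    have h3 : A ≤ A ^ K := le_self_pow₀ hA1 (by omega)
    calc A * (K : ℝ) ^ 3 ≤ A ^ K * 8 ^ K := by gcongr
      _ = (8 * A) ^ K := by rw [mul_comm, ← mul_pow]
  calc δ * (2 * S)
      ≤ δ * (2 * (C₀ * (Real.log b / Real.log a) ^ 2 *
      (e * Real.log b ^ 2) + C₀ * Real.log b ^ 3 * (a : ℝ) ^ (-c₀))) := by gcongr
    _ = δ * (2 * (C₀ * (Real.log b / Real.log a) ^ 2 * (e * Real.log b ^ 2))) +
        δ * (2 * (C₀ * Real.log b ^ 3 * (a : ℝ) ^ (-c₀))) := by ring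
    _ ≤ C₀ * 2000000000000 * K ^ 3 * (e * Real.log D) +
        C₀ * (8192000 * (4 / c₀ ^ 2)) * K ^ 3 * (D : ℝ) ^ (-(7 * c₀)) := add_le_add t1 t2
    _ ≤ A * K ^ 3 * (e * Real.log D) + A * K ^ 3 * (D : ℝ) ^ (-(7 * c₀)) := by
        have hK3 : (0 : ℝ) ≤ (K : ℝ) ^ 3 := by positivity
        have g1 : C₀ * 2000000000000 ≤ A := by
          rw [hA]
          nlinarith
        have g2 : C₀ * (8192000 * (4 / c₀ ^ 2)) ≤ A := by
          rw [hA]
          nlinarith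
        gcongr
    _ = A * K ^ 3 * (e * Real.log D + (D : ℝ) ^ (-(7 * c₀))) := by ring
    _ ≤ (8 * A) ^ K * (e * Real.log D + (D : ℝ) ^ (-(7 * c₀))) := by gcongr

theorem a5_sum {q₁ : ℕ} (χ : DirichletCharacter ℂ q₁) {δ : ℝ} (hδ : 0 < δ) (a b : ℕ)
    (h : ∀ n : ℕ, |cr χ n| ≤ 1) :
    ∑ p ∈ (Ioc a b).filter Nat.Prime, (1 + cr χ p) ^ 2 * (Real.log p * (p : ℝ) ^ (-(1 + δ))) ≤
      2 * ∑ p ∈ (Ioc a b).filter Nat.Prime, (1 + cr χ p) * (Real.log p / p) := by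
  rw [Finset.mul_sum]
  refine Finset.sum_le_sum fun p hp => ?_
  have hp1 : (1 : ℝ) ≤ p := by
    have := (Finset.mem_filter.1 hp).2.one_le
    exact_mod_cast this
  have h1 := abs_le.1 (h p)
  have h2 : 0 ≤ 1 + cr χ p := by linarith
  have h3 : (1 + cr χ p) ^ 2 ≤ 2 * (1 + cr χ p) := by nlinarith
  have h4 : (p : ℝ) ^ (-(1 + δ)) ≤ 1 / p := by
    have h5 : (p : ℝ) ^ (-(1 + δ)) ≤ (p : ℝ) ^ (-1 : ℝ) :=
      Real.rpow_le_rpow_of_exponent_le hp1 (by linarith)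
    rwa [Real.rpow_neg_one, ← one_div] at h5
  have h5 : 0 ≤ Real.log p := Real.log_nonneg hp1
  calc (1 + cr χ p) ^ 2 * (Real.log p * (p : ℝ) ^ (-(1 + δ)))
      ≤ 2 * (1 + cr χ p) * (Real.log p * (1 / p)) := by gcongr
    _ = 2 * ((1 + cr χ p) * (Real.log p / p)) := by ring

theorem A5_pr (hA1 : A1) (hA4 : A4) : A5 := by
  obtain ⟨C₀, c₀, hC, hc, H⟩ := hA4
  have hc2 : 0 ≤ 4 / c₀ ^ 2 := by positivity
  refine ⟨8 * (C₀ * (2000000000000 + 8192000 * (4 / c₀ ^ 2))), 7 * c₀, ?_, by positivity, ?_⟩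
  · nlinarith
  intro D q₁ χ β hE δ K hδ hδ1 hK hDa
  have hD' : (2 : ℝ) ≤ D := by exact_mod_cast hE.hD
  have hL : 0 < Real.log D := Real.log_pos (by linarith)
  have hδ0 : 0 < δ := lt_of_lt_of_le (by positivity) hδ
  obtain ⟨hab, h1, h2, h3, h4⟩ := a5_log hδ0 hδ1 hK
  have hqa : q₁ ^ 8 ≤ wa δ K := (Nat.pow_le_pow_left hE.hqD 8).trans hDa
  have h2a : 2 ≤ wa δ K := by
    have : 2 ^ 8 ≤ D ^ 8 := Nat.pow_le_pow_left hE.hD 8
    omega
  have h5 := H q₁ χ β hE.hq hE.hχ hE.h2 hE.hβ hE.hβ1 hE.hz (wa δ K) (wb δ K) h2a hqa hab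
  have h6 := a5_sum χ hδ0 (wa δ K) (wb δ K) (fun n => ((hA1 q₁ χ hE.hq hE.h2).1 n).2)
  have h7 := a5_num hC hc hE.hD hδ hδ0 hK (by linarith [hE.hβ1] : (0 : ℝ) ≤ 1 - β) hDa h1 h2 h3 h4 h5
  exact (mul_le_mul_of_nonneg_left h6 hδ0.le).trans h7

end Pool.Agent.DH
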