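import Pool.Agent.Lib_helper59.DH.W
import Pool.Agent.Lib_helper98.GAF.Ldz
import Pool.Agent.Lib_helper98.GAF.Z2

/-!
# DH: blocks C1, C2, C3, C5, C6 of dhr_block
-/

set_option autoImplicit false

/-! ## Block C1 (helper61) -/

namespace Pool.Agent.DH

open Finset Complex Metric Pool.Agent.GA
open scoped Classical

theorem c1_mlt_zero {f : ℂ → ℂ} (hf : Differentiable ℂ f) {ρ : ℂ} (h : f ρ ≠ 0) :
    mlt f ρ = 0 := by
  unfold mlt analyticOrderNatAt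
  rw [(hf.analyticAt ρ).analyticOrderAt_eq_zero.2 h]
  simp

theorem c1_mlt_mul {f₁ f₂ : ℂ → ℂ} (h₁ : Differentiable ℂ f₁) (h₂ : Differentiable ℂ f₂) {c0 : ℂ}
    (n₁ : f₁ c0 ≠ 0) (n₂ : f₂ c0 ≠ 0) (ρ : ℂ) :
    mlt (fun s => f₁ s * f₂ s) ρ = mlt f₁ ρ + mlt f₂ ρ := by
  unfold mlt
  have e : analyticOrderNatAt (f₁ * f₂) ρ = analyticOrderNatAt f₁ ρ + analyticOrderNatAt f₂ ρ :=
    analyticOrderNatAt_mul (h₁.analyticAt ρ) (h₂.analyticAt ρ) (order_ne_top h₁ n₁ ρ)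
      (order_ne_top h₂ n₂ ρ)
  change ((analyticOrderNatAt (f₁ * f₂) ρ : ℕ) : ℝ) = _
  rw [e]
  push_cast
  rfl

/-- a sum over a set of zeros of the product -/
theorem c1_sum {M : Type} [AddCommMonoid M] {f₁ f₂ : ℂ → ℂ} (h₁ : Differentiable ℂ f₁)
    (h₂ : Differentiable ℂ f₂) {c0 : ℂ} (n₁ : f₁ c0 ≠ 0) (n₂ : f₂ c0 ≠ 0) {P : ℂ → Prop}
    {S S₁ S₂ : Finset ℂ} (hS : ∀ ρ, ρ ∈ S ↔ f₁ ρ * f₂ ρ = 0 ∧ P ρ)
    (hS₁ : ∀ ρ, ρ ∈ S₁ ↔ f₁ ρ = 0 ∧ P ρ) (hS₂ : ∀ ρ, ρ ∈ S₂ ↔ f₂ ρ = 0 ∧ P ρ)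
    (g : ℂ → ℝ → M) (g0 : ∀ ρ, g ρ 0 = 0) (ga : ∀ ρ x y, g ρ (x + y) = g ρ x + g ρ y) :
    ∑ ρ ∈ S, g ρ (mlt (fun s => f₁ s * f₂ s) ρ) =
      ∑ ρ ∈ S₁, g ρ (mlt f₁ ρ) + ∑ ρ ∈ S₂, g ρ (mlt f₂ ρ) := by
  have s1 : S₁ ⊆ S := fun ρ h => by
    rw [hS₁] at h; rw [hS]; exact ⟨by rw [h.1, zero_mul], h.2⟩
  have s2 : S₂ ⊆ S := fun ρ h => by
    rw [hS₂] at h; rw [hS]; exact ⟨by rw [h.1, mul_zero], h.2⟩
  rw [Finset.sum_subset s1 (f := fun ρ => g ρ (mlt f₁ ρ)), Finset.sum_subset s2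
    (f := fun ρ => g ρ (mlt f₂ ρ)), ← Finset.sum_add_distrib]
  · refine Finset.sum_congr rfl fun ρ _ => ?_
    rw [c1_mlt_mul h₁ h₂ n₁ n₂, ga]
  · intro ρ h h'
    rw [hS] at h; rw [hS₂] at h'
    rw [c1_mlt_zero h₂ fun e => h' ⟨e, h.2⟩, g0]
  · intro ρ h h'
    rw [hS] at h; rw [hS₁] at h'
    rw [c1_mlt_zero h₁ fun e => h' ⟨e, h.2⟩, g0]

theorem C1_pr : C1 := by
  intro f₁ f₂ h₁ h₂ n₁ n₂
  have hd : Differentiable ℂ (fun s => f₁ s * f₂ s) := h₁.mul h₂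
  have hn : ∀ s : ℂ, 1 ≤ s.re → f₁ s * f₂ s ≠ 0 := fun s hs => mul_ne_zero (n₁ s hs) (n₂ s hs)
  have k₁ : f₁ 1 ≠ 0 := n₁ 1 (by simp)
  have k₂ : f₂ 1 ≠ 0 := n₂ 1 (by simp)
  have k : f₁ 1 * f₂ 1 ≠ 0 := mul_ne_zero k₁ k₂
  -- the real sum over `zb`
  have hzb : ∀ (c : ℂ) (R : ℝ), ∑ ρ ∈ zb (fun s => f₁ s * f₂ s) c R,
      mlt (fun s => f₁ s * f₂ s) ρ = ∑ ρ ∈ zb f₁ c R, mlt f₁ ρ + ∑ ρ ∈ zb f₂ c R, mlt f₂ ρ :=
    fun c R => c1_sum h₁ h₂ k₁ k₂ (P := fun ρ => ρ ∈ closedBall c R)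
      (fun ρ => mem_zb hd k c R ρ) (fun ρ => mem_zb h₁ k₁ c R ρ) (fun ρ => mem_zb h₂ k₂ c R ρ)
      (fun _ x => x) (fun _ => rfl) (fun _ _ _ => rfl)
  refine ⟨fun G₁ G₂ C₁ C₂ ℒ t a b => ⟨hd, hn, a.one_le, fun σ hσ hσ1 j => ?_,
    fun σ hσ hσ1 => ?_, fun r hr hr1 => ?_⟩, fun a T => ?_⟩
  · have e := c1_sum h₁ h₂ k₁ k₂ (P := fun ρ => ρ ∈ closedBall (1 + σ + t * I : ℂ) (1 / 4))
      (fun ρ => mem_zb hd k _ _ ρ) (fun ρ => mem_zb h₁ k₁ _ _ ρ) (fun ρ => mem_zb h₂ k₂ _ _ ρ)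
      (fun ρ x => (x : ℂ) / (1 + σ + t * I - ρ) ^ (j + 1)) (fun _ => by simp)
      (fun _ x y => by push_cast; ring)
    rw [e]
    have e1 := a.expa σ hσ hσ1 j
    have e2 := b.expa σ hσ hσ1 j
    refine le_trans ?_ ((add_le_add e1 e2).trans (le_of_eq (by ring)))
    refine le_trans (le_of_eq ?_) (norm_add_le _ _)
    congr 1
    ring
  · rw [hzb]
    exact (add_le_add (a.cnt σ hσ hσ1) (b.cnt σ hσ hσ1)).trans (le_of_eq (by ring))
  · rw [hzb]
    exact (add_le_add (a.near r hr hr1) (b.near r hr hr1)).trans (le_of_eq (by ring))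
  · unfold nz
    exact c1_sum h₁ h₂ k₁ k₂ (P := fun ρ => 1 - a ≤ ρ.re ∧ ρ.re ≤ 1 ∧ |ρ.im| ≤ T)
      (fun ρ => mem_zr hd k a T ρ) (fun ρ => mem_zr h₁ k₁ a T ρ) (fun ρ => mem_zr h₂ k₂ a T ρ)
      (fun _ x => x) (fun _ => rfl) (fun _ _ _ => rfl)

end Pool.Agent.DH

/-! ## Block C2 (helper63) -/

namespace Pool.Agent.DH

open Finset Complex Metric Pool.Agent.GA
open scoped Classical

theorem c2h_mlt_sub (β ρ : ℂ) : mlt (fun s => s - β) ρ = if ρ = β then 1 else 0 := by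
  have hd : Differentiable ℂ (fun s : ℂ => s - β) := by fun_prop
  split_ifs with h
  · subst h
    have : analyticOrderNatAt (fun s => s - ρ) ρ = 1 := by
      have h1 : analyticOrderAt (fun s => s - ρ) ρ = 1 := by
        have h2 : ((1 : ℕ) : ℕ∞) = 1 := rfl
        rw [← h2, (hd.analyticAt ρ).analyticOrderAt_eq_natCast]
        refine ⟨fun _ => 1, analyticAt_const, one_ne_zero, Filter.Eventually.of_forall fun z => ?_⟩
        simp
      unfold analyticOrderNatAt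
      rw [h1]
      rfl
    unfold mlt
    rw [this]
    norm_num
  · exact c1_mlt_zero hd (sub_ne_zero.2 h)

theorem C2_pr : C2 := by
  intro f β hf hne hβ hz
  set b : ℂ := (β : ℂ) with hb
  set g : ℂ → ℂ := dslope f b with hg
  have hgd : Differentiable ℂ g := by
    have h1 : DifferentiableOn ℂ g Set.univ :=
      (Complex.differentiableOn_dslope Filter.univ_mem).2 hf.differentiableOn
    exact differentiableOn_univ.1 h1
  have hsub : Differentiable ℂ (fun s : ℂ => s - b) := by fun_prop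
  have hfg : f = fun s => (s - b) * g s := by
    funext s
    have h1 := sub_smul_dslope f b s
    rw [smul_eq_mul, hz, sub_zero] at h1
    exact h1.symm
  have hgne : ∀ s : ℂ, 1 ≤ s.re → g s ≠ 0 := by
    intro s hs h0
    apply hne s hs
    rw [hfg]
    simp only
    rw [h0, mul_zero]
  have hb1 : (1 : ℂ) - b ≠ 0 := by
    rw [hb, ← Complex.ofReal_one, ← Complex.ofReal_sub, Complex.ofReal_ne_zero]
    linarith
  have n₂ : g 1 ≠ 0 := hgne 1 (by simp)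
  have n : f 1 ≠ 0 := hne 1 (by simp)
  have hm : ∀ ρ, mlt g ρ = mlt f ρ - if ρ = b then 1 else 0 := by
    intro ρ
    have h1 := c1_mlt_mul hsub hgd hb1 n₂ ρ
    rw [← hfg, c2h_mlt_sub] at h1
    linarith
  have hmle : ∀ ρ, mlt g ρ ≤ mlt f ρ := by
    intro ρ
    rw [hm]
    split_ifs <;> linarith
  have hzero : ∀ ρ, g ρ = 0 → f ρ = 0 := by
    intro ρ h
    rw [hfg]
    simp only
    rw [h, mul_zero]
  -- the sums over the zeros in a ball
  have hcnt : ∀ (c : ℂ) (R : ℝ), ∑ ρ ∈ zb g c R, mlt g ρ ≤ ∑ ρ ∈ zb f c R, mlt f ρ := by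
    intro c R
    calc ∑ ρ ∈ zb g c R, mlt g ρ ≤ ∑ ρ ∈ zb g c R, mlt f ρ :=
          Finset.sum_le_sum fun ρ _ => hmle ρ
      _ ≤ _ := Finset.sum_le_sum_of_subset_of_nonneg (fun ρ hρ => by
          rw [mem_zb hgd n₂] at hρ
          rw [mem_zb hf n]
          exact ⟨hzero ρ hρ.1, hρ.2⟩) fun ρ _ _ => mlt_nonneg _ ρ
  refine ⟨hgd, hgne, hm, fun a T => ?_, fun G C ℒ t hC h => ⟨hgd, hgne, h.one_le,
    fun σ hσ hσ1 j => ?_, fun σ hσ hσ1 => ?_, fun r hr hr1 => ?_⟩⟩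
  · unfold nz
    calc ∑ ρ ∈ zr g a T, mlt g ρ ≤ ∑ ρ ∈ zr g a T, mlt f ρ :=
          Finset.sum_le_sum fun ρ _ => hmle ρ
      _ ≤ _ := Finset.sum_le_sum_of_subset_of_nonneg (fun ρ hρ => by
          rw [mem_zr hgd n₂] at hρ
          rw [mem_zr hf n]
          exact ⟨hzero ρ hρ.1, hρ.2⟩) fun ρ _ _ => mlt_nonneg _ ρ
  · set c : ℂ := 1 + σ + t * I with hc
    have hℒ := h.one_le
    have hσ0 : 0 < σ := (Real.exp_pos _).trans_le hσ
    have hS₁ : ∀ ρ : ℂ, ρ ∈ ({b} : Finset ℂ).filter (fun ρ => ρ ∈ closedBall c (1 / 4)) ↔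
        ρ - b = 0 ∧ ρ ∈ closedBall c (1 / 4) := by
      intro ρ
      rw [Finset.mem_filter, Finset.mem_singleton, sub_eq_zero]
    have e := c1_sum hsub hgd hb1 n₂ (P := fun ρ => ρ ∈ closedBall c (1 / 4))
      (S := zb f c (1 / 4)) (S₁ := ({b} : Finset ℂ).filter (fun ρ => ρ ∈ closedBall c (1 / 4)))
      (S₂ := zb g c (1 / 4)) (fun ρ => by
        rw [mem_zb hf n]
        conv_lhs => rw [hfg]) hS₁ (fun ρ => mem_zb hgd n₂ _ _ ρ)
      (fun ρ x => (x : ℂ) / (c - ρ) ^ (j + 1)) (fun _ => by simp)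
      (fun _ x y => by push_cast; ring)
    rw [← hfg] at e
    have hexp := h.expa σ hσ hσ1 j
    rw [← hc] at hexp
    have hjf : (j.factorial : ℂ) ≠ 0 := by exact_mod_cast j.factorial_ne_zero
    have hcb : c - b ≠ 0 := by
      intro h0
      have := congrArg Complex.re h0
      rw [hc, hb, Complex.sub_re, c_re] at this
      simp at this
      linarith
    have e3 : (G j c + (j.factorial : ℂ) / (c - b) ^ (j + 1)) / (j.factorial : ℂ) =
        G j c / (j.factorial : ℂ) + 1 / (c - b) ^ (j + 1) := by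
      field_simp
    rw [e3]
    by_cases hB : b ∈ closedBall c (1 / 4)
    · rw [Finset.filter_singleton, if_pos hB, Finset.sum_singleton, c2h_mlt_sub, if_pos rfl] at e
      rw [e] at hexp
      have e4 : G j c / (j.factorial : ℂ) + 1 / (c - b) ^ (j + 1) +
          ∑ ρ ∈ zb g c (1 / 4), (mlt g ρ : ℂ) / (c - ρ) ^ (j + 1) =
          G j c / (j.factorial : ℂ) + (((1 : ℝ) : ℂ) / (c - b) ^ (j + 1) +
          ∑ ρ ∈ zb g c (1 / 4), (mlt g ρ : ℂ) / (c - ρ) ^ (j + 1)) := by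
        rw [Complex.ofReal_one]; ring
      rw [e4]
      refine hexp.trans ?_
      have : (0 : ℝ) ≤ ℒ * 16 ^ j := by positivity
      nlinarith
    · rw [Finset.filter_singleton, if_neg hB, Finset.sum_empty, zero_add] at e
      rw [e] at hexp
      have h1 : 1 / 4 < ‖c - b‖ := by
        rw [mem_closedBall, dist_eq_norm, not_le, norm_sub_rev] at hB
        exact hB
      have h2 : ‖1 / (c - b) ^ (j + 1)‖ ≤ 4 * 16 ^ j := by
        rw [norm_div, norm_one, norm_pow]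
        have h3 : (1 / 4 : ℝ) ^ (j + 1) ≤ ‖c - b‖ ^ (j + 1) :=
          pow_le_pow_left₀ (by norm_num) h1.le _
        calc 1 / ‖c - b‖ ^ (j + 1) ≤ 1 / (1 / 4 : ℝ) ^ (j + 1) :=
              one_div_le_one_div_of_le (by positivity) h3
          _ = 4 * 4 ^ j := by rw [one_div_pow, one_div_one_div, pow_succ]; ring
          _ ≤ 4 * 16 ^ j := by gcongr; norm_num
      have e4 : G j c / (j.factorial : ℂ) + 1 / (c - b) ^ (j + 1) +
          ∑ ρ ∈ zb g c (1 / 4), (mlt g ρ : ℂ) / (c - ρ) ^ (j + 1) =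
          (G j c / (j.factorial : ℂ) + ∑ ρ ∈ zb g c (1 / 4),
            (mlt g ρ : ℂ) / (c - ρ) ^ (j + 1)) + 1 / (c - b) ^ (j + 1) := by ring
      rw [e4]
      refine (norm_add_le _ _).trans ((add_le_add hexp h2).trans ?_)
      have : (0 : ℝ) < 16 ^ j := by positivity
      nlinarith
  · refine ((hcnt _ _).trans (h.cnt σ hσ hσ1)).trans ?_
    have := h.one_le
    nlinarith
  · refine ((hcnt _ _).trans (h.near r hr hr1)).trans ?_
    have h1 : 0 ≤ r * ℒ := by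
      have := h.one_le
      have h2 : 0 ≤ 1 / ℒ := by positivity
      have : 0 ≤ r := h2.trans hr
      positivity
    nlinarith

end Pool.Agent.DH

/-! ## Block C3 (helper5) -/

namespace Pool.Agent.DH

open Finset Complex Metric Pool.Agent.GA
open scoped ArithmeticFunction.vonMangoldt Classical

/-- a lower bound for `(s - 1) ζ(s)` on a compact set -/
theorem c3_lower : ∃ m : ℝ, 0 < m ∧ ∀ s : ℂ, 1 ≤ s.re → s.re ≤ 2 → |s.im| ≤ 1 →
    m ≤ ‖riemannZeta₁ s‖ := by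
  have hcpt : IsCompact ((Set.Icc (1 : ℝ) 2) ×ℂ (Set.Icc (-1 : ℝ) 1)) :=
    isCompact_Icc.reProdIm isCompact_Icc
  have hne : ((Set.Icc (1 : ℝ) 2) ×ℂ (Set.Icc (-1 : ℝ) 1)).Nonempty := by
    refine ⟨1, ?_⟩
    rw [Complex.mem_reProdIm]
    constructor <;> constructor <;> simp
  have hcont : Continuous fun s : ℂ => ‖riemannZeta₁ s‖ :=
    differentiable_riemannZeta₁.continuous.norm
  obtain ⟨s₀, hs₀, hmin⟩ := hcpt.exists_isMinOn hne hcont.continuousOn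
  rw [Complex.mem_reProdIm] at hs₀
  refine ⟨‖riemannZeta₁ s₀‖, norm_pos_iff.2 (Z1_ne hs₀.1.1), fun s h1 h2 h3 => ?_⟩
  have hs : s ∈ (Set.Icc (1 : ℝ) 2) ×ℂ (Set.Icc (-1 : ℝ) 1) := by
    rw [Complex.mem_reProdIm]
    exact ⟨⟨h1, h2⟩, abs_le.1 h3⟩
  exact hmin hs

/-- the growth in the ball of radius `3/4` at every height -/
theorem c3_bound : ∃ A : ℝ, 1 ≤ A ∧ ∀ t ℒ σ : ℝ, 1 ≤ ℒ → lt 1 t ≤ ℒ → Real.exp (-ℒ) ≤ σ →
    σ ≤ 1 / 16 → ∀ z ∈ closedBall (1 + σ + t * I : ℂ) (3 / 4),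
      ‖riemannZeta₁ z‖ ≤ A * Real.exp (3 * ℒ) * ‖riemannZeta₁ (1 + σ + t * I)‖ := by
  obtain ⟨C, hC, hg⟩ := Z1_growth
  obtain ⟨m, hm, hlow⟩ := c3_lower
  refine ⟨24 * C + 16 * C / m, ?_, fun t ℒ σ hℒ1 hℒ hσ hσ1 z hz => ?_⟩
  · have : 0 ≤ 16 * C / m := by positivity
    linarith
  have hexp : 1 ≤ Real.exp (3 * ℒ) := Real.one_le_exp (by linarith)
  have hn0 : 0 ≤ ‖riemannZeta₁ (1 + σ + t * I)‖ := norm_nonneg _
  have hC0 : 0 ≤ 16 * C / m := by positivity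
  rcases le_or_gt (1 / 2) |t| with ht | ht
  · refine (z1_bound hC hg ht hℒ hσ hσ1 z hz).trans ?_
    gcongr
    linarith
  · have hσ0 : 0 < σ := lt_of_lt_of_le (Real.exp_pos _) hσ
    rw [mem_closedBall, dist_eq_norm] at hz
    have h1 : |z.re - (1 + σ)| ≤ 3 / 4 := by
      have := (abs_re_le_norm (z - (1 + σ + t * I))).trans hz
      rwa [sub_re, c_re] at this
    have h2 : |z.im - t| ≤ 3 / 4 := by
      have := (abs_im_le_norm (z - (1 + σ + t * I))).trans hz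
      rwa [sub_im, c_im] at this
    rw [abs_le] at h1
    have h4 : |z.im| ≤ 5 / 4 := by
      have : |z.im| ≤ |z.im - t| + |t| := by
        calc |z.im| = |(z.im - t) + t| := by ring_nf
          _ ≤ _ := abs_add_le _ _
      linarith
    have h5 := hg z (by linarith [h1.1]) (by linarith [h1.2])
    have h6 : ‖riemannZeta₁ z‖ ≤ 16 * C := by
      refine h5.trans ?_
      have h0 := abs_nonneg z.im
      have h7 : (|z.im| + 2) ^ 2 ≤ 16 := by nlinarith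
      nlinarith
    have h8 : m ≤ ‖riemannZeta₁ (1 + σ + t * I)‖ := by
      refine hlow _ ?_ ?_ ?_
      · rw [c_re]; linarith
      · rw [c_re]; linarith
      · rw [c_im]; linarith
    calc ‖riemannZeta₁ z‖ ≤ 16 * C := h6
      _ = 16 * C / m * 1 * m := by field_simp
      _ ≤ (24 * C + 16 * C / m) * Real.exp (3 * ℒ) * ‖riemannZeta₁ (1 + σ + t * I)‖ := by
          gcongr
          linarith

/-- **C3** : local data of `(s - 1) ζ(s)` at every height -/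
theorem C3_pr : C3 := by
  obtain ⟨A, hA, hbd⟩ := c3_bound
  obtain ⟨C₂, hC₂, hlam⟩ := sum_Lam_rpow
  have hlogA := Real.log_nonneg hA
  set E : ℝ := 18 * (Real.log A + 3) with hE
  refine ⟨4 * (E + C₂ + 1), by linarith, fun t ℒ hℒ1 hℒ => ?_⟩
  have hf : Differentiable ℂ riemannZeta₁ := differentiable_riemannZeta₁
  have hne : ∀ s : ℂ, 1 ≤ s.re → riemannZeta₁ s ≠ 0 := fun s hs => Z1_ne hs
  have hcne : ∀ {σ : ℝ}, 0 < σ → riemannZeta₁ (1 + σ + t * I) ≠ 0 := fun {σ} hσ =>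
    hne _ (by rw [c_re]; linarith)
  have hexpa : ∀ σ : ℝ, Real.exp (-ℒ) ≤ σ → σ ≤ 1 / 16 → ∀ j : ℕ,
      ‖(Gj (1 : DirichletCharacter ℂ 1) j (1 + σ + t * I) -
          (j.factorial : ℂ) / (1 + σ + t * I - 1) ^ (j + 1)) / (j.factorial : ℂ) +
        ∑ ρ ∈ zb riemannZeta₁ (1 + σ + t * I) (1 / 4),
          (mlt riemannZeta₁ ρ : ℂ) / (1 + σ + t * I - ρ) ^ (j + 1)‖ ≤ E * ℒ * 16 ^ j := by
    intro σ hσ hσ1 j
    have hσ0 : 0 < σ := lt_of_lt_of_le (Real.exp_pos _) hσ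
    have h1 := expa_gen hf (hcne hσ0) hA hℒ1 (hbd t ℒ σ hℒ1 hℒ hσ hσ1) j
    rw [z1_deriv j (by rw [c_re]; linarith)] at h1
    set c : ℂ := 1 + σ + t * I with hc
    set T := ∑ ρ ∈ zb riemannZeta₁ c (1 / 4), (mlt riemannZeta₁ ρ : ℂ) / (c - ρ) ^ (j + 1)
      with hT
    set G := Gj (1 : DirichletCharacter ℂ 1) j c with hG
    have h2 : ((-1) ^ j * (j.factorial : ℂ) / (c - 1) ^ (j + 1) - (-1) ^ j * G) /
        (j.factorial : ℂ) - (-1) ^ j * T =
        (-1) ^ (j + 1) * ((G - (j.factorial : ℂ) / (c - 1) ^ (j + 1)) / (j.factorial : ℂ) + T) := by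
      rw [pow_succ]
      ring
    rw [h2, norm_mul, norm_pow, norm_neg, norm_one, one_pow, one_mul] at h1
    exact h1
  refine ⟨hf, hne, hℒ1, fun σ hσ hσ1 j => (hexpa σ hσ hσ1 j).trans ?_, fun σ hσ hσ1 => ?_,
    fun r hr hr1 => ?_⟩
  · have h7 : (0 : ℝ) ≤ ℒ * 16 ^ j := by positivity
    nlinarith
  · have hσ0 : 0 < σ := lt_of_lt_of_le (Real.exp_pos _) hσ
    refine (cnt_gen hf (hcne hσ0) hA hℒ1 (hbd t ℒ σ hℒ1 hℒ hσ hσ1)).trans ?_
    have h8 : Real.log A + 3 ≤ 4 * (E + C₂ + 1) := by rw [hE]; linarith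
    gcongr
  · have hℒ0 : 0 < ℒ := by linarith
    have hr0 : 0 < r := lt_of_lt_of_le (by positivity) hr
    have hrexp : Real.exp (-ℒ) ≤ r := (exp_neg_le_inv hℒ0).trans hr
    have h1 := hexpa r hrexp hr1 0
    simp only [Nat.factorial_zero, Nat.cast_one, div_one, zero_add, pow_one, pow_zero,
      mul_one] at h1
    have h2 := Gj_zero_norm (1 : DirichletCharacter ℂ 1) hlam hr0 (by linarith) t
    have h4 : ‖1 / ((1 + r + t * I : ℂ) - 1)‖ ≤ 1 / r := by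
      rw [norm_div, norm_one]
      have h5 : r ≤ ‖(1 + r + t * I : ℂ) - 1‖ := by
        have h6 := (le_abs_self _).trans (abs_re_le_norm ((1 + r + t * I : ℂ) - 1))
        rw [sub_re, c_re, Complex.one_re] at h6
        linarith
      exact one_div_le_one_div_of_le hr0 h5
    have hr' : 1 / r ≤ ℒ := by
      rw [div_le_iff₀ hr0]
      rw [div_le_iff₀ hℒ0] at hr
      linarith
    have h3 : ‖∑ ρ ∈ zb riemannZeta₁ (1 + r + t * I) (1 / 4),
        (mlt riemannZeta₁ ρ : ℂ) / (1 + r + t * I - ρ)‖ ≤ (E + C₂ + 1) * ℒ := by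
      have e1 : ∑ ρ ∈ zb riemannZeta₁ (1 + r + t * I) (1 / 4),
          (mlt riemannZeta₁ ρ : ℂ) / (1 + r + t * I - ρ) =
          (Gj (1 : DirichletCharacter ℂ 1) 0 (1 + r + t * I) - 1 / (1 + r + t * I - 1) +
            ∑ ρ ∈ zb riemannZeta₁ (1 + r + t * I) (1 / 4),
              (mlt riemannZeta₁ ρ : ℂ) / (1 + r + t * I - ρ)) -
            (Gj (1 : DirichletCharacter ℂ 1) 0 (1 + r + t * I) - 1 / (1 + r + t * I - 1)) := by
        ring
      rw [e1]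
      refine (norm_sub_le _ _).trans ?_
      have e2 : C₂ / r ≤ C₂ * ℒ := by
        rw [div_eq_mul_one_div]
        gcongr
      have e3 := (norm_sub_le (Gj (1 : DirichletCharacter ℂ 1) 0 (1 + r + t * I))
        (1 / (1 + r + t * I - 1))).trans (add_le_add h2 h4)
      calc _ ≤ E * ℒ + (C₂ / r + 1 / r) := add_le_add h1 e3
        _ ≤ E * ℒ + (C₂ * ℒ + ℒ) := by linarith
        _ = _ := by ring
    refine (near_gen hf hne hr0 hr1 h3).trans (le_of_eq ?_)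
    ring

example : C3 := C3_pr


end Pool.Agent.DH

/-! ## Block C5 (helper61) -/

namespace Pool.Agent.DH

open Finset Complex Metric Pool.Agent.GA
open scoped Classical

theorem C5_pr : C5 := by
  intro q q₁ ψ χ hq hq₁ hψ hχ h2 hns
  have : NeZero q := ⟨by omega⟩
  have : NeZero q₁ := ⟨by omega⟩
  have : NeZero (q * q₁) := ⟨by positivity⟩
  have hd : q ∣ q * q₁ := dvd_mul_right _ _
  have hd₁ : q₁ ∣ q * q₁ := dvd_mul_left _ _
  set θ : DirichletCharacter ℂ (q * q₁) :=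
    DirichletCharacter.changeLevel hd ψ * DirichletCharacter.changeLevel hd₁ χ with hθ
  have hc0 : θ.conductor ≠ 0 := DirichletCharacter.conductor_ne_zero θ
  refine ⟨θ.conductor, θ.primitiveCharacter, Nat.pos_of_ne_zero hc0,
    Nat.le_of_dvd (by positivity) θ.conductor_dvd_level, ?_, fun p hp hpN => ?_⟩
  · unfold Prm
    rw [mem_filter]
    refine ⟨mem_univ _, θ.primitiveCharacter_isPrimitive, fun h => ?_⟩
    have h1 : θ = 1 := by
      rw [← θ.changeLevel_primitiveCharacter, h, DirichletCharacter.changeLevel_one]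
    have h3 : DirichletCharacter.changeLevel hd₁ χ * DirichletCharacter.changeLevel hd₁ χ = 1 := by
      rw [← map_mul, ← sq, h2, map_one]
    have h4 : DirichletCharacter.changeLevel hd ψ = DirichletCharacter.changeLevel hd₁ χ :=
      mul_right_cancel (h1.trans h3.symm)
    have h5 : q = q₁ := by
      have e1 := DirichletCharacter.conductor_changeLevel ψ hd
      have e2 := DirichletCharacter.conductor_changeLevel χ hd₁
      rw [h4, e2] at e1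
      rw [DirichletCharacter.isPrimitive_def] at hψ hχ
      rw [← hψ, ← e1, hχ]
    subst h5
    exact hns ⟨rfl, fun a => by rw [DirichletCharacter.changeLevel_injective hd h4]⟩
  · have hc : Nat.Coprime p (q * q₁) := (Nat.Prime.coprime_iff_not_dvd hp).2 fun h =>
      not_le.2 hpN (Nat.le_of_dvd (by positivity) h)
    have hi : IsCoprime ((p : ℕ) : ℤ) ((q * q₁ : ℕ) : ℤ) := Nat.isCoprime_iff_coprime.2 hc
    have e1 := θ.primitiveCharacter_apply_of_isCoprime hi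
    have e2 := DirichletCharacter.changeLevel_eq_cast_of_dvd' ψ hd hi
    have e3 := DirichletCharacter.changeLevel_eq_cast_of_dvd' χ hd₁ hi
    rw [Int.cast_natCast, Int.cast_natCast] at e1 e2 e3
    rw [e1, hθ, MulChar.mul_apply, e2, e3]

end Pool.Agent.DH

/-! ## Block C6 (helper77) -/

namespace Pool.Agent.DH

open Finset Complex Metric Pool.Agent.GA
open scoped ArithmeticFunction.vonMangoldt Classical

theorem c6_pow {a b : ℂ} {M : ℝ} (hM : 0 ≤ M) (ha : ‖a‖ ≤ M) (hb : ‖b‖ ≤ M) (n : ℕ) :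
    ‖a ^ (n + 1) - b ^ (n + 1)‖ ≤ (n + 1) * M ^ n * ‖a - b‖ := by
  induction n with
  | zero => simp
  | succ n ih =>
    have e : a ^ (n + 1 + 1) - b ^ (n + 1 + 1) =
        a * (a ^ (n + 1) - b ^ (n + 1)) + (a - b) * b ^ (n + 1) := by ring
    rw [e]
    refine (norm_add_le _ _).trans ?_
    rw [norm_mul, norm_mul, norm_pow]
    have h1 : ‖a‖ * ‖a ^ (n + 1) - b ^ (n + 1)‖ ≤ M * ((n + 1) * M ^ n * ‖a - b‖) :=
      mul_le_mul ha ih (norm_nonneg _) hM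
    have h2 : ‖a - b‖ * ‖b‖ ^ (n + 1) ≤ ‖a - b‖ * M ^ (n + 1) := by gcongr
    refine (add_le_add h1 h2).trans (le_of_eq ?_)
    push_cast
    ring

/-- the two last terms -/
theorem c6_diff {β δ : ℝ} (hβ1 : β < 1) (hδ : 0 < δ) (v : ℝ) (j : ℕ) :
    ‖1 / ((1 + δ + v * I : ℂ) - β) ^ (j + 1) - 1 / ((1 + δ + v * I : ℂ) - 1) ^ (j + 1)‖ ≤
      (j + 1) * (1 - β) / δ ^ (j + 2) := by
  set s : ℂ := 1 + δ + v * I with hs
  have hre : s.re = 1 + δ := c_re δ v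
  have h1 : δ ≤ ‖s - 1‖ := by
    have h := (le_abs_self _).trans (abs_re_le_norm (s - 1))
    rw [sub_re, hre, Complex.one_re] at h
    linarith
  have h2 : δ ≤ ‖s - β‖ := by
    have h := (le_abs_self _).trans (abs_re_le_norm (s - β))
    rw [sub_re, hre, Complex.ofReal_re] at h
    linarith
  have n1 : s - 1 ≠ 0 := norm_pos_iff.1 (hδ.trans_le h1)
  have n2 : s - β ≠ 0 := norm_pos_iff.1 (hδ.trans_le h2)
  have a1 : ‖1 / (s - 1)‖ ≤ 1 / δ := by
    rw [norm_div, norm_one]; exact one_div_le_one_div_of_le hδ h1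
  have a2 : ‖1 / (s - β)‖ ≤ 1 / δ := by
    rw [norm_div, norm_one]; exact one_div_le_one_div_of_le hδ h2
  have a3 : ‖1 / (s - β) - 1 / (s - 1)‖ ≤ (1 - β) / δ ^ 2 := by
    have e : 1 / (s - β) - 1 / (s - 1) = ((β - 1 : ℝ) : ℂ) / ((s - β) * (s - 1)) := by
      push_cast
      field_simp
      ring
    rw [e, norm_div, Complex.norm_real, norm_mul, Real.norm_eq_abs, abs_of_neg (by linarith)]
    have h3 : δ ^ 2 ≤ ‖s - β‖ * ‖s - 1‖ := by
      rw [sq]; exact mul_le_mul h2 h1 hδ.le (norm_nonneg _)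
    have h4 : 0 ≤ -(β - 1) := by linarith
    calc -(β - 1) / (‖s - β‖ * ‖s - 1‖) ≤ -(β - 1) / δ ^ 2 :=
          div_le_div_of_nonneg_left h4 (by positivity) h3
      _ = (1 - β) / δ ^ 2 := by ring
  have h := c6_pow (by positivity) a2 a1 j
  rw [one_div_pow, one_div_pow] at h
  refine h.trans ?_
  calc (j + 1) * (1 / δ) ^ j * ‖1 / (s - β) - 1 / (s - 1)‖
      ≤ (j + 1) * (1 / δ) ^ j * ((1 - β) / δ ^ 2) := by gcongr
    _ = (j + 1) * (1 - β) / δ ^ (j + 2) := by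
        rw [one_div, inv_pow, pow_add]
        field_simp

/-- the height in terms of `D` -/
theorem c6_lt {D q : ℕ} (hD : 2 ≤ D) (hq : 1 ≤ q) (hqD : q ≤ D) {v : ℝ} (hv : |v| ≤ D + 1) :
    lt q v ≤ 8 * Real.log D := by
  have hD' : (2 : ℝ) ≤ D := by exact_mod_cast hD
  have hq' : (1 : ℝ) ≤ q := by exact_mod_cast hq
  have hqD' : (q : ℝ) ≤ D := by exact_mod_cast hqD
  have h0 := abs_nonneg v
  have e : 8 * Real.log D = Real.log ((D : ℝ) ^ 8) := by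
    rw [Real.log_pow]; norm_num
  rw [e]
  unfold lt
  refine Real.log_le_log (by positivity) ?_
  calc (q : ℝ) * (|v| + 2) ≤ D * (D + 3) := by
        refine mul_le_mul hqD' (by linarith) (by positivity) (by positivity)
    _ ≤ D * (D ^ 3) := by
        have h8 : (8 : ℝ) ≤ (D : ℝ) ^ 3 := by
          calc (8 : ℝ) = 2 ^ 3 := by norm_num
            _ ≤ (D : ℝ) ^ 3 := pow_le_pow_left₀ (by norm_num) hD' 3
        have h5 : (D : ℝ) + 3 ≤ (D : ℝ) ^ 3 := by nlinarith [sq_nonneg ((D : ℝ) - 2)]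
        gcongr
    _ = (D : ℝ) ^ 4 := by ring
    _ ≤ (D : ℝ) ^ 8 := pow_le_pow_right₀ (by linarith) (by norm_num)

/-- **C6** : the special function -/
theorem C6_pr (h1 : C1) (h2 : C2) (h3 : C3) : C6 := by
  obtain ⟨Ca, hCa, ha⟩ := LD_char
  obtain ⟨Cz, hCz, hz⟩ := h3
  refine ⟨Cz + (Ca + 4), by linarith, fun D q₁ χ β hE => ?_⟩
  have : NeZero q₁ := ⟨by have := hE.hq; omega⟩
  have hχ : χ ≠ 1 := (mem_Prm.1 hE.hχ).2
  have hf2 : Differentiable ℂ (LF χ) := LF_diff hχ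
  obtain ⟨hd, hne, -, -, hLD⟩ := h2 (LF χ) β hf2 (fun s hs => LF_ne_zero hχ hs) hE.hβ1 hE.hz
  obtain ⟨hmul, hnz⟩ := h1 riemannZeta₁ (dslope (LF χ) (β : ℂ)) differentiable_riemannZeta₁ hd
    (fun s hs => Z1_ne hs) hne
  have hlog : 1 ≤ 8 * Real.log D := by
    have hD' : (2 : ℝ) ≤ D := by exact_mod_cast hE.hD
    have h5 := Real.log_two_gt_d9
    have h6 := Real.log_le_log (by norm_num) hD'
    linarith
  refine ⟨fun j s => (Gj (1 : DirichletCharacter ℂ 1) j s -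
      (j.factorial : ℂ) / (s - 1) ^ (j + 1)) + (Gj χ j s + (j.factorial : ℂ) / (s - β) ^ (j + 1)),
    fun v hv => ?_, hnz, fun δ hδ _ v j => ?_⟩
  · refine hmul _ _ _ _ _ _ (hz v _ hlog ?_) (hLD _ _ _ _ (by linarith) (ha q₁ χ hχ v _ ?_))
    · exact c6_lt hE.hD le_rfl (by have := hE.hD; omega) hv
    · exact c6_lt hE.hD hE.hq hE.hqD hv
  · have hj : (j.factorial : ℂ) ≠ 0 := by exact_mod_cast j.factorial_ne_zero
    set s : ℂ := 1 + δ + v * I with hs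
    have e : ((Gj (1 : DirichletCharacter ℂ 1) j s - (j.factorial : ℂ) / (s - 1) ^ (j + 1)) +
        (Gj χ j s + (j.factorial : ℂ) / (s - β) ^ (j + 1)) -
        Gj (1 : DirichletCharacter ℂ 1) j s - Gj χ j s) / (j.factorial : ℂ) =
        1 / (s - β) ^ (j + 1) - 1 / (s - 1) ^ (j + 1) := by
      field_simp
      ring
    show δ ^ (j + 1) * ‖((Gj (1 : DirichletCharacter ℂ 1) j s -
        (j.factorial : ℂ) / (s - 1) ^ (j + 1)) +
        (Gj χ j s + (j.factorial : ℂ) / (s - β) ^ (j + 1)) -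
        Gj (1 : DirichletCharacter ℂ 1) j s - Gj χ j s) / (j.factorial : ℂ)‖ ≤ _
    rw [e]
    calc δ ^ (j + 1) * ‖1 / (s - β) ^ (j + 1) - 1 / (s - 1) ^ (j + 1)‖
        ≤ δ ^ (j + 1) * ((j + 1) * (1 - β) / δ ^ (j + 2)) := by
          gcongr
          exact c6_diff hE.hβ1 hδ v j
      _ = (j + 1) * (1 - β) / δ := by
          rw [pow_succ δ (j + 1)]
          field_simp

example : type_of% @C6_pr := @C6_pr

end Pool.Agent.DH
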