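import Pool.Agent.Lib_helper59.DH.W
import Pool.Agent.Lib_helper98.GAF.WMS

/-!
# DH: blocks B1 of dhr_block
-/

set_option autoImplicit false

/-! ## Block B1 (helper89) -/

namespace Pool.Agent.DH

open Finset Complex Metric Pool.Agent.GA
open scoped ArithmeticFunction.vonMangoldt Classical

theorem b1_Pv (w : ℕ → ℝ) {q : ℕ} (χ : DirichletCharacter ℂ q) (j : ℕ) (δ v : ℝ) (a b : ℕ) :
    Pv w χ j δ v a b = ∑ p ∈ (Ioc a b).filter Nat.Prime,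
      ((w p * (Real.log p ^ (j + 1) / (j.factorial : ℝ) * (p : ℝ) ^ (-(1 + δ))) : ℝ) : ℂ) *
        χ (p : ZMod q) * (p : ℂ) ^ (-(v * I) : ℂ) := by
  unfold Pv
  apply Finset.sum_congr rfl
  intro p hp
  have hpp : p.Prime := (Finset.mem_filter.mp hp).2
  have hp0 : (p : ℂ) ≠ 0 := by exact_mod_cast hpp.ne_zero
  have h1 : (p : ℂ) ^ (-(1 + δ + v * I) : ℂ) =
      (((p : ℝ) ^ (-(1 + δ)) : ℝ) : ℂ) * (p : ℂ) ^ (-(v * I) : ℂ) := by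
    rw [show (-(1 + δ + v * I) : ℂ) = (-(1 + δ) : ℂ) + (-(v * I) : ℂ) by ring,
      Complex.cpow_add _ _ hp0, Complex.ofReal_cpow (Nat.cast_nonneg p)]
    push_cast
    rfl
  rw [h1]
  push_cast
  ring

theorem b1_cont (w : ℕ → ℝ) {q : ℕ} (χ : DirichletCharacter ℂ q) (j : ℕ) (δ : ℝ) (a b : ℕ) :
    Continuous (fun v : ℝ => Pv w χ j δ v a b) := by
  simp only [b1_Pv]
  apply continuous_finsetSum
  intro p hp
  have hpp : p.Prime := (Finset.mem_filter.mp hp).2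
  have hp0 : (p : ℂ) ≠ 0 := by exact_mod_cast hpp.ne_zero
  apply Continuous.mul continuous_const
  apply Continuous.const_cpow _ (Or.inl hp0)
  fun_prop

/-- one `j` -/
theorem b1_one : ∃ C : ℝ, 1 ≤ C ∧ ∀ D : ℕ, 2 ≤ D → ∀ δ : ℝ,
    0 < δ → δ ≤ 1 → ∀ a b : ℕ, D ^ 5 ≤ a → ∀ (w : ℕ → ℝ) (j : ℕ),
    Real.log D * ∑ q ∈ Icc 1 D, ∑ χ ∈ GAT.Prp q, ∫ v in (-(2 * D : ℝ))..(2 * D : ℝ),
        (δ ^ (j + 1) * ‖Pv w χ j δ v a b‖) ^ 2 ≤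
      C * ((2 * j + 1) * 4 ^ j) * (δ * ∑ p ∈ (Ioc a b).filter Nat.Prime,
        w p ^ 2 * (Real.log p * (p : ℝ) ^ (-(1 + δ)))) := by
  obtain ⟨C, hC, hls⟩ := GAT.large_sieve_hybrid
  refine ⟨3 * C, by linarith, ?_⟩
  intro D hD δ hδ hδ1 a b hab w j
  have hDr : (2 : ℝ) ≤ D := by exact_mod_cast hD
  obtain ⟨s, hs⟩ : ∃ s : Finset ℕ, s = (Ioc a b).filter Nat.Prime := ⟨_, rfl⟩
  have hsD : ∀ p ∈ s, p.Prime ∧ D ^ 5 < p := by
    intro p hp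
    rw [hs, Finset.mem_filter, Finset.mem_Ioc] at hp
    exact ⟨hp.2, lt_of_le_of_lt hab hp.1.1⟩
  obtain ⟨A, hA⟩ : ∃ A : ℕ → ℝ, A = fun (p : ℕ) =>
    w p * (Real.log p ^ (j + 1) / (j.factorial : ℝ) * (p : ℝ) ^ (-(1 + δ))) := ⟨_, rfl⟩
  have hPw : ∀ (q : ℕ) (χ : DirichletCharacter ℂ q) (v : ℝ), Pv w χ j δ v a b =
      ∑ p ∈ s, ((A p : ℝ) : ℂ) * χ (p : ZMod q) * (p : ℂ) ^ (-(v * I) : ℂ) := by
    intro q χ v
    rw [b1_Pv, hs, hA]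
  have hint : ∀ (q : ℕ) (χ : DirichletCharacter ℂ q), ∫ v in (-(2 * D : ℝ))..(2 * D : ℝ),
        (δ ^ (j + 1) * ‖Pv w χ j δ v a b‖) ^ 2 =
      δ ^ (2 * j + 2) * ∫ v in (-(2 * D : ℝ))..(2 * D : ℝ),
        ‖∑ p ∈ s, ((A p : ℝ) : ℂ) * χ (p : ZMod q) * (p : ℂ) ^ (-(v * I) : ℂ)‖ ^ 2 := by
    intro q χ
    rw [← intervalIntegral.integral_const_mul]
    congr 1
    ext v
    rw [hPw, mul_pow]
    congr 1
    ring
  have hrough : ∀ n ∈ s, 1 ≤ n ∧ ∀ p, p.Prime → p ∣ n → D < p := by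
    intro n hn
    obtain ⟨h1, h2⟩ := hsD n hn
    refine ⟨h1.one_lt.le, ?_⟩
    intro p hp hpn
    have : p = n := (Nat.prime_dvd_prime_iff_eq hp h1).mp hpn
    rw [this]
    have h3 : D ≤ D ^ 5 := Nat.le_self_pow (by norm_num) D
    omega
  have hmain := hls D hD (2 * D) (by linarith) s hrough (fun p => ((A p : ℝ) : ℂ))
  have heq : Real.log D * ∑ q ∈ Icc 1 D, ∑ χ ∈ GAT.Prp q, ∫ v in (-(2 * D : ℝ))..(2 * D : ℝ),
        (δ ^ (j + 1) * ‖Pv w χ j δ v a b‖) ^ 2 =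
      δ ^ (2 * j + 2) * (Real.log D * ∑ q ∈ Icc 1 D, ∑ χ ∈ GAT.Prp q,
        ∫ v in (-(2 * D : ℝ))..(2 * D : ℝ),
        ‖∑ p ∈ s, ((A p : ℝ) : ℂ) * χ (p : ZMod q) * (p : ℂ) ^ (-(v * I) : ℂ)‖ ^ 2) := by
    simp only [hint]
    rw [show δ ^ (2 * j + 2) * (Real.log D * ∑ q ∈ Icc 1 D, ∑ χ ∈ GAT.Prp q,
        ∫ v in (-(2 * D : ℝ))..(2 * D : ℝ),
        ‖∑ p ∈ s, ((A p : ℝ) : ℂ) * χ (p : ZMod q) * (p : ℂ) ^ (-(v * I) : ℂ)‖ ^ 2) =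
      Real.log D * (δ ^ (2 * j + 2) * ∑ q ∈ Icc 1 D, ∑ χ ∈ GAT.Prp q,
        ∫ v in (-(2 * D : ℝ))..(2 * D : ℝ),
        ‖∑ p ∈ s, ((A p : ℝ) : ℂ) * χ (p : ZMod q) * (p : ℂ) ^ (-(v * I) : ℂ)‖ ^ 2) by ring]
    congr 1
    rw [Finset.mul_sum]
    apply Finset.sum_congr rfl
    intro q _
    rw [Finset.mul_sum]
  rw [heq]
  have hterm : ∀ p ∈ s, δ ^ (2 * j + 2) * ((p + (D : ℝ) ^ 4 * (2 * D)) * ‖((A p : ℝ) : ℂ)‖ ^ 2) ≤
      3 * ((2 * j + 1) * 4 ^ j) * δ * (w p ^ 2 * (Real.log p * (p : ℝ) ^ (-(1 + δ)))) := by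
    intro p hp
    obtain ⟨h1, h2⟩ := hsD p hp
    have h3 := GAT.wms_term hδ j h1.two_le h2.le
    have h4 := mul_le_mul_of_nonneg_left h3 (sq_nonneg (w p))
    rw [Complex.norm_real, Real.norm_eq_abs, sq_abs, hA]
    calc δ ^ (2 * j + 2) * ((p + (D : ℝ) ^ 4 * (2 * D)) *
          (w p * (Real.log p ^ (j + 1) / (j.factorial : ℝ) * (p : ℝ) ^ (-(1 + δ)))) ^ 2)
        = w p ^ 2 * (δ ^ (2 * j + 2) * ((p + (D : ℝ) ^ 4 * (2 * D)) *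
          (Real.log p ^ (j + 1) / (j.factorial : ℝ) * (p : ℝ) ^ (-(1 + δ))) ^ 2)) := by ring
      _ ≤ w p ^ 2 * (3 * ((2 * j + 1) * 4 ^ j) * δ * (Real.log p * (p : ℝ) ^ (-(1 + δ)))) := h4
      _ = _ := by ring
  calc δ ^ (2 * j + 2) * (Real.log D * ∑ q ∈ Icc 1 D, ∑ χ ∈ GAT.Prp q,
        ∫ v in (-(2 * D : ℝ))..(2 * D : ℝ),
        ‖∑ p ∈ s, ((A p : ℝ) : ℂ) * χ (p : ZMod q) * (p : ℂ) ^ (-(v * I) : ℂ)‖ ^ 2)
      ≤ δ ^ (2 * j + 2) * (C * ∑ p ∈ s, (p + (D : ℝ) ^ 4 * (2 * D)) * ‖((A p : ℝ) : ℂ)‖ ^ 2) :=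
        mul_le_mul_of_nonneg_left hmain (by positivity)
    _ = C * ∑ p ∈ s, δ ^ (2 * j + 2) * ((p + (D : ℝ) ^ 4 * (2 * D)) * ‖((A p : ℝ) : ℂ)‖ ^ 2) := by
        rw [← Finset.mul_sum]
        ring
    _ ≤ C * ∑ p ∈ s, 3 * ((2 * j + 1) * 4 ^ j) * δ *
          (w p ^ 2 * (Real.log p * (p : ℝ) ^ (-(1 + δ)))) :=
        mul_le_mul_of_nonneg_left (Finset.sum_le_sum hterm) (by linarith)
    _ = 3 * C * ((2 * j + 1) * 4 ^ j) * (δ * ∑ p ∈ (Ioc a b).filter Nat.Prime,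
        w p ^ 2 * (Real.log p * (p : ℝ) ^ (-(1 + δ)))) := by
        rw [← Finset.mul_sum, hs]
        ring

theorem B1_pr : B1 := by
  obtain ⟨C, hC, hone⟩ := b1_one
  refine ⟨C * 160, by linarith, ?_⟩
  intro D hD K hK δ hδ hδ1 a b hab w
  obtain ⟨S, hS⟩ : ∃ S : ℝ, S = δ * ∑ p ∈ (Ioc a b).filter Nat.Prime,
    w p ^ 2 * (Real.log p * (p : ℝ) ^ (-(1 + δ))) := ⟨_, rfl⟩
  have hS0 : 0 ≤ S := by
    rw [hS]
    apply mul_nonneg hδ.le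
    apply Finset.sum_nonneg
    intro p hp
    have hpp : p.Prime := (Finset.mem_filter.mp hp).2
    have h1 : 0 ≤ Real.log p := Real.log_nonneg (by exact_mod_cast hpp.one_lt.le)
    have h2 : 0 ≤ (p : ℝ) ^ (-(1 + δ)) := Real.rpow_nonneg (Nat.cast_nonneg p) _
    positivity
  rw [← hS]
  have hexch : ∀ (q : ℕ) (χ : DirichletCharacter ℂ q), ∫ v in (-(2 * D : ℝ))..(2 * D : ℝ),
        ∑ j ∈ Icc K (2 * K), (δ ^ (j + 1) * ‖Pv w χ j δ v a b‖) ^ 2 =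
      ∑ j ∈ Icc K (2 * K), ∫ v in (-(2 * D : ℝ))..(2 * D : ℝ),
        (δ ^ (j + 1) * ‖Pv w χ j δ v a b‖) ^ 2 := by
    intro q χ
    apply intervalIntegral.integral_finsetSum
    intro j _
    apply Continuous.intervalIntegrable
    exact (continuous_const.mul (b1_cont w χ j δ a b).norm).pow 2
  simp only [hexch]
  have hswap : ∑ q ∈ Icc 1 D, ∑ χ ∈ GAT.Prp q, ∑ j ∈ Icc K (2 * K),
        ∫ v in (-(2 * D : ℝ))..(2 * D : ℝ), (δ ^ (j + 1) * ‖Pv w χ j δ v a b‖) ^ 2 =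
      ∑ j ∈ Icc K (2 * K), ∑ q ∈ Icc 1 D, ∑ χ ∈ GAT.Prp q,
        ∫ v in (-(2 * D : ℝ))..(2 * D : ℝ), (δ ^ (j + 1) * ‖Pv w χ j δ v a b‖) ^ 2 := by
    rw [Finset.sum_comm]
    apply Finset.sum_congr rfl
    intro q _
    rw [Finset.sum_comm]
  rw [hswap, Finset.mul_sum]
  calc ∑ j ∈ Icc K (2 * K), Real.log D * ∑ q ∈ Icc 1 D, ∑ χ ∈ GAT.Prp q,
        ∫ v in (-(2 * D : ℝ))..(2 * D : ℝ), (δ ^ (j + 1) * ‖Pv w χ j δ v a b‖) ^ 2
      ≤ ∑ j ∈ Icc K (2 * K), C * ((4 * K + 1) * 16 ^ K) * S := by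
        apply Finset.sum_le_sum
        intro j hj
        refine (hone D hD δ hδ hδ1 a b hab w j).trans ?_
        rw [← hS]
        apply mul_le_mul_of_nonneg_right _ hS0
        apply mul_le_mul_of_nonneg_left _ (by linarith)
        rw [Finset.mem_Icc] at hj
        have h1 : (j : ℝ) ≤ 2 * K := by exact_mod_cast hj.2
        have h2 : (4 : ℝ) ^ j ≤ 16 ^ K := by
          calc (4 : ℝ) ^ j ≤ 4 ^ (2 * K) := pow_le_pow_right₀ (by norm_num) hj.2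
            _ = 16 ^ K := by rw [pow_mul]; norm_num
        apply mul_le_mul _ h2 (by positivity) (by positivity)
        linarith
    _ = (K + 1) * (C * ((4 * K + 1) * 16 ^ K)) * S := by
        rw [Finset.sum_const, Nat.card_Icc, nsmul_eq_mul, show 2 * K + 1 - K = K + 1 by omega]
        push_cast
        ring
    _ ≤ (2 ^ K * (C ^ K * (5 ^ K * 16 ^ K))) * S := by
        have h1 : (K : ℝ) + 1 ≤ 2 ^ K := by
          have := one_add_mul_le_pow (a := (1 : ℝ)) (by norm_num) K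
          norm_num at this
          linarith
        have h2 : 4 * (K : ℝ) + 1 ≤ 5 ^ K := by
          have := one_add_mul_le_pow (a := (4 : ℝ)) (by norm_num) K
          norm_num at this
          linarith
        have h3 : C ≤ C ^ K := le_self_pow₀ hC (by omega)
        apply mul_le_mul_of_nonneg_right _ hS0
        apply mul_le_mul h1 _ (by positivity) (by positivity)
        apply mul_le_mul h3 _ (by positivity) (by positivity)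
        exact mul_le_mul_of_nonneg_right h2 (by positivity)
    _ = (C * 160) ^ K * S := by
        congr 1
        rw [mul_pow, show (160 : ℝ) = 2 * 5 * 16 by norm_num, mul_pow, mul_pow]
        ring

end Pool.Agent.DH
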