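import Pool.Agent.Lib_helper59.DH.W

/-!
# DH: blocks C4 of dhr_block
-/

set_option autoImplicit false

/-! ## Block C4 (helper95) -/

namespace Pool.Agent.DH

open Finset Complex Metric Pool.Agent.GA
open scoped ArithmeticFunction.vonMangoldt Classical

theorem c4_cont {q q' : ℕ} (ψ : DirichletCharacter ℂ q) (ψ' : DirichletCharacter ℂ q') (K : ℕ)
    (δ : ℝ) (a b : ℕ) :
    Continuous (fun v : ℝ => ∑ j ∈ Icc K (2 * K),
      (δ ^ (j + 1) * ‖Pw ψ j δ v a b + Pw ψ' j δ v a b‖) ^ 2) :=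
  continuous_finsetSum _ fun j _ =>
    (continuous_const.mul ((GAT.Pw_cont ψ j δ a b).add (GAT.Pw_cont ψ' j δ a b)).norm).pow 2

theorem c4_window {C : ℝ} (hC : 1 ≤ C) : ∃ B : ℝ, 500 ≤ B ∧
    ∀ (q q' : ℕ), 1 ≤ q → 1 ≤ q' → ∀ (ψ : DirichletCharacter ℂ q) (ψ' : DirichletCharacter ℂ q')
    (f : ℂ → ℂ) (G : ℕ → ℂ → ℂ) (v δ ℒ : ℝ), LD f G C ℒ v → 1 / ℒ ≤ δ → δ ≤ 1 / 600 →
    ∀ ρ : ℂ, f ρ = 0 → 1 - δ ≤ ρ.re → |v - ρ.im| ≤ δ →
    ∀ K : ℕ, B * (δ * ℒ) ≤ K →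
    (∀ j ∈ Icc K (2 * K), δ ^ (j + 1) * ‖(G j (1 + δ + v * I) - Gj ψ j (1 + δ + v * I) -
      Gj ψ' j (1 + δ + v * I)) / (j.factorial : ℂ)‖ ≤ 1 / 2 * (1 / 100 : ℝ) ^ K) →
      ∃ j ∈ Icc K (2 * K), (1 / 200 : ℝ) ^ K ≤ δ ^ (j + 1) *
        ‖Pw ψ j δ v (wa δ K) (wb δ K) + Pw ψ' j δ v (wa δ K) (wb δ K)‖ := by
  obtain ⟨B, hBe⟩ : ∃ B : ℝ, B = 80000 * C := ⟨_, rfl⟩
  have hB : 500 ≤ B := by rw [hBe]; linarith
  obtain ⟨C', hC', hwin⟩ := window_error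
  refine ⟨B + 18 * C', by linarith, fun q q' hq hq' ψ ψ' f G v δ ℒ hld hδ hδ1 ρ hρ hre him K hK
    hG => ?_⟩
  have hℒ1 : 1 ≤ ℒ := hld.one_le
  have hℒ0 : 0 < ℒ := by linarith
  have hδ0 : 0 < δ := lt_of_lt_of_le (by positivity) hδ
  have hδℒ : 1 ≤ δ * ℒ := by rwa [div_le_iff₀ hℒ0] at hδ
  have hKB : B * (δ * ℒ) ≤ K := by nlinarith
  have hKC : 18 * C' ≤ K := by nlinarith
  have hK0 : (0 : ℝ) < K := by linarith
  have hK1 : 1 ≤ K := by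
    have : (0 : ℝ) < K := hK0
    have : 0 < K := by exact_mod_cast this
    omega
  obtain ⟨j, hj, hjle⟩ := hld.deriv_lower hC hδ hδ1 hρ hre him (by rw [← hBe]; exact hKB)
  rw [mem_Icc] at hj
  have hjI : j ∈ Icc K (2 * K) := mem_Icc.2 ⟨hj.1, by omega⟩
  refine ⟨j, hjI, ?_⟩
  have hw := hwin q ψ K j δ v (by omega) hK1 hj.1 (by omega) hδ0 (by linarith)
  have hw' := hwin q' ψ' K j δ v (by omega) hK1 hj.1 (by omega) hδ0 (by linarith)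
  have hGj := hG j hjI
  unfold wa wb
  set P := Pw ψ j δ v ⌊Real.exp (K / (100 * δ))⌋₊ ⌊Real.exp (40 * K / δ)⌋₊ with hP
  set P' := Pw ψ' j δ v ⌊Real.exp (K / (100 * δ))⌋₊ ⌊Real.exp (40 * K / δ)⌋₊ with hP'
  set E := (G j (1 + δ + v * I) - Gj ψ j (1 + δ + v * I) -
      Gj ψ' j (1 + δ + v * I)) / (j.factorial : ℂ) with hE
  set g := Gj ψ j (1 + δ + v * I) / (j.factorial : ℂ) with hg
  set g' := Gj ψ' j (1 + δ + v * I) / (j.factorial : ℂ) with hg'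
  have hsum : G j (1 + δ + v * I) / (j.factorial : ℂ) = (P + P') + ((g - P) + (g' - P')) + E := by
    rw [hE, hg, hg']
    ring
  have hδj : (0 : ℝ) < δ ^ (j + 1) := by positivity
  have h1 : δ ^ (j + 1) * ‖G j (1 + δ + v * I) / (j.factorial : ℂ)‖ ≤
      δ ^ (j + 1) * ‖P + P'‖ + 2 * (C' * K / 36 ^ j) + 1 / 2 * (1 / 100 : ℝ) ^ K := by
    have e1 : ‖G j (1 + δ + v * I) / (j.factorial : ℂ)‖ ≤
        ‖P + P'‖ + (‖g - P‖ + ‖g' - P'‖) + ‖E‖ := by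
      rw [hsum]
      refine (norm_add_le _ _).trans ?_
      gcongr
      refine (norm_add_le _ _).trans ?_
      gcongr
      exact norm_add_le _ _
    calc δ ^ (j + 1) * ‖G j (1 + δ + v * I) / (j.factorial : ℂ)‖
        ≤ δ ^ (j + 1) * (‖P + P'‖ + (‖g - P‖ + ‖g' - P'‖) + ‖E‖) := by gcongr
      _ = δ ^ (j + 1) * ‖P + P'‖ + (δ ^ (j + 1) * ‖g - P‖ + δ ^ (j + 1) * ‖g' - P'‖) +
          δ ^ (j + 1) * ‖E‖ := by ring
      _ ≤ _ := by linarith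
  have h2 : 2 * (C' * K / 36 ^ j) ≤ 1 / 9 * (2 / 5) ^ j := by
    have h3 : (2 * C' * K) / 36 ^ j ≤ 1 / 9 * (2 / 5) ^ j := by
      rw [div_le_iff₀ (by positivity)]
      have e1 : (1 / 9 : ℝ) * (2 / 5) ^ j * 36 ^ j = 1 / 9 * (72 / 5) ^ j := by
        rw [mul_assoc, ← mul_pow]; norm_num
      rw [e1]
      have e2 : (K : ℝ) ≤ 2 ^ K := by exact_mod_cast (Nat.lt_two_pow_self (n := K)).le
      have e3 : (K : ℝ) * K ≤ (72 / 5) ^ j := by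
        calc (K : ℝ) * K ≤ 2 ^ K * 2 ^ K := by gcongr
          _ = 4 ^ K := by rw [← mul_pow]; norm_num
          _ ≤ 4 ^ j := pow_le_pow_right₀ (by norm_num) hj.1
          _ ≤ (72 / 5) ^ j := pow_le_pow_left₀ (by norm_num) (by norm_num) j
      nlinarith
    calc 2 * (C' * K / 36 ^ j) = (2 * C' * K) / 36 ^ j := by ring
      _ ≤ _ := h3
  have h3 : (1 / 100 : ℝ) ^ K ≤ 1 / 9 * (2 / 5) ^ j := by
    have e1 : (2 / 5 : ℝ) ^ (2 * K) ≤ (2 / 5) ^ j :=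
      pow_le_pow_of_le_one (by norm_num) (by norm_num) (by omega)
    have e2 : (2 / 5 : ℝ) ^ (2 * K) = 16 ^ K * (1 / 100) ^ K := by
      rw [pow_mul, ← mul_pow]; norm_num
    have e3 : (16 : ℝ) ≤ 16 ^ K := by
      calc (16 : ℝ) = 16 ^ 1 := by norm_num
        _ ≤ 16 ^ K := pow_le_pow_right₀ (by norm_num) hK1
    have e4 : (0 : ℝ) < (1 / 100) ^ K := by positivity
    have e5 : (9 : ℝ) * (1 / 100) ^ K ≤ (2 / 5) ^ j := by
      refine le_trans ?_ e1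
      rw [e2]
      nlinarith
    linarith
  have h5 : (1 / 200 : ℝ) ^ K ≤ 1 / 2 * (1 / 100) ^ K := by
    have e1 : (1 / 200 : ℝ) ^ K = (1 / 2) ^ K * (1 / 100) ^ K := by
      rw [← mul_pow]; norm_num
    rw [e1]
    have e2 : (1 / 2 : ℝ) ^ K ≤ 1 / 2 := by
      calc (1 / 2 : ℝ) ^ K ≤ (1 / 2) ^ 1 :=
            pow_le_pow_of_le_one (by norm_num) (by norm_num) hK1
        _ = 1 / 2 := by norm_num
    gcongr
  have h4 : (2 / 9 : ℝ) * (2 / 5) ^ j = 1 / 9 * (2 / 5) ^ j + 1 / 9 * (2 / 5) ^ j := by ring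
  linarith

theorem C4_pr : C4 := by
  intro C hC
  obtain ⟨B, hB, hlow⟩ := c4_window hC
  refine ⟨B, hB, fun D hD q q' hq hq' ψ ψ' f G δ hδ hδ1 hf hne hld K hK hG => ?_⟩
  have hDr : (2 : ℝ) ≤ D := by exact_mod_cast hD
  have hlD : 0 < Real.log D := Real.log_pos (by linarith)
  have hδ0 : 0 < δ := lt_of_lt_of_le (by positivity) hδ
  set a := wa δ K with ha
  set b := wb δ K with hb
  set P : ℝ → ℝ := fun v => ∑ j ∈ Icc K (2 * K),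
    (δ ^ (j + 1) * ‖Pw ψ j δ v a b + Pw ψ' j δ v a b‖) ^ 2 with hP
  have hf1 : f 1 ≠ 0 := hne 1 (by simp)
  have hM0 : 0 ≤ C * (2 * δ * (8 * Real.log D)) := by positivity
  have hv1 : ∀ ρ : ℂ, |ρ.im| ≤ D → ∀ v : ℝ, |v - ρ.im| ≤ δ → |v| ≤ D + 1 := by
    intro ρ h4 v hv
    have e1 : v = ρ.im + (v - ρ.im) := by ring
    calc |v| = |ρ.im + (v - ρ.im)| := by rw [← e1]
      _ ≤ |ρ.im| + |v - ρ.im| := abs_add_le _ _
      _ ≤ D + 1 := by linarith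
  have h := GAT.cover hf hne (P := P) (c4_cont ψ ψ' K δ a b)
    (fun v => sum_nonneg fun j _ => by positivity) (T := D) (δ := δ)
    (M := C * (2 * δ * (8 * Real.log D))) (κ := (1 / 200) ^ (2 * K)) hDr hδ0 (by linarith)
    hM0 ?_ ?_
  · have h2 : nz f δ D * (1 / 200) ^ (2 * K) * (2 * δ) ≤
        (8 * C * Real.log D * ∫ v in (-(2 * D : ℝ))..(2 * D : ℝ), P v) * (2 * δ) := by
      calc _ = nz f δ D * (2 * δ) * (1 / 200) ^ (2 * K) := by ring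
        _ ≤ _ := h
        _ = _ := by ring
    exact le_of_mul_le_mul_right h2 (by positivity)
  · intro ρ hρ v hv
    rw [mem_zr hf hf1] at hρ
    obtain ⟨h1, h2, h3, h4⟩ := hρ
    obtain ⟨j, hj, hjle⟩ := hlow q q' hq hq' ψ ψ' f G v δ (8 * Real.log D)
      (hld v (hv1 ρ h4 v hv)) hδ hδ1 ρ h1 h2 hv K hK (hG v)
    calc (1 / 200 : ℝ) ^ (2 * K) = ((1 / 200 : ℝ) ^ K) ^ 2 := by rw [mul_comm, pow_mul]
      _ ≤ (δ ^ (j + 1) * ‖Pw ψ j δ v a b + Pw ψ' j δ v a b‖) ^ 2 :=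
          pow_le_pow_left₀ (by positivity) hjle 2
      _ ≤ P v := Finset.single_le_sum
          (f := fun j => (δ ^ (j + 1) * ‖Pw ψ j δ v a b + Pw ψ' j δ v a b‖) ^ 2)
          (fun j _ => by positivity) hj
  · intro ρ hρ v hv
    rw [mem_zr hf hf1] at hρ
    obtain ⟨h1, h2, h3, h4⟩ := hρ
    refine (hld v (hv1 ρ h4 v hv)).near (2 * δ) (by linarith) (by linarith)

end Pool.Agent.DH
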