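import Pool.Agent.Lib_helper59.DH.W
import Pool.Agent.Lib_helper98.GAF.Final
import Pool.Agent.Lib_helper98.GAF.Z2

/-!
# DH: blocks C7, DEN of dhr_block
-/

set_option autoImplicit false

/-! ## Block C7 (helper52) -/

namespace Pool.Agent.DH

open Finset Complex Metric Pool.Agent.GA
open scoped ArithmeticFunction.vonMangoldt Classical

theorem c7_nz_nonneg (f : ℂ → ℂ) (a T : ℝ) : 0 ≤ nz f a T :=
  sum_nonneg fun ρ _ => mlt_nonneg f ρ

theorem c7_same {q : ℕ} (hq : 1 ≤ q) {χ ψ : DirichletCharacter ℂ q} (h : SZ.Same χ ψ) :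
    χ = ψ := by
  have : NeZero q := ⟨by omega⟩
  apply MulChar.ext'
  intro a
  have h1 := h.2 a.val
  rw [ZMod.natCast_val, ZMod.cast_id] at h1
  exact h1

theorem c7_Prm1 : Prm 1 = ∅ := by
  rw [Finset.eq_empty_iff_forall_notMem]
  intro ψ hψ
  exact (mem_Prm.1 hψ).2 (DirichletCharacter.level_one _)

theorem c7_Prp1 : GAT.Prp 1 = {1} := by
  ext χ
  rw [mem_singleton]
  refine ⟨fun _ => DirichletCharacter.level_one _, fun hχ => ?_⟩
  unfold GAT.Prp
  rw [mem_filter, hχ]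
  exact ⟨mem_univ _, DirichletCharacter.isPrimitive_one_level_one⟩

theorem c7_Prm_sub (q : ℕ) : Prm q ⊆ GAT.Prp q := by
  intro ψ hψ
  unfold GAT.Prp
  rw [mem_filter]
  exact ⟨mem_univ _, (mem_Prm.1 hψ).1⟩

/-- the exceptional character apart -/
theorem c7_split {D q₁ : ℕ} (hq₁ : q₁ ∈ Icc 1 D) {χ : DirichletCharacter ℂ q₁} (hχ : χ ∈ Prm q₁)
    (β δ T : ℝ) :
    ∑ q ∈ Icc 1 D, ∑ ψ ∈ Prm q, nz (LFd χ β ψ) δ T =
      ∑ q ∈ Icc 1 D, ∑ ψ ∈ Prm q, (if SZ.Same χ ψ then 0 else nz (LF ψ) δ T) +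
        nz (dslope (LF χ) (β : ℂ)) δ T := by
  have h1 : ∀ (q : ℕ) (ψ : DirichletCharacter ℂ q), nz (LFd χ β ψ) δ T =
      (if SZ.Same χ ψ then 0 else nz (LF ψ) δ T) +
        (if SZ.Same χ ψ then nz (dslope (LF ψ) (β : ℂ)) δ T else 0) := by
    intro q ψ
    unfold LFd
    by_cases h : SZ.Same χ ψ
    · rw [if_pos h, if_pos h, if_pos h, zero_add]
    · rw [if_neg h, if_neg h, if_neg h, add_zero]
  have hq1 : 1 ≤ q₁ := (mem_Icc.1 hq₁).1
  simp only [h1, Finset.sum_add_distrib]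
  congr 1
  rw [Finset.sum_eq_single_of_mem q₁ hq₁
      (fun q _ hne => Finset.sum_eq_zero fun ψ _ => if_neg fun h => hne h.1.symm),
    Finset.sum_eq_single_of_mem χ hχ (fun ψ _ hne => if_neg fun h => hne (c7_same hq1 h).symm),
    if_pos ⟨rfl, fun a => rfl⟩]

/-- all primitive characters -/
theorem c7_ms {D q₁ : ℕ} (hD : 1 ≤ D) (χ : DirichletCharacter ℂ q₁)
    (Φ : (q : ℕ) → DirichletCharacter ℂ q → ℝ) (hΦ : ∀ q ψ, 0 ≤ Φ q ψ) :
    ∑ q ∈ Icc 1 D, ∑ ψ ∈ Prm q, (if SZ.Same χ ψ then 0 else Φ q ψ) + Φ 1 1 ≤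
      ∑ q ∈ Icc 1 D, ∑ ψ ∈ GAT.Prp q, Φ q ψ := by
  have h1 : Φ 1 1 = ∑ q ∈ Icc 1 D, (if q = 1 then Φ 1 1 else 0) := by
    rw [Finset.sum_ite_eq' (Icc 1 D) 1 (fun _ => Φ 1 1), if_pos (mem_Icc.2 ⟨le_rfl, hD⟩)]
  rw [h1, ← Finset.sum_add_distrib]
  refine Finset.sum_le_sum fun q _ => ?_
  by_cases hq : q = 1
  · subst hq
    rw [if_pos rfl, c7_Prm1, c7_Prp1, Finset.sum_empty, Finset.sum_singleton, zero_add]
  · rw [if_neg hq, add_zero]
    refine (Finset.sum_le_sum (g := fun ψ => Φ q ψ) fun ψ _ => ?_).trans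
      (Finset.sum_le_sum_of_subset_of_nonneg (c7_Prm_sub q) fun ψ _ _ => hΦ q ψ)
    split_ifs
    · exact hΦ q ψ
    · exact le_rfl

/-- sizes of the conductors -/
theorem c7_lt {D : ℕ} (hD : 2 ≤ D) {q : ℕ} (hq0 : 1 ≤ q) (hq : q ≤ D * D) {v : ℝ}
    (hv : |v| ≤ D + 1) : lt q v ≤ 8 * Real.log D := by
  have hDr : (2 : ℝ) ≤ D := by exact_mod_cast hD
  have hq1 : (1 : ℝ) ≤ q := by exact_mod_cast hq0
  have hqD : (q : ℝ) ≤ D * D := by exact_mod_cast hq
  have h1 : 8 * Real.log D = Real.log ((D : ℝ) ^ 8) := by rw [Real.log_pow]; norm_num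
  rw [h1]
  unfold lt
  have := abs_nonneg v
  refine Real.log_le_log (by positivity) ?_
  have h2 : (D : ℝ) + 3 ≤ (D : ℝ) ^ 3 := by nlinarith [mul_self_nonneg ((D : ℝ) - 2)]
  calc (q : ℝ) * (|v| + 2) ≤ D * D * (D ^ 3) := by
        gcongr
        linarith
    _ = D ^ 5 := by ring
    _ ≤ D ^ 8 := pow_le_pow_right₀ (by linarith) (by norm_num)

/-- the sum of the two windows -/
theorem c7_Pv {q q' q₁ : ℕ} {ψ : DirichletCharacter ℂ q} {ψ' : DirichletCharacter ℂ q'}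
    {χ : DirichletCharacter ℂ q₁} {a b : ℕ}
    (h : ∀ p : ℕ, p.Prime → a < p → ψ' (p : ZMod q') = ψ (p : ZMod q) * (cr χ p : ℂ))
    (j : ℕ) (δ v : ℝ) :
    Pw ψ j δ v a b + Pw ψ' j δ v a b = Pv (fun n => 1 + cr χ n) ψ j δ v a b := by
  unfold Pw Pv
  rw [← Finset.sum_add_distrib]
  refine Finset.sum_congr rfl fun p hp => ?_
  rw [mem_filter, mem_Ioc] at hp
  rw [h p hp.2 hp.1.1]
  push_cast
  ring

/-- the window starts late -/
theorem c7_wa {D : ℕ} (hD : 2 ≤ D) {B δ : ℝ} {K : ℕ} (hB : 500 ≤ B) (hδ : 0 < δ)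
    (hK : B * (δ * (8 * Real.log D)) ≤ K) : D ^ 8 ≤ wa δ K := by
  have hDr : (2 : ℝ) ≤ D := by exact_mod_cast hD
  have hD0 : (0 : ℝ) < D := by linarith
  have hlD : 0 < Real.log D := Real.log_pos (by linarith)
  unfold wa
  rw [Nat.le_floor_iff (Real.exp_pos _).le]
  push_cast
  have e1 : (D : ℝ) ^ 8 = Real.exp (8 * Real.log D) := by
    rw [mul_comm, Real.exp_mul, Real.exp_log hD0]
    norm_cast
  rw [e1]
  refine Real.exp_le_exp.2 ?_
  rw [le_div_iff₀ (by positivity)]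
  have h1 : 0 < δ * Real.log D := by positivity
  nlinarith

/-- the exponents -/
theorem c7_le {p L B x K Y : ℝ} (hp : 0 ≤ p) (hL : 0 ≤ L) (hB : 0 ≤ B) (hx : 0 ≤ x) (hY : 0 ≤ Y)
    (hK : K ≤ B * (8 * x) + 1) : p + L * K ≤ (p + L + L * (8 * B) + Y) * (1 + x) := by
  have h1 : L * K ≤ L * (B * (8 * x) + 1) := mul_le_mul_of_nonneg_left hK hL
  have h2 : 0 ≤ p * x := mul_nonneg hp hx
  have h3 : 0 ≤ L * x := mul_nonneg hL hx
  have h4 : 0 ≤ Y * (1 + x) := by positivity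
  have h5 : 0 ≤ L * (8 * B) := by positivity
  calc p + L * K ≤ p + L * (B * (8 * x) + 1) := by linarith
    _ ≤ p + L * (B * (8 * x) + 1) + (p * x + L * x + L * (8 * B) + Y * (1 + x)) := by linarith
    _ = _ := by ring

theorem C7_pr (hB1 : B1) (hA5 : A5) (hA1 : A1) (hC1 : C1) (hC4 : C4) (hC5 : C5) (hC6 : C6)
    (hC2 : C2) : C7 := by
  obtain ⟨E, hE, hms⟩ := hB1
  obtain ⟨F, c, hF, hc, hA5⟩ := hA5
  obtain ⟨C₀, hC₀, hld⟩ := LD_char
  obtain ⟨C₆, hC₆, hsp⟩ := hC6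
  obtain ⟨B₁, hB₁, hone₁⟩ := hC4 (C₀ + C₀) (by linarith)
  obtain ⟨B₂, hB₂, hone₂⟩ := hC4 C₆ hC₆
  obtain ⟨Cd, hCd, hden⟩ := GA.density
  obtain ⟨Cg, hCg, hg⟩ := Z1_growth
  obtain ⟨Cz, hCz, hdenz⟩ := GAT.density_zeta hCg hg
  set B : ℝ := max B₁ B₂ with hB
  have hBB : 500 ≤ B := hB₁.trans (le_max_left _ _)
  set Cm : ℝ := C₀ + C₀ + C₆ with hCm
  have hCm1 : 1 ≤ Cm := by linarith
  set L0 : ℝ := Real.log (40000 * (E * F)) with hL0
  have hEF : 1 ≤ E * F := one_le_mul_of_one_le_of_one_le hE hF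
  have hL0' : 0 ≤ L0 := Real.log_nonneg (by linarith)
  have hlC : 0 ≤ Real.log (8 * Cm) := Real.log_nonneg (by linarith)
  set L1 : ℝ := Real.log 300 with hL1
  have hL1' : 0 ≤ L1 := Real.log_nonneg (by norm_num)
  have hl16 : 0 ≤ Real.log 16 := Real.log_nonneg (by norm_num)
  refine ⟨1 + Real.log (8 * Cm) + L0 + L0 * (8 * B) + (Cd + Cz + 1 + Real.log 16 + L1 +
    L1 * (8 * B)), c, ?_, hc, fun D q₁ χ β hex δ hδ hδ1 => ?_⟩
  · have h1 : 0 ≤ L0 * (8 * B) := by positivity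
    have h2 : 0 ≤ L1 * (8 * B) := by positivity
    linarith
  obtain ⟨hD, hq, hqD, hχ, hχ2, hβ, hβ1, hz⟩ := hex
  have hex : Ex D χ β := ⟨hD, hq, hqD, hχ, hχ2, hβ, hβ1, hz⟩
  have hDr : (2 : ℝ) ≤ D := by exact_mod_cast hD
  have hD0 : (0 : ℝ) < D := by linarith
  have hlD : 0 < Real.log D := Real.log_pos (by linarith)
  have hδ0 : 0 < δ := lt_of_lt_of_le (by positivity) hδ
  have hδ8 : 1 ≤ δ * (8 * Real.log D) := by rwa [div_le_iff₀ (by positivity)] at hδ
  have hx : 0 < δ * Real.log D := by positivity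
  set K : ℕ := ⌈B * (δ * (8 * Real.log D))⌉₊ with hK
  have hK1 : B * (δ * (8 * Real.log D)) ≤ K := Nat.le_ceil _
  have hK2 : (K : ℝ) ≤ B * (δ * (8 * Real.log D)) + 1 :=
    (Nat.ceil_lt_add_one (by positivity)).le
  have hK3 : (500 : ℝ) ≤ K := by nlinarith
  have hK4 : 1 ≤ K := by
    have : (0 : ℝ) < K := by linarith
    have : 0 < K := by exact_mod_cast this
    omega
  have hq₁m : q₁ ∈ Icc 1 D := mem_Icc.2 ⟨hq, hqD⟩
  have hNZ : NeZero q₁ := ⟨by omega⟩
  have hχne : χ ≠ 1 := (mem_Prm.1 hχ).2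
  have hχp : χ.IsPrimitive := (mem_Prm.1 hχ).1
  have hwa : D ^ 8 ≤ wa δ K := c7_wa hD hBB hδ0 hK1
  have hηpos : 0 < (1 - β) * Real.log D := mul_pos (by linarith) hlD
  have hDc : 0 < (D : ℝ) ^ (-c) := Real.rpow_pos_of_pos hD0 _
  by_cases hcase : (2 * K + 1) * (1 - β) / δ ≤ 1 / 2 * (1 / 100 : ℝ) ^ K
  · -- the main case
    obtain ⟨hA1a, -⟩ := hA1 q₁ χ hq hχ2
    set a := wa δ K with ha
    set b := wb δ K with hb
    set Φ : (q : ℕ) → DirichletCharacter ℂ q → ℝ := fun q ψ =>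
      ∫ v in (-(2 * D : ℝ))..(2 * D : ℝ), ∑ j ∈ Icc K (2 * K),
        (δ ^ (j + 1) * ‖Pv (fun n => 1 + cr χ n) ψ j δ v a b‖) ^ 2 with hΦ
    have hΦ0 : ∀ q ψ, 0 ≤ Φ q ψ := by
      intro q ψ
      refine intervalIntegral.integral_nonneg (by linarith) fun v _ => ?_
      exact sum_nonneg fun j _ => by positivity
    have haD5 : D ^ 5 ≤ a := (Nat.pow_le_pow_right (by omega) (by norm_num)).trans hwa
    have haD2 : D * D ≤ a := by
      refine le_trans ?_ hwa
      calc D * D = D ^ 2 := by ring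
        _ ≤ D ^ 8 := Nat.pow_le_pow_right (by omega) (by norm_num)
    have hms' := hms D hD K hK4 δ hδ0 (by linarith) a b haD5 (fun n => 1 + cr χ n)
    have hA5' := hA5 D q₁ χ β hex δ K hδ hδ1 hK4 hwa
    -- ordinary characters
    have hord : ∀ q ∈ Icc 1 D, ∀ ψ ∈ Prm q, ¬ SZ.Same χ ψ →
        nz (LF ψ) δ D * (1 / 200 : ℝ) ^ (2 * K) ≤ 8 * Cm * Real.log D * Φ q ψ := by
      intro q hqm ψ hψ hns
      obtain ⟨hq1, hq2⟩ := mem_Icc.1 hqm
      have hNq : NeZero q := ⟨by omega⟩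
      have hψ1 := (mem_Prm.1 hψ).2
      obtain ⟨q', ψ', h1, h2, h3, h4⟩ := hC5 q q₁ ψ χ hq1 hq (mem_Prm.1 hψ).1 hχp hχ2 hns
      have hNq' : NeZero q' := ⟨by omega⟩
      have hψ'1 := (mem_Prm.1 h3).2
      have hqq : q * q₁ ≤ D * D := Nat.mul_le_mul hq2 hqD
      obtain ⟨h5, h6⟩ := hC1 (LF ψ) (LF ψ') (LF_diff hψ1) (LF_diff hψ'1)
        (fun s hs => LF_ne_zero hψ1 hs) (fun s hs => LF_ne_zero hψ'1 hs)
      have h7 := hone₁ D hD q q' hq1 h1 ψ ψ' (fun s => LF ψ s * LF ψ' s)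
        (fun j s => Gj ψ j s + Gj ψ' j s) δ hδ hδ1
        ((LF_diff hψ1).mul (LF_diff hψ'1))
        (fun s hs => mul_ne_zero (LF_ne_zero hψ1 hs) (LF_ne_zero hψ'1 hs))
        (fun v hv => h5 _ _ C₀ C₀ _ v
          (hld q ψ hψ1 v _ (c7_lt hD hq1 (hq2.trans (Nat.le_mul_of_pos_left D (by omega))) hv))
          (hld q' ψ' hψ'1 v _ (c7_lt hD h1 (h2.trans hqq) hv)))
        K ((mul_le_mul_of_nonneg_right (le_max_left _ _) (by positivity)).trans hK1)
        (fun v j _ => by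
          have e : Gj ψ j (1 + δ + v * I) + Gj ψ' j (1 + δ + v * I) - Gj ψ j (1 + δ + v * I) -
              Gj ψ' j (1 + δ + v * I) = 0 := by ring
          rw [e, zero_div, norm_zero, mul_zero]
          positivity)
      have h8 : ∀ (j : ℕ) (v : ℝ), Pw ψ j δ v a b + Pw ψ' j δ v a b =
          Pv (fun n => 1 + cr χ n) ψ j δ v a b := fun j v => c7_Pv (fun p hp hap => by
            rw [h4 p hp (lt_of_le_of_lt (hqq.trans haD2) hap), ← (hA1a p).1]) j δ v
      simp only [← ha, ← hb, h8] at h7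
      have h9 : nz (LF ψ) δ D ≤ nz (fun s => LF ψ s * LF ψ' s) δ D := by
        rw [h6]
        linarith [c7_nz_nonneg (LF ψ') δ D]
      calc nz (LF ψ) δ D * (1 / 200 : ℝ) ^ (2 * K)
          ≤ nz (fun s => LF ψ s * LF ψ' s) δ D * (1 / 200 : ℝ) ^ (2 * K) := by gcongr
        _ ≤ 8 * (C₀ + C₀) * Real.log D * Φ q ψ := h7
        _ ≤ 8 * Cm * Real.log D * Φ q ψ := by
            have := hΦ0 q ψ
            have h10 : C₀ + C₀ ≤ Cm := by linarith
            gcongr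
    -- the special function
    have hspec : (nz (dslope (LF χ) (β : ℂ)) δ D + nz riemannZeta₁ δ D) *
        (1 / 200 : ℝ) ^ (2 * K) ≤ 8 * Cm * Real.log D * Φ 1 1 := by
      obtain ⟨G, h1, h2, h3⟩ := hsp D q₁ χ β hex
      have h0 := h1 0 (by rw [abs_zero]; linarith)
      have h7 := hone₂ D hD 1 q₁ le_rfl hq (1 : DirichletCharacter ℂ 1) χ
        (fun s => riemannZeta₁ s * dslope (LF χ) (β : ℂ) s) G δ hδ hδ1 h0.diff h0.ne h1
        K ((mul_le_mul_of_nonneg_right (le_max_right _ _) (by positivity)).trans hK1)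
        (fun v j hj => by
          refine (h3 δ hδ0 (by linarith) v j).trans (le_trans ?_ hcase)
          have hj2 : (j : ℝ) ≤ 2 * K := by exact_mod_cast (mem_Icc.1 hj).2
          have hb0 : 0 ≤ 1 - β := by linarith
          gcongr)
      have h8 : ∀ (j : ℕ) (v : ℝ), Pw (1 : DirichletCharacter ℂ 1) j δ v a b +
          Pw χ j δ v a b = Pv (fun n => 1 + cr χ n) (1 : DirichletCharacter ℂ 1) j δ v a b :=
        fun j v => c7_Pv (fun p hp _ => by
          rw [(hA1a p).1, MulChar.one_apply (isUnit_of_subsingleton _), one_mul]) j δ v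
      simp only [← ha, ← hb, h8] at h7
      rw [h2] at h7
      calc (nz (dslope (LF χ) (β : ℂ)) δ D + nz riemannZeta₁ δ D) * (1 / 200 : ℝ) ^ (2 * K)
          = (nz riemannZeta₁ δ D + nz (dslope (LF χ) (β : ℂ)) δ D) *
              (1 / 200 : ℝ) ^ (2 * K) := by ring
        _ ≤ 8 * C₆ * Real.log D * Φ 1 1 := h7
        _ ≤ 8 * Cm * Real.log D * Φ 1 1 := by
            have := hΦ0 1 1
            have h10 : C₆ ≤ Cm := by linarith
            gcongr
    rw [c7_split hq₁m hχ β δ D]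
    set W := ∑ q ∈ Icc 1 D, ∑ ψ ∈ Prm q, (if SZ.Same χ ψ then 0 else nz (LF ψ) δ D) +
      nz (dslope (LF χ) (β : ℂ)) δ D + nz riemannZeta₁ δ D with hW
    have hsum : W * (1 / 200 : ℝ) ^ (2 * K) ≤
        8 * Cm * (E ^ K * (F ^ K * ((1 - β) * Real.log D + (D : ℝ) ^ (-c)))) := by
      calc W * (1 / 200 : ℝ) ^ (2 * K)
          = ∑ q ∈ Icc 1 D, ∑ ψ ∈ Prm q, (if SZ.Same χ ψ then 0 else nz (LF ψ) δ D) *
              (1 / 200 : ℝ) ^ (2 * K) +
            (nz (dslope (LF χ) (β : ℂ)) δ D + nz riemannZeta₁ δ D) *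
              (1 / 200 : ℝ) ^ (2 * K) := by
            rw [hW, add_assoc, add_mul, Finset.sum_mul]
            congr 1
            exact Finset.sum_congr rfl fun q _ => Finset.sum_mul _ _ _
        _ ≤ ∑ q ∈ Icc 1 D, ∑ ψ ∈ Prm q,
              8 * Cm * Real.log D * (if SZ.Same χ ψ then 0 else Φ q ψ) +
              8 * Cm * Real.log D * Φ 1 1 := by
            refine add_le_add (Finset.sum_le_sum fun q hq => Finset.sum_le_sum fun ψ hψ => ?_)
              hspec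
            by_cases h : SZ.Same χ ψ
            · rw [if_pos h, if_pos h, zero_mul, mul_zero]
            · rw [if_neg h, if_neg h]
              exact hord q hq ψ hψ h
        _ = 8 * Cm * (Real.log D * (∑ q ∈ Icc 1 D, ∑ ψ ∈ Prm q,
              (if SZ.Same χ ψ then 0 else Φ q ψ) + Φ 1 1)) := by
            simp only [← Finset.mul_sum]
            ring
        _ ≤ 8 * Cm * (Real.log D * ∑ q ∈ Icc 1 D, ∑ ψ ∈ GAT.Prp q, Φ q ψ) := by
            have := c7_ms (by omega : 1 ≤ D) χ Φ hΦ0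
            gcongr
        _ ≤ 8 * Cm * (E ^ K * (δ * ∑ p ∈ (Ioc a b).filter Nat.Prime,
              (1 + cr χ p) ^ 2 * (Real.log p * (p : ℝ) ^ (-(1 + δ))))) := by
            gcongr
        _ ≤ _ := by gcongr
    have h200 : (1 / 200 : ℝ) ^ (2 * K) * 40000 ^ K = 1 := by
      rw [pow_mul, ← mul_pow]; norm_num
    have hfin : W ≤ 8 * Cm * (40000 * (E * F)) ^ K * ((1 - β) * Real.log D + (D : ℝ) ^ (-c)) := by
      calc W = W * (1 / 200 : ℝ) ^ (2 * K) * 40000 ^ K := by rw [mul_assoc, h200, mul_one]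
        _ ≤ 8 * Cm * (E ^ K * (F ^ K * ((1 - β) * Real.log D + (D : ℝ) ^ (-c)))) *
            40000 ^ K := by gcongr
        _ = 8 * Cm * (40000 * (E * F)) ^ K * ((1 - β) * Real.log D + (D : ℝ) ^ (-c)) := by
            rw [mul_pow, mul_pow]; ring
    refine hfin.trans ?_
    rw [mul_comm ((1 - β) * Real.log D + (D : ℝ) ^ (-c))]
    refine mul_le_mul_of_nonneg_right ?_ (by positivity)
    have e1 : (40000 * (E * F)) ^ K = Real.exp (L0 * K) := by
      rw [hL0, Real.exp_mul, Real.exp_log (by positivity)]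
      norm_cast
    have e2 : 8 * Cm = Real.exp (Real.log (8 * Cm)) := (Real.exp_log (by positivity)).symm
    rw [e1]
    conv_lhs => rw [e2]
    rw [← Real.exp_add]
    refine Real.exp_le_exp.2 ?_
    have e5 : 0 ≤ 1 + (Cd + Cz + 1 + Real.log 16 + L1 + L1 * (8 * B)) := by
      have h2 : 0 ≤ L1 * (8 * B) := by positivity
      positivity
    have e6 := c7_le hlC hL0' (by linarith : (0 : ℝ) ≤ B) hx.le e5 (K := (K : ℝ)) (by linarith)
    refine e6.trans (le_of_eq ?_)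
    ring
  · -- the trivial case
    rw [not_le] at hcase
    have h1 : (∑ q ∈ Icc 1 D, ∑ ψ ∈ Prm q, nz (LFd χ β ψ) δ D) ≤
        Real.exp (Cd * (1 + δ * Real.log D)) := by
      refine le_trans (Finset.sum_le_sum fun q hqm => Finset.sum_le_sum fun ψ hψ => ?_)
        (hden D hD δ hδ0.le (by linarith))
      unfold LFd
      by_cases h : SZ.Same χ ψ
      · rw [if_pos h]
        obtain ⟨hqq, -⟩ := id h
        subst hqq
        have : χ = ψ := c7_same hq h
        subst this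
        exact (hC2 (LF χ) β (LF_diff hχne) (fun s hs => LF_ne_zero hχne hs) hβ1 hz).2.2.2.1 δ D
      · rw [if_neg h]
    have h2 := hdenz D hD δ hδ0.le (by linarith)
    have h3 : (2 * K + 1 : ℝ) ≤ 3 ^ K := by
      have := one_add_mul_le_pow (by norm_num : (-2 : ℝ) ≤ 2) K
      norm_num at this
      linarith
    have h4 : 1 ≤ 16 * 300 ^ K * ((1 - β) * Real.log D) := by
      rw [lt_div_iff₀ hδ0] at hcase
      have h5 : 1 / 2 * (1 / 100 : ℝ) ^ K * δ < 3 ^ K * (1 - β) :=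
        hcase.trans_le (mul_le_mul_of_nonneg_right h3 (by linarith))
      have h6 : (1 / 100 : ℝ) ^ K * 100 ^ K = 1 := by rw [← mul_pow]; norm_num
      have h7 : (300 : ℝ) ^ K = 100 ^ K * 3 ^ K := by rw [← mul_pow]; norm_num
      have h8 : (0 : ℝ) < 100 ^ K := by positivity
      have h9 : 1 / 2 * δ ≤ 300 ^ K * (1 - β) := by
        calc 1 / 2 * δ = 100 ^ K * (1 / 2 * (1 / 100 : ℝ) ^ K * δ) := by
              linear_combination (-(1 / 2 * δ)) * h6
          _ ≤ 100 ^ K * (3 ^ K * (1 - β)) := by gcongr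
          _ = 300 ^ K * (1 - β) := by rw [h7]; ring
      have h10 : 1 / 2 * δ * Real.log D ≤ 300 ^ K * (1 - β) * Real.log D := by gcongr
      linarith
    have h5 : (16 : ℝ) * 300 ^ K ≤ Real.exp (Real.log 16 + L1 * K) := by
      rw [Real.exp_add, Real.exp_log (by norm_num), hL1, Real.exp_mul, Real.exp_log (by norm_num)]
      norm_cast
    have e4 : 0 ≤ δ * Real.log D := hx.le
    have h6 : Real.exp (Cd * (1 + δ * Real.log D)) + Real.exp (Cz * (1 + δ * Real.log D)) ≤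
        Real.exp ((Cd + Cz + 1) * (1 + δ * Real.log D)) := by
      have g1 : Real.exp (Cd * (1 + δ * Real.log D)) ≤
          Real.exp ((Cd + Cz) * (1 + δ * Real.log D)) := by
        gcongr
        linarith
      have g2 : Real.exp (Cz * (1 + δ * Real.log D)) ≤
          Real.exp ((Cd + Cz) * (1 + δ * Real.log D)) := by
        gcongr
        linarith
      have g3 : (2 : ℝ) ≤ Real.exp (1 + δ * Real.log D) := by
        have := Real.add_one_le_exp (1 + δ * Real.log D)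
        linarith
      have g4 : Real.exp ((Cd + Cz + 1) * (1 + δ * Real.log D)) =
          Real.exp ((Cd + Cz) * (1 + δ * Real.log D)) * Real.exp (1 + δ * Real.log D) := by
        rw [← Real.exp_add]
        congr 1
        ring
      rw [g4]
      have g5 := Real.exp_pos ((Cd + Cz) * (1 + δ * Real.log D))
      nlinarith
    have h7 : 1 ≤ Real.exp (Real.log 16 + L1 * K) * ((1 - β) * Real.log D) :=
      h4.trans (mul_le_mul_of_nonneg_right h5 hηpos.le)
    have h8 : Real.exp ((Cd + Cz + 1) * (1 + δ * Real.log D)) *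
        Real.exp (Real.log 16 + L1 * K) ≤ Real.exp ((1 + Real.log (8 * Cm) + L0 + L0 * (8 * B) +
          (Cd + Cz + 1 + Real.log 16 + L1 + L1 * (8 * B))) * (1 + δ * Real.log D)) := by
      rw [← Real.exp_add]
      refine Real.exp_le_exp.2 ?_
      have e5 : 0 ≤ 1 + Real.log (8 * Cm) + L0 + L0 * (8 * B) := by
        have h2 : 0 ≤ L0 * (8 * B) := by positivity
        positivity
      have e6 := c7_le hl16 hL1' (by linarith : (0 : ℝ) ≤ B) hx.le e5 (K := (K : ℝ)) (by linarith)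
      refine (add_le_add le_rfl e6).trans (le_of_eq ?_)
      ring
    set X1 := Real.exp ((Cd + Cz + 1) * (1 + δ * Real.log D)) with hX1
    have hX1p : 0 < X1 := Real.exp_pos _
    calc (∑ q ∈ Icc 1 D, ∑ ψ ∈ Prm q, nz (LFd χ β ψ) δ D) + nz riemannZeta₁ δ D ≤ X1 := by
          linarith
      _ = X1 * 1 := (mul_one _).symm
      _ ≤ X1 * (Real.exp (Real.log 16 + L1 * K) * ((1 - β) * Real.log D)) := by gcongr
      _ = X1 * Real.exp (Real.log 16 + L1 * K) * ((1 - β) * Real.log D) := by ring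
      _ ≤ Real.exp ((1 + Real.log (8 * Cm) + L0 + L0 * (8 * B) +
          (Cd + Cz + 1 + Real.log 16 + L1 + L1 * (8 * B))) * (1 + δ * Real.log D)) *
          ((1 - β) * Real.log D + (D : ℝ) ^ (-c)) := by
          gcongr
          linarith
      _ = _ := mul_comm _ _

end Pool.Agent.DH

/-! ## Block DEN (helper61) -/

namespace Pool.Agent.DH

open Finset Complex Metric Pool.Agent.GA
open scoped Classical

theorem den_same {q₁ q : ℕ} [NeZero q] {χ : DirichletCharacter ℂ q₁} {ψ : DirichletCharacter ℂ q}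
    (h : SZ.Same χ ψ) (s : ℂ) : LF ψ s = LF χ s := by
  obtain ⟨rfl, h2⟩ := h
  have : χ = ψ := by
    refine DFunLike.ext _ _ fun a => ?_
    have := h2 a.val
    rwa [ZMod.natCast_zmod_val] at this
  rw [this]

/-- the function `LFd` -/
theorem den_LFd (hC2 : C2) {D q₁ : ℕ} {χ : DirichletCharacter ℂ q₁} {β : ℝ} (hE : Ex D χ β) {q : ℕ}
    [NeZero q] {ψ : DirichletCharacter ℂ q} (hψ : ψ ≠ 1) :
    Differentiable ℂ (LFd χ β ψ) ∧ (∀ s : ℂ, 1 ≤ s.re → LFd χ β ψ s ≠ 0) ∧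
      ∀ a T : ℝ, nz (LFd χ β ψ) a T ≤ nz (LF ψ) a T := by
  unfold LFd
  split_ifs with h
  · obtain ⟨h1, h2, -, h4, -⟩ := hC2 (LF ψ) β (LF_diff hψ) (fun s hs => LF_ne_zero hψ hs) hE.hβ1
      (by rw [den_same h]; exact hE.hz)
    exact ⟨h1, h2, h4⟩
  · exact ⟨LF_diff hψ, fun s hs => LF_ne_zero hψ hs, fun a T => le_rfl⟩

theorem den_nz_mono {f : ℂ → ℂ} (h1 : Differentiable ℂ f) (h2 : ∀ s : ℂ, 1 ≤ s.re → f s ≠ 0)
    {a b T : ℝ} (h : a ≤ b) : nz f a T ≤ nz f b T :=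
  nz_mono h1 (h2 1 (by simp)) h le_rfl

theorem DEN_pr (hC7 : C7) (hC2 : C2) : DEN := by
  obtain ⟨C₁, c, hC₁, hc, h7⟩ := hC7
  obtain ⟨Ca, hCa, hda⟩ := GAT.density
  obtain ⟨Cb, hCb, hdb⟩ := GA.density_zeta
  refine ⟨2 * C₁ + 600 * (Ca + Cb + 1 + c), c, by nlinarith, hc, ?_⟩
  intro D q₁ χ β hE δ hδ hδ16
  have hD := hE.hD
  have hDr : (2 : ℝ) ≤ D := by exact_mod_cast hD
  have hD0 : (0 : ℝ) < D := by linarith
  have hlD : 0 < Real.log D := Real.log_pos (by linarith)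
  have hx : 0 ≤ δ * Real.log D := by positivity
  have hNZ : ∀ q ∈ Icc 1 D, NeZero q := fun q hq => ⟨by rw [mem_Icc] at hq; omega⟩
  have hf : Differentiable ℂ riemannZeta₁ := differentiable_riemannZeta₁
  have hne : ∀ s : ℂ, 1 ≤ s.re → riemannZeta₁ s ≠ 0 := fun s hs => Z1_ne hs
  set W : ℝ → ℝ := fun δ => (∑ q ∈ Icc 1 D, ∑ ψ ∈ Prm q, nz (LFd χ β ψ) δ D) +
    nz riemannZeta₁ δ D with hW
  have hmono : ∀ a b : ℝ, a ≤ b → W a ≤ W b := by
    intro a b hab
    refine add_le_add (Finset.sum_le_sum fun q hq => Finset.sum_le_sum fun ψ hψ => ?_)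
      (den_nz_mono hf hne hab)
    have := hNZ q hq
    obtain ⟨h1, h2, -⟩ := den_LFd hC2 hE (mem_Prm.1 hψ).2
    exact den_nz_mono h1 h2 hab
  have hF1 : (D : ℝ) ^ (-c) = Real.exp (-(c * Real.log D)) := by
    rw [Real.rpow_def_of_pos hD0]; ring_nf
  have hF : Real.exp (-(c * Real.log D)) ≤ (1 - β) * Real.log D + (D : ℝ) ^ (-c) := by
    rw [hF1]
    have : 0 ≤ (1 - β) * Real.log D := mul_nonneg (by linarith [hE.hβ1]) hlD.le
    linarith
  have hF0 : 0 < (1 - β) * Real.log D + (D : ℝ) ^ (-c) := (Real.exp_pos _).trans_le hF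
  change W δ ≤ _
  have htriv : W (1 / 16) ≤ Real.exp ((Ca + Cb + 1) * (1 + 1 / 16 * Real.log D)) := by
    have e1 : ∑ q ∈ Icc 1 D, ∑ ψ ∈ Prm q, nz (LFd χ β ψ) (1 / 16) D ≤
        ∑ q ∈ Icc 1 D, ∑ ψ ∈ Prm q, nz (LF ψ) (1 / 16) D := by
      refine Finset.sum_le_sum fun q hq => Finset.sum_le_sum fun ψ hψ => ?_
      have := hNZ q hq
      exact (den_LFd hC2 hE (mem_Prm.1 hψ).2).2.2 _ _
    have e2 := hda D hD (1 / 16) (by norm_num) le_rfl
    have e3 := hdb D hD (1 / 16) (by norm_num) le_rfl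
    have hy : 1 ≤ 1 + 1 / 16 * Real.log D := by nlinarith
    set y := 1 + 1 / 16 * Real.log D with hy'
    have e4 : Real.exp (Ca * y) ≤ Real.exp ((Ca + Cb) * y) := Real.exp_le_exp.2 (by nlinarith)
    have e5 : Real.exp (Cb * y) ≤ Real.exp ((Ca + Cb) * y) := Real.exp_le_exp.2 (by nlinarith)
    have e6 : 2 ≤ Real.exp y := by
      have := Real.add_one_le_exp y
      linarith
    calc W (1 / 16) ≤ Real.exp (Ca * y) + Real.exp (Cb * y) := add_le_add (e1.trans e2) e3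
      _ ≤ 2 * Real.exp ((Ca + Cb) * y) := by linarith
      _ ≤ Real.exp y * Real.exp ((Ca + Cb) * y) := by gcongr
      _ = Real.exp ((Ca + Cb + 1) * y) := by rw [← Real.exp_add]; ring_nf
  -- the trivial bound in the form which is needed
  have htriv' : ∀ E : ℝ, (Ca + Cb + 1) * (1 + 1 / 16 * Real.log D) + c * Real.log D ≤ E →
      W (1 / 16) ≤ ((1 - β) * Real.log D + (D : ℝ) ^ (-c)) * Real.exp E := by
    intro E hEE
    calc W (1 / 16) ≤ Real.exp ((Ca + Cb + 1) * (1 + 1 / 16 * Real.log D)) := htriv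
      _ ≤ Real.exp (-(c * Real.log D)) * Real.exp E := by
          rw [← Real.exp_add]
          exact Real.exp_le_exp.2 (by linarith)
      _ ≤ _ := by gcongr
  by_cases hA : δ ≤ 1 / 600 ∧ 1 / (8 * Real.log D) ≤ 1 / 600
  · obtain ⟨hA1, hA2⟩ := hA
    set δ' := max δ (1 / (8 * Real.log D)) with hδ'
    have e1 : δ' ≤ δ + 1 / (8 * Real.log D) := by
      have : 0 < 1 / (8 * Real.log D) := by positivity
      rw [hδ']
      exact max_le (by linarith) (by linarith)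
    have e2 : δ' * Real.log D ≤ δ * Real.log D + 1 / 8 := by
      calc δ' * Real.log D ≤ (δ + 1 / (8 * Real.log D)) * Real.log D := by gcongr
        _ = _ := by field_simp
    refine (hmono δ δ' (le_max_left _ _)).trans
      ((h7 D q₁ χ β hE δ' (le_max_right _ _) (max_le hA1 hA2)).trans ?_)
    refine mul_le_mul_of_nonneg_left (Real.exp_le_exp.2 ?_) hF0.le
    have e3 : C₁ * (1 + δ' * Real.log D) ≤ C₁ * (1 + (δ * Real.log D + 1 / 8)) := by gcongr
    have e4 : 0 ≤ 600 * (Ca + Cb + 1 + c) * (1 + δ * Real.log D) := by positivity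
    have e5 : 0 ≤ C₁ * (δ * Real.log D) := by positivity
    nlinarith
  · refine (hmono δ (1 / 16) hδ16).trans (htriv' _ ?_)
    have e4 : 0 ≤ 2 * C₁ * (1 + δ * Real.log D) := by positivity
    have hS : 0 ≤ Ca + Cb + 1 := by linarith
    rw [not_and_or, not_le, not_le] at hA
    have key : Real.log D ≤ 600 * (δ * Real.log D) ∨ Real.log D ≤ 75 := by
      rcases hA with hA | hA
      · left
        nlinarith
      · right
        rw [lt_div_iff₀ (by positivity)] at hA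
        linarith
    rcases key with key | key
    · have e1 : (Ca + Cb + 1) * (1 / 16 * Real.log D) ≤
          (Ca + Cb + 1) * (1 / 16 * (600 * (δ * Real.log D))) := by gcongr
      have e2 : c * Real.log D ≤ c * (600 * (δ * Real.log D)) := by gcongr
      have e3 : 0 ≤ (Ca + Cb + 1) * (δ * Real.log D) := by positivity
      nlinarith
    · have e1 : (Ca + Cb + 1) * (1 / 16 * Real.log D) ≤ (Ca + Cb + 1) * (1 / 16 * 75) := by gcongr
      have e2 : c * Real.log D ≤ c * 75 := by gcongr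
      have e3 : 0 ≤ (Ca + Cb + 1) * (δ * Real.log D) := by positivity
      have e5 : 0 ≤ c * (δ * Real.log D) := by positivity
      nlinarith

end Pool.Agent.DH
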