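import Pool.Agent.Lib_helper59.DH.W
import Pool.Agent.Lib_helper3.FGP.P01
import Pool.Agent.Lib_helper3.FGP.P03
import Pool.Agent.Lib_helper3.FGP.P03b
import Pool.Agent.Lib_helper59.LHM.ZB
import Pool.Agent.Lib_helper59.LHM.ZD
import Pool.Agent.Lib_helper59.SZ.M5

/-!
# DH: blocks E3, E4, EEB, F1 of dhr_block
-/

set_option autoImplicit false

/-! ## Block E3 (helper15) -/

namespace Pool.Agent.DH

open Finset Pool.Agent.Var35 Pool.Agent.Var73 Pool.Agent.PV Pool.Agent.FGP Pool.Agent.LHM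
open scoped ArithmeticFunction ArithmeticFunction.Moebius

set_option maxHeartbeats 2000000 in
theorem E3_pr (c₀ : ℝ) (hzb : WZB c₀) (he1 : E1 c₀) (he2 : E2) (h1 : W01) (h2 : W02) : E3 c₀ := by
  classical
  obtain ⟨Cz, hCz, hwz⟩ := hzb
  obtain ⟨C₁, c, A, hC₁, hc, hA, hgal⟩ := he1
  obtain ⟨C₁', c', A', hC₁', hc', hA', hgal'⟩ := he2
  obtain ⟨C₂, hC₂, K02, hw2⟩ := h2
  obtain ⟨_, _, K01, hw1⟩ := h1
  obtain ⟨C₆, hC₆, htr⟩ := Pool.Agent.GA.x6_trunc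
  obtain ⟨K03, hK03, hnum⟩ := p03_num
  set C₃ : ℝ := 3 * C₂ + 1 + C₆ + 3 * Cz with hC₃
  set C₄ : ℝ := (2 * C₁ ^ 2 + 2 * C₁' ^ 2) * (|c₀| + 1) with hC₄
  have hC₄0 : 0 < C₄ := by positivity
  refine ⟨20 * C₄ + 4 * C₃ ^ 2, min 1 (20 * min c c'), max 1 (max (40 * A) (40 * A')),
    by positivity, by positivity, le_max_left _ _, max K03 (max K01 K02), ?_⟩
  intro K hK N hR hBN q₁ χ β hex hβ n hn hnN
  have hKa : K03 ≤ K := (le_max_left _ _).trans hK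
  have hKb : K01 ≤ K := (le_max_left _ _).trans ((le_max_right _ _).trans hK)
  have hKc : K02 ≤ K := (le_max_right _ _).trans ((le_max_right _ _).trans hK)
  obtain ⟨q1, q2, q3, q4, q5⟩ := hnum K hKa N hR
  have h : P03S K N n := ⟨hR, q1, q2, q3, q4, hn, hnN⟩
  have hK10 := h.K0
  have hlog := h.logn
  have hL := h.hL
  obtain ⟨w0, w1, -, -, -⟩ := hw1 K hKb N hR
  set k := ⌈(n * Real.log n / Hw N K) ^ 2⌉₊ with hk
  set M := Real.log n with hM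
  have hM2 : 2 ≤ M := by linarith
  -- D
  set D : ℕ := K ^ 20 with hDdef
  have hDcast : (D : ℝ) = (K : ℝ) ^ 20 := by rw [hDdef]; push_cast; rfl
  have hD10 : (10 : ℝ) ≤ D := by
    rw [hDcast]
    calc (10 : ℝ) ≤ K := hK10
      _ = (K : ℝ) ^ 1 := (pow_one _).symm
      _ ≤ (K : ℝ) ^ 20 := pow_le_pow_right₀ (by linarith) (by norm_num)
  have hD4 : 4 ≤ D := by
    have : (4 : ℝ) ≤ D := by linarith
    exact_mod_cast this
  have hD2 : 2 ≤ D := by omega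
  have hlogD : Real.log D = 20 * Real.log K := by
    rw [hDcast, Real.log_pow]
    norm_num
  have hlD : 0 < Real.log D := Real.log_pos (by linarith)
  have hlK : 0 < Real.log K := q5
  have hBD : max 1 (max (40 * A) (40 * A')) * Real.log K ≤ Real.log N := by
    rw [← Real.log_rpow (by linarith)]
    exact Real.log_le_log (by positivity) hBN
  have hA1 : A * Real.log D ≤ M := by
    have h3 : 40 * A * Real.log K ≤ Real.log N := le_trans (by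
      gcongr
      exact (le_max_left _ _).trans (le_max_right _ _)) hBD
    rw [hlogD]
    linarith
  have hA2 : A' * Real.log D ≤ M := by
    have h3 : 40 * A' * Real.log K ≤ Real.log N := le_trans (by
      gcongr
      exact (le_max_right _ _).trans (le_max_right _ _)) hBD
    rw [hlogD]
    linarith
  have hkM : M ^ 2 ≤ (k : ℝ) := h.kM
  have hkD : 4 * (k : ℝ) ≤ (D : ℝ) ^ 2 * M := h.kD D le_rfl
  have hg := hgal D q₁ χ β hD4 hex hβ k M hM2 hA1 hkM hkD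
  have hg' := hgal' D q₁ χ β hD4 hex k M hM2 hA2 hkM hkD
  have hkp : (0 : ℝ) < k := lt_of_lt_of_le (by positivity) hkM
  -- the factor
  have hβ1 : β < 1 := hex.hβ1
  have hmin0 : 0 < min c c' := lt_min hc hc'
  set E : ℝ := (1 - β) * Real.log D + (D : ℝ) ^ (-(min c c')) with hE
  have hE0 : 0 < E := by
    have e1 : 0 < 1 - β := by linarith
    positivity
  have hc₀ : (1 - β) * Real.log D ≤ |c₀| := by
    refine le_trans ?_ (le_abs_self c₀)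
    have e1 : (1 - β) < c₀ / Real.log D := by linarith
    rw [lt_div_iff₀ hlD] at e1
    exact e1.le
  have hE1 : E ≤ |c₀| + 1 := by
    rw [hE]
    refine add_le_add hc₀ ?_
    exact Real.rpow_le_one_of_one_le_of_nonpos (by linarith) (by linarith)
  have hEE : E ^ 2 ≤ (|c₀| + 1) * E := by
    rw [sq]
    exact mul_le_mul_of_nonneg_right hE1 hE0.le
  have hEgen : ∀ c'' : ℝ, min c c' ≤ c'' → (1 - β) * Real.log D + (D : ℝ) ^ (-c'') ≤ E := by
    intro c'' h3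
    rw [hE]
    refine add_le_add le_rfl ?_
    exact Real.rpow_le_rpow_of_exponent_le (by linarith) (by linarith)
  have hEc := hEgen c (min_le_left _ _)
  have hEc' := hEgen c' (min_le_right _ _)
  -- comparison
  have hK4 : (0 : ℝ) < (K : ℝ) ^ 4 := by positivity
  set δ : ℝ := C₃ / (K : ℝ) ^ 4 with hδ
  have hδ0 : 0 ≤ δ := by positivity
  have hL5 : Real.log N ^ 5 / (K : ℝ) ^ 5 ≤ 1 / (K : ℝ) ^ 4 := by
    rw [div_le_div_iff₀ (by positivity) hK4]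
    have h5 := h.hL10
    have h6 : Real.log N ^ 5 ≤ K := by
      refine le_trans ?_ h5
      exact pow_le_pow_right₀ (by linarith) (by norm_num)
    calc Real.log N ^ 5 * (K : ℝ) ^ 4 ≤ K * (K : ℝ) ^ 4 := by gcongr
      _ = 1 * (K : ℝ) ^ 5 := by ring
  have hcmp : ∀ (q : ℕ) [NeZero q] (ψ : DirichletCharacter ℂ q),
      ‖TS ψ N K n - Pool.Agent.GA.SKP ψ k M 0‖ ≤ (3 * C₂ + 1 + C₆) / (K : ℝ) ^ 4 := by
    intro q _ ψ
    have h3 : ‖TS ψ N K n - Pool.Agent.GA.SKP ψ k M 0‖ ≤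
        (3 * C₂ + 1 + C₆) * (Real.log N ^ 5 / (K : ℝ) ^ 5) := by
      refine h.cmp hC₂ hC₆ (fun p hp => hw2 K hKc N hR n p hn (by omega) hp) ψ ?_
      refine (htr q ψ k M (p03_D N K n) hM2 h.D3 h.D2 h.Dk).trans ?_
      rw [mul_assoc]
      have h3 := h.tiny
      gcongr
    refine h3.trans ?_
    calc (3 * C₂ + 1 + C₆) * (Real.log N ^ 5 / (K : ℝ) ^ 5) ≤
        (3 * C₂ + 1 + C₆) * (1 / (K : ℝ) ^ 4) := by gcongr
      _ = _ := by ring
  have hδ2 : 2 * (K : ℝ) ^ 2 * δ ^ 2 ≤ 2 * C₃ ^ 2 / K := by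
    rw [hδ]
    have e : 2 * (K : ℝ) ^ 2 * (C₃ / (K : ℝ) ^ 4) ^ 2 = 2 * C₃ ^ 2 / (K : ℝ) ^ 6 := by
      field_simp
    rw [e]
    apply div_le_div_of_nonneg_left (by positivity) (by linarith)
    calc (K : ℝ) = (K : ℝ) ^ 1 := (pow_one _).symm
      _ ≤ (K : ℝ) ^ 6 := pow_le_pow_right₀ (by linarith) (by norm_num)
  -- the twisted part
  have hT : ∑ q ∈ Ioc 1 K, ∑ ψ ∈ Pr q, ‖TX c₀ ψ N K n‖ ^ 2 ≤
      2 * C₁ ^ 2 * (|c₀| + 1) * E + 2 * C₃ ^ 2 / K := by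
    have hKD' : K ≤ D := Nat.le_self_pow (by norm_num) K
    set f : ∀ q : ℕ, DirichletCharacter ℂ q → ℝ := fun q ψ =>
      if q ∈ Ioc 1 K ∧ ψ ∈ Pr q then ‖TX c₀ ψ N K n‖ else 0 with hf
    set g : ∀ q : ℕ, DirichletCharacter ℂ q → ℝ := fun q ψ =>
      ‖Pool.Agent.GA.SKP ψ k M 0 + ((wg c₀ D ψ k M : ℝ) : ℂ)‖ with hgdef
    have hfg : ∀ q : ℕ, 1 < q → ∀ ψ : DirichletCharacter ℂ q, f q ψ ≤ g q ψ + δ := by
      intro q hq ψ
      rw [hf]
      simp only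
      split_ifs with hcond
      · have : NeZero q := ⟨by omega⟩
        have hqD : q ∈ Icc 1 D := by
          have := mem_Ioc.1 hcond.1
          rw [mem_Icc]
          omega
        have hψ : ψ ∈ GA.Prm q := p03_Prm q hq hcond.2
        have h3 := hcmp q ψ
        obtain ⟨z1, z2, -⟩ := hwz D hD2
        have hs : ∑ ρ ∈ BZ c₀ D ψ, GA.mlt (GA.LF ψ) ρ ≤ Cz := by
          refine le_trans ?_ z2
          refine le_trans ?_ (single_le_sum (f := fun q => ∑ χ ∈ GA.Prm q, ∑ ρ ∈ BZ c₀ D χ,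
            GA.mlt (GA.LF χ) ρ) (fun q _ => sum_nonneg fun χ _ => sum_nonneg fun ρ _ =>
              GA.mlt_nonneg _ _) hqD)
          exact single_le_sum (f := fun χ => ∑ ρ ∈ BZ c₀ D χ, GA.mlt (GA.LF χ) ρ)
            (fun χ _ => sum_nonneg fun ρ _ => GA.mlt_nonneg _ _) hψ
        have h4 := zd_wz h w1 (fun m => (w0 m).1) c₀ D ψ Cz
          (fun ρ hρ => ⟨(z1 q hqD ψ hψ ρ hρ).2.2.1, (z1 q hqD ψ hψ ρ hρ).2.2.2.1⟩) hs
        have e : TX c₀ ψ N K n = (Pool.Agent.GA.SKP ψ k M 0 + ((wg c₀ D ψ k M : ℝ) : ℂ)) +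
            (TS ψ N K n - Pool.Agent.GA.SKP ψ k M 0) +
            ((∑ m ∈ Icc 1 N, wz c₀ D ψ m * vw N K ((m : ℤ) - n) - wg c₀ D ψ k M : ℝ) : ℂ) := by
          unfold TX
          push_cast
          ring
        rw [e]
        refine (norm_add_le _ _).trans ?_
        refine (add_le_add (norm_add_le _ _) le_rfl).trans ?_
        rw [Complex.norm_real, Real.norm_eq_abs]
        have h5 : δ = (3 * C₂ + 1 + C₆) / (K : ℝ) ^ 4 + Cz * (3 / (K : ℝ) ^ 4) := by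
          rw [hδ, hC₃]
          ring
        rw [h5, hgdef]
        simp only
        linarith
      · have : 0 ≤ g q ψ := norm_nonneg _
        linarith
    have hf0 : ∀ q ψ, 0 ≤ f q ψ := by
      intro q ψ
      rw [hf]
      simp only
      split_ifs
      · exact norm_nonneg _
      · exact le_rfl
    have h0 := p03_absT hKD' f g hf0 (fun _ _ => norm_nonneg _) (C₁ * E) δ
      (hg.trans (mul_le_mul_of_nonneg_left hEc (by linarith))) hfg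
    have h3 : ∑ q ∈ Ioc 1 K, ∑ ψ ∈ Pr q, ‖TX c₀ ψ N K n‖ ^ 2 =
        ∑ q ∈ Ioc 1 K, ∑ ψ ∈ Pr q, f q ψ ^ 2 := by
      refine sum_congr rfl fun q hq => sum_congr rfl fun ψ hψ => ?_
      rw [hf]
      simp only
      rw [if_pos ⟨hq, hψ⟩]
    rw [h3]
    refine h0.trans ?_
    have h5 : 2 * (C₁ * E) ^ 2 ≤ 2 * C₁ ^ 2 * (|c₀| + 1) * E := by
      calc 2 * (C₁ * E) ^ 2 = 2 * C₁ ^ 2 * E ^ 2 := by ring
        _ ≤ 2 * C₁ ^ 2 * ((|c₀| + 1) * E) := by gcongr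
        _ = _ := by ring
    linarith
  -- the principal part
  have hP : T0 N K n ^ 2 ≤ 2 * C₁' ^ 2 * (|c₀| + 1) * E + 2 * C₃ ^ 2 / K := by
    have h3 := p03_T0 N K n (h.mass w1)
    have h4 := hcmp 1 (1 : DirichletCharacter ℂ 1)
    have h5 : |T0 N K n| ≤ δ + C₁' * E := by
      rw [h3]
      have e : TS (1 : DirichletCharacter ℂ 1) N K n - 1 =
          (TS (1 : DirichletCharacter ℂ 1) N K n - Pool.Agent.GA.SKP (1 : DirichletCharacter ℂ 1) k M 0) +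
          (Pool.Agent.GA.SKP (1 : DirichletCharacter ℂ 1) k M 0 - 1) := by ring
      rw [e]
      have h6 : (3 * C₂ + 1 + C₆) / (K : ℝ) ^ 4 ≤ δ := by
        rw [hδ, hC₃]
        apply div_le_div_of_nonneg_right _ hK4.le
        linarith
      refine (norm_add_le _ _).trans (add_le_add (h4.trans h6) (hg'.trans ?_))
      gcongr
    have h6 : T0 N K n ^ 2 ≤ (δ + C₁' * E) ^ 2 := by
      rw [← sq_abs]
      gcongr
    have h8 : (δ + C₁' * E) ^ 2 ≤ 2 * δ ^ 2 + 2 * (C₁' ^ 2 * E ^ 2) := by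
      have h82 := sq_nonneg (δ - C₁' * E)
      have h83 : (δ + C₁' * E) ^ 2 + (δ - C₁' * E) ^ 2 = 2 * δ ^ 2 + 2 * (C₁' ^ 2 * E ^ 2) := by
        ring
      linarith
    have h81 : C₁' ^ 2 * E ^ 2 ≤ C₁' ^ 2 * (|c₀| + 1) * E := by
      calc C₁' ^ 2 * E ^ 2 ≤ C₁' ^ 2 * ((|c₀| + 1) * E) :=
            mul_le_mul_of_nonneg_left hEE (sq_nonneg _)
        _ = _ := by ring
    have h9 : 2 * δ ^ 2 ≤ 2 * (K : ℝ) ^ 2 * δ ^ 2 := by
      have h10 : (1 : ℝ) ≤ (K : ℝ) ^ 2 := one_le_pow₀ (by linarith)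
      have h11 : 0 ≤ δ ^ 2 := sq_nonneg _
      calc 2 * δ ^ 2 = 2 * 1 * δ ^ 2 := by ring
        _ ≤ 2 * (K : ℝ) ^ 2 * δ ^ 2 := by gcongr
    linarith
  -- the sum
  have hKpos : (0 : ℝ) < K := by linarith
  have hs1 : EX c₀ N K n ≤ C₄ * E + 4 * C₃ ^ 2 * (1 / K) := by
    unfold EX
    calc _ ≤ (2 * C₁ ^ 2 * (|c₀| + 1) * E + 2 * C₃ ^ 2 / K) +
          (2 * C₁' ^ 2 * (|c₀| + 1) * E + 2 * C₃ ^ 2 / K) := add_le_add hT hP
      _ = _ := by rw [hC₄]; ring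
  have hs2 : E = 20 * ((1 - β) * Real.log K) + (K : ℝ) ^ (-(20 * min c c')) := by
    rw [hE, hlogD, hDcast, ← Real.rpow_natCast, ← Real.rpow_mul hKpos.le]
    congr 1
    · ring
    · congr 1
      push_cast
      ring
  have hs3 : (K : ℝ) ^ (-(20 * min c c')) ≤ (K : ℝ) ^ (-(min 1 (20 * min c c'))) :=
    Real.rpow_le_rpow_of_exponent_le (by linarith) (neg_le_neg (min_le_right _ _))
  have hs4 : 1 / (K : ℝ) ≤ (K : ℝ) ^ (-(min 1 (20 * min c c'))) := by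
    rw [one_div, ← Real.rpow_neg_one]
    exact Real.rpow_le_rpow_of_exponent_le (by linarith) (neg_le_neg (min_le_left _ _))
  set F : ℝ := (K : ℝ) ^ (-(min 1 (20 * min c c'))) with hF
  have hF0 : 0 < F := by positivity
  have hL0 : 0 ≤ (1 - β) * Real.log K := mul_nonneg (by linarith) hlK.le
  calc EX c₀ N K n ≤ C₄ * E + 4 * C₃ ^ 2 * (1 / K) := hs1
    _ ≤ C₄ * (20 * ((1 - β) * Real.log K) + F) + 4 * C₃ ^ 2 * F := by
        rw [hs2]
        gcongr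
    _ ≤ (20 * C₄ + 4 * C₃ ^ 2) * ((1 - β) * Real.log K + F) := by
        have e1 : 0 ≤ C₄ * F := by positivity
        have e2 : 0 ≤ 4 * C₃ ^ 2 * ((1 - β) * Real.log K) := by positivity
        nlinarith [e1, e2]

end Pool.Agent.DH

/-! ## Block E4 (helper69) -/

namespace Pool.Agent.DH

open Finset Pool.Agent.Var35 Pool.Agent.Var73 Pool.Agent.PV Pool.Agent.FGP Pool.Agent.LHM
open scoped ArithmeticFunction ArithmeticFunction.Moebius

/-- crude bound for the energy of one window -/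
theorem e4_crude {K N : ℕ} {c₀ Cz : ℝ} (h0 : ∀ m, 0 ≤ vw N K m) (h1 : ∑ m ∈ Iw N K, vw N K m = 1)
    (hL : 1 ≤ Real.log N) (hK : 1 ≤ K) (hCz : 1 ≤ Cz)
    (hw : ∀ q ∈ Icc 1 (K ^ 20), ∀ χ ∈ GA.Prm q, ∀ x : ℝ, 1 ≤ x →
      0 ≤ wz c₀ (K ^ 20) χ x ∧ wz c₀ (K ^ 20) χ x ≤ Cz) (z : ℤ) :
    EX c₀ N K z ≤ ((1 + Cz) ^ 2 + 4) * (K : ℝ) ^ 2 * Real.log N ^ 2 := by
  obtain ⟨m0, m1⟩ := p03b_mass (N := N) h0 h1 z
  have hS : 0 ≤ ∑ p ∈ Icc 1 N, aS N p * vw N K ((p : ℤ) - z) ∧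
      ∑ p ∈ Icc 1 N, aS N p * vw N K ((p : ℤ) - z) ≤ Real.log N := by
    constructor
    · exact sum_nonneg fun p hp => mul_nonneg (p03b_aS N p hp).1 (h0 _)
    · calc _ ≤ ∑ p ∈ Icc 1 N, Real.log N * vw N K ((p : ℤ) - z) :=
            sum_le_sum fun p hp => mul_le_mul_of_nonneg_right (p03b_aS N p hp).2 (h0 _)
        _ = Real.log N * ∑ p ∈ Icc 1 N, vw N K ((p : ℤ) - z) := by rw [mul_sum]
        _ ≤ Real.log N * 1 := by gcongr
        _ = _ := mul_one _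
  have hT : ∀ (q : ℕ) (ψ : DirichletCharacter ℂ q), ‖TS ψ N K z‖ ≤ Real.log N := by
    intro q ψ
    unfold TS
    refine (norm_sum_le _ _).trans (le_trans (sum_le_sum fun p hp => ?_) hS.2)
    rw [norm_mul, Complex.norm_real, Real.norm_of_nonneg (mul_nonneg (p03b_aS N p hp).1 (h0 _))]
    calc _ ≤ aS N p * vw N K ((p : ℤ) - z) * 1 :=
          mul_le_mul_of_nonneg_left (DirichletCharacter.norm_le_one ψ _)
            (mul_nonneg (p03b_aS N p hp).1 (h0 _))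
      _ = _ := mul_one _
  have hT0 : |T0 N K z| ≤ 2 * Real.log N := by
    unfold T0
    rw [abs_le]
    constructor <;> linarith [hS.1, hS.2]
  have hK1 : (1 : ℝ) ≤ K := by exact_mod_cast hK
  have hTX : ∀ q ∈ Ioc 1 K, ∀ ψ ∈ Pr q, ‖TX c₀ ψ N K z‖ ≤ (1 + Cz) * Real.log N := by
    intro q hq ψ hψ
    have hq' := mem_Ioc.1 hq
    have hqD : q ∈ Icc 1 (K ^ 20) := by
      have : K ≤ K ^ 20 := Nat.le_self_pow (by norm_num) K
      rw [mem_Icc]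
      omega
    have hψ' := p03_Prm q hq'.1 hψ
    unfold TX
    refine (norm_add_le _ _).trans ?_
    rw [Complex.norm_real, Real.norm_eq_abs]
    have h3 : |∑ m ∈ Icc 1 N, wz c₀ (K ^ 20) ψ m * vw N K ((m : ℤ) - z)| ≤ Cz := by
      have hwm : ∀ m ∈ Icc 1 N, 0 ≤ wz c₀ (K ^ 20) ψ (m : ℝ) ∧ wz c₀ (K ^ 20) ψ (m : ℝ) ≤ Cz := by
        intro m hm
        have : (1 : ℝ) ≤ (m : ℝ) := by exact_mod_cast (mem_Icc.1 hm).1
        exact hw q hqD ψ hψ' (m : ℝ) this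
      have h30 : 0 ≤ ∑ m ∈ Icc 1 N, wz c₀ (K ^ 20) ψ m * vw N K ((m : ℤ) - z) :=
        sum_nonneg fun m hm => mul_nonneg (hwm m hm).1 (h0 _)
      rw [abs_of_nonneg h30]
      calc ∑ m ∈ Icc 1 N, wz c₀ (K ^ 20) ψ m * vw N K ((m : ℤ) - z) ≤
          ∑ m ∈ Icc 1 N, Cz * vw N K ((m : ℤ) - z) :=
            sum_le_sum fun m hm => mul_le_mul_of_nonneg_right (hwm m hm).2 (h0 _)
        _ = Cz * ∑ m ∈ Icc 1 N, vw N K ((m : ℤ) - z) := by rw [mul_sum]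
        _ ≤ Cz * 1 := by gcongr
        _ = _ := mul_one _
    have h4 := hT q ψ
    nlinarith
  unfold EX
  have a1 : ∑ q ∈ Ioc 1 K, ∑ ψ ∈ Pr q, ‖TX c₀ ψ N K z‖ ^ 2 ≤
      (K : ℝ) * (K * ((1 + Cz) * Real.log N) ^ 2) := by
    calc _ ≤ ∑ q ∈ Ioc 1 K, (K : ℝ) * ((1 + Cz) * Real.log N) ^ 2 := by
          refine sum_le_sum fun q hq => ?_
          have hq' := mem_Ioc.1 hq
          calc ∑ ψ ∈ Pr q, ‖TX c₀ ψ N K z‖ ^ 2 ≤ ∑ ψ ∈ Pr q, ((1 + Cz) * Real.log N) ^ 2 :=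
                sum_le_sum fun ψ hψ => by
                  have := hTX q hq ψ hψ
                  gcongr
            _ = ((Pr q).card : ℝ) * ((1 + Cz) * Real.log N) ^ 2 := by rw [sum_const, nsmul_eq_mul]
            _ ≤ _ := by
                have h5 := p03b_card_Pr q (by omega)
                have h6 : (q : ℝ) ≤ K := by exact_mod_cast hq'.2
                have h7 := h5.trans h6
                gcongr
      _ = (((K - 1 : ℕ)) : ℝ) * (K * ((1 + Cz) * Real.log N) ^ 2) := by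
          rw [sum_const, Nat.card_Ioc, nsmul_eq_mul]
      _ ≤ _ := by
          have h3 : (((K - 1 : ℕ)) : ℝ) ≤ K := by exact_mod_cast Nat.sub_le _ _
          gcongr
  have a2 : T0 N K z ^ 2 ≤ 4 * Real.log N ^ 2 := by
    have := pow_le_pow_left₀ (abs_nonneg _) hT0 2
    rw [sq_abs] at this
    nlinarith
  have a3 : 1 ≤ (K : ℝ) ^ 2 := one_le_pow₀ hK1
  have a4 : 0 ≤ Real.log N ^ 2 := by positivity
  have a5 : 4 * Real.log N ^ 2 ≤ 4 * (K : ℝ) ^ 2 * Real.log N ^ 2 := by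
    calc 4 * Real.log N ^ 2 = 4 * 1 * Real.log N ^ 2 := by ring
      _ ≤ 4 * (K : ℝ) ^ 2 * Real.log N ^ 2 := by gcongr
  calc _ ≤ (K : ℝ) * (K * ((1 + Cz) * Real.log N) ^ 2) + 4 * (K : ℝ) ^ 2 * Real.log N ^ 2 := by
        linarith
    _ = _ := by ring

theorem e4_nonneg (c₀ : ℝ) (N K : ℕ) (z : ℤ) : 0 ≤ EX c₀ N K z := by
  unfold EX
  have : 0 ≤ ∑ q ∈ Ioc 1 K, ∑ ψ ∈ Pr q, ‖TX c₀ ψ N K z‖ ^ 2 :=
    sum_nonneg fun _ _ => sum_nonneg fun _ _ => by positivity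
  positivity

set_option maxHeartbeats 1000000 in
theorem E4_pr (c₀ : ℝ) (h1 : W01) (hzb : WZB c₀) (h3 : E3 c₀) : E4 c₀ := by
  obtain ⟨C, c, B, hC, hc, hB, K0, hw⟩ := h3
  obtain ⟨Cz, hCz, hwz⟩ := hzb
  obtain ⟨_, _, K01, hw1⟩ := h1
  obtain ⟨K03, hK03, hnum⟩ := p03b_num
  refine ⟨C + 4 * ((1 + Cz) ^ 2 + 4), min c (1 / 2), B, by positivity, by positivity, hB,
    max K03 (max K01 K0), ?_⟩
  intro K hK N hR hBN q₁ χ β hE hβ
  have hKa : K03 ≤ K := (le_max_left _ _).trans hK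
  have hKb : K01 ≤ K := (le_max_left _ _).trans ((le_max_right _ _).trans hK)
  have hKc : K0 ≤ K := (le_max_right _ _).trans ((le_max_right _ _).trans hK)
  obtain ⟨q1, q2, q3⟩ := hnum K hKa N hR
  obtain ⟨w1, w2, _, _, _⟩ := hw1 K hKb N hR
  have hK10n : 10 ≤ K := hR.hK
  have hK10 : (10 : ℝ) ≤ K := by exact_mod_cast hK10n
  have hN1 : (K : ℝ) ^ 400 ≤ N := by exact_mod_cast hR.hN
  have hN0 : (0 : ℝ) < N := lt_of_lt_of_le (by positivity) hN1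
  have hH0 : 0 < Hw N K := by unfold Hw; positivity
  have hD2 : 2 ≤ K ^ 20 := by
    calc 2 ≤ K := by omega
      _ ≤ K ^ 20 := Nat.le_self_pow (by norm_num) K
  obtain ⟨-, -, z3⟩ := hwz (K ^ 20) hD2
  have hwb : ∀ q ∈ Icc 1 (K ^ 20), ∀ χ ∈ GA.Prm q, ∀ x : ℝ, 1 ≤ x →
      0 ≤ wz c₀ (K ^ 20) χ x ∧ wz c₀ (K ^ 20) χ x ≤ Cz := by
    intro q hq χ hχ x hx
    have := z3 q hq χ hχ x x hx le_rfl
    exact ⟨this.1, this.2.2.2⟩
  have hMle : (Mw N K : ℝ) ≤ N / (K : ℝ) ^ 7 := by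
    have h4 : (Mw N K : ℝ) ≤ Hw N K * Real.log N := by
      unfold Mw
      exact Nat.floor_le (by positivity)
    refine h4.trans ?_
    unfold Hw
    rw [div_mul_eq_mul_div, div_le_div_iff₀ (by positivity) (by positivity)]
    have h5 : Real.log N ≤ K := by linarith
    calc (N : ℝ) * Real.log N * (K : ℝ) ^ 7 ≤ N * K * (K : ℝ) ^ 7 := by gcongr
      _ = _ := by ring
  have hMN : Mw N K ≤ N := by
    have h4 : (N : ℝ) / (K : ℝ) ^ 7 ≤ N := div_le_self hN0.le (one_le_pow₀ (by linarith))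
    have h5 := hMle.trans h4
    exact_mod_cast h5
  set E : ℝ := (1 - β) * Real.log K + (K : ℝ) ^ (-c) with hEd
  have hlK : 0 ≤ Real.log (K : ℝ) := Real.log_nonneg (by linarith)
  have hβK : 0 ≤ (1 - β) * Real.log K := mul_nonneg (by linarith [hE.hβ1]) hlK
  have hE0 : 0 < E := by
    have : 0 < (K : ℝ) ^ (-c) := Real.rpow_pos_of_pos (by linarith) _
    linarith
  set g : ℤ → Prop := fun z => (N : ℤ) ≤ z * (K : ℤ) ^ 3 ∧ z + Mw N K ≤ N with hg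
  set I := Icc (1 - (Mw N K : ℤ)) ((N : ℤ) + Mw N K) with hI
  have hgood' : ∑ z ∈ I.filter g, EX c₀ N K z ≤ N * (C * E) := by
    have h4 : ∀ z ∈ I.filter g, EX c₀ N K z ≤ C * E := by
      intro z hz
      have hz' := (mem_filter.1 hz).2
      have hz0 : 0 ≤ z := by
        by_contra h5
        push Not at h5
        have h6 : z * (K : ℤ) ^ 3 ≤ 0 := mul_nonpos_of_nonpos_of_nonneg h5.le (by positivity)
        have h7 : (0 : ℤ) < N := by exact_mod_cast hN0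
        have := hz'.1
        omega
      obtain ⟨n, rfl⟩ := Int.eq_ofNat_of_zero_le hz0
      apply hw K hKc N hR hBN q₁ χ β hE hβ n
      · have := hz'.1
        exact_mod_cast this
      · have := hz'.2
        exact_mod_cast this
    have h5 : ((I.filter g).card : ℝ) ≤ N := by
      have h6 : I.filter g ⊆ Icc 1 (N : ℤ) := by
        intro z hz
        have hz' := (mem_filter.1 hz).2
        rw [mem_Icc]
        constructor
        · by_contra h5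
          push Not at h5
          have h5' : z ≤ 0 := by omega
          have h6 : z * (K : ℤ) ^ 3 ≤ 0 := mul_nonpos_of_nonpos_of_nonneg h5' (by positivity)
          have h7 : (0 : ℤ) < N := by exact_mod_cast hN0
          have := hz'.1
          omega
        · have := hz'.2
          omega
      have h7 := card_le_card h6
      rw [Int.card_Icc] at h7
      have h8 : ((N : ℤ) + 1 - 1).toNat = N := by omega
      rw [h8] at h7
      exact_mod_cast h7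
    refine (sum_le_sum h4).trans ?_
    rw [sum_const, nsmul_eq_mul]
    have h6 : 0 ≤ C * E := by positivity
    gcongr
  have hbad' : ∑ z ∈ I.filter (fun z => ¬ g z), EX c₀ N K z ≤
      (N / (K : ℝ) ^ 3 + 3 * Mw N K) * (((1 + Cz) ^ 2 + 4) * (K : ℝ) ^ 2 * Real.log N ^ 2) := by
    refine (sum_le_sum fun z _ => e4_crude (fun m => (w1 m).1) w2 q1 (by omega) hCz hwb z).trans ?_
    rw [sum_const, nsmul_eq_mul]
    have h4 := p03b_bad N K (by omega) hMN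
    have h5 : 0 ≤ ((1 + Cz) ^ 2 + 4) * (K : ℝ) ^ 2 * Real.log N ^ 2 := by positivity
    exact mul_le_mul_of_nonneg_right h4 h5
  have hsplit : EEX c₀ N K = ∑ z ∈ I.filter g, EX c₀ N K z +
      ∑ z ∈ I.filter (fun z => ¬ g z), EX c₀ N K z := by
    unfold EEX
    exact (sum_filter_add_sum_filter_not I g _).symm
  rw [hsplit]
  have hs0 : 0 < Real.sqrt K := Real.sqrt_pos.2 (by linarith)
  have hs1 : Real.log N ^ 2 ≤ Real.sqrt K := by
    apply Real.le_sqrt_of_sq_le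
    calc (Real.log N ^ 2) ^ 2 = Real.log N ^ 4 := by ring
      _ ≤ (K : ℝ) := q2
  have hs2 : Real.sqrt K * Real.sqrt K = K := Real.mul_self_sqrt (by linarith)
  have b1 : (N / (K : ℝ) ^ 3 + 3 * Mw N K) * (((1 + Cz) ^ 2 + 4) * (K : ℝ) ^ 2 * Real.log N ^ 2) ≤
      4 * ((1 + Cz) ^ 2 + 4) * N * (1 / Real.sqrt K) := by
    have h4 : (N / (K : ℝ) ^ 3 + 3 * Mw N K) ≤ 4 * (N / (K : ℝ) ^ 3) := by
      have h5 : (N : ℝ) / (K : ℝ) ^ 7 ≤ N / (K : ℝ) ^ 3 := by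
        apply div_le_div_of_nonneg_left hN0.le (by positivity)
        exact pow_le_pow_right₀ (by linarith) (by norm_num)
      linarith
    calc _ ≤ 4 * (N / (K : ℝ) ^ 3) * (((1 + Cz) ^ 2 + 4) * (K : ℝ) ^ 2 * Real.sqrt K) := by gcongr
      _ = 4 * ((1 + Cz) ^ 2 + 4) * N * (Real.sqrt K / K) := by field_simp
      _ = _ := by
          congr 1
          rw [div_eq_div_iff (by linarith) hs0.ne', hs2, one_mul]
  have b2 : 1 / Real.sqrt K ≤ (K : ℝ) ^ (-(min c (1 / 2)) : ℝ) := by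
    have e1 : 1 / Real.sqrt K = (K : ℝ) ^ (-(1 / 2) : ℝ) := by
      rw [Real.sqrt_eq_rpow, Real.rpow_neg (by linarith), one_div]
    rw [e1]
    exact Real.rpow_le_rpow_of_exponent_le (by linarith) (neg_le_neg (min_le_right _ _))
  have b3 : (K : ℝ) ^ (-c) ≤ (K : ℝ) ^ (-(min c (1 / 2)) : ℝ) :=
    Real.rpow_le_rpow_of_exponent_le (by linarith) (neg_le_neg (min_le_left _ _))
  set Ψ : ℝ := (1 - β) * Real.log K + (K : ℝ) ^ (-(min c (1 / 2)) : ℝ) with hΨ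
  have b4 : E ≤ Ψ := by rw [hEd, hΨ]; linarith
  have b5 : 1 / Real.sqrt K ≤ Ψ := by rw [hΨ]; linarith
  calc _ ≤ N * (C * E) + 4 * ((1 + Cz) ^ 2 + 4) * N * (1 / Real.sqrt K) :=
        add_le_add hgood' (hbad'.trans b1)
    _ ≤ N * (C * Ψ) + 4 * ((1 + Cz) ^ 2 + 4) * N * Ψ := by gcongr
    _ = _ := by ring

end Pool.Agent.DH

/-! ## Block EEB (helper35) -/

namespace Pool.Agent.DH

open Finset Complex Metric Pool.Agent.GA
open scoped ArithmeticFunction.vonMangoldt Classical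

theorem EEB_pr (h1 : SZ.Z1) (hE4 : ∀ c₀, UZ c₀ → E4 c₀) : EEB := by
  obtain ⟨c₀, hZF, hsum⟩ := h1
  obtain ⟨C, c, B, hC, hc, hB, K0, hE⟩ := hE4 c₀ ⟨hZF, hsum⟩
  have hc0 : 0 < c₀ := hZF.1
  have hc1 : c₀ ≤ 1 / 32 := hZF.2.1
  obtain ⟨C1, -, K1, hW⟩ := FGP.W01_pr
  refine ⟨2 * C + 64, c, B, c₀ / 40, by positivity, hc, hB, by positivity, max K0 (max K1 10),
    fun K hK N hR hKN q₁ χ β hQd hq₁K hLF hβ => ?_⟩
  have hK0 : K0 ≤ K := (le_max_left _ _).trans hK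
  have hK1 : K1 ≤ K := (le_max_left _ _).trans ((le_max_right _ _).trans hK)
  have hK10 : 10 ≤ K := (le_max_right _ _).trans ((le_max_right _ _).trans hK)
  obtain ⟨hv, hv1, -⟩ := hW K hK1 N hR
  have hv0 : ∀ m, 0 ≤ FGP.vw N K m := fun m => (hv m).1
  obtain ⟨hχP, hχ2, hq1⟩ := hQd
  have : NeZero q₁ := ⟨by omega⟩
  have hχ1 := (GA.mem_Prm.1 hχP).2
  have hβ1 : β < 1 := by
    have := GA.z3_zero_re hχ1 hLF
    rwa [Complex.ofReal_re] at this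
  have hKr : (10 : ℝ) ≤ K := by exact_mod_cast hK10
  have hlogK : 1 ≤ Real.log K := by
    rw [Real.le_log_iff_exp_le (by linarith)]
    have := Real.exp_one_lt_d9
    linarith
  have hlogD : Real.log ((K ^ 20 : ℕ) : ℝ) = 20 * Real.log K := by
    push_cast
    rw [Real.log_pow]
    norm_num
  have hKD : K ≤ K ^ 20 := Nat.le_self_pow (by norm_num) K
  have hD2 : 2 ≤ K ^ 20 := by omega
  have hκ0 : 0 < 1 - β := by linarith
  have hκ1 : 1 - β ≤ c₀ / 40 := by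
    calc 1 - β = (1 - β) * 1 := by ring
      _ ≤ (1 - β) * Real.log K := mul_le_mul_of_nonneg_left hlogK hκ0.le
      _ ≤ _ := hβ
  have hbad : 1 - c₀ / Real.log ((K ^ 20 : ℕ) : ℝ) < β := by
    rw [hlogD]
    have h2 : 1 - β < c₀ / (20 * Real.log K) := by
      rw [lt_div_iff₀ (by linarith)]
      nlinarith
    linarith
  have hEx : Ex (K ^ 20) χ β :=
    ⟨hD2, hq1, hq₁K.trans hKD, hχP, hχ2, by linarith, hβ1, hLF⟩
  have hmem : (β : ℂ) ∈ LHM.BZ c₀ (K ^ 20) χ := by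
    rw [LHM.zb_mem hq1 hχP]
    refine ⟨⟨hLF, ?_, ?_, ?_⟩, ?_⟩
    · rw [Complex.ofReal_re]
      linarith
    · rw [Complex.ofReal_re]
      exact hβ1.le
    · rw [Complex.ofReal_im, abs_zero]
      exact Nat.cast_nonneg _
    · rw [Complex.ofReal_re]
      exact hbad
  have hs := hsum (K ^ 20) hD2
  have hEEW : SZ.EEW χ ((N : ℝ) ^ (β - 1)) N K ≤ 2 * LHM.EEX c₀ N K +
      2 * ∑ m ∈ Icc 1 N, ((N : ℝ) ^ (β - 1) - (m : ℝ) ^ (β - 1)) ^ 2 := by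
    have h2 := SZ.z2_jensen hv0 hv1 (fun m => (N : ℝ) ^ (β - 1) - (m : ℝ) ^ (β - 1))
    unfold SZ.EEW LHM.EEX
    calc ∑ n ∈ Icc (1 - (FGP.Mw N K : ℤ)) ((N : ℤ) + FGP.Mw N K),
          SZ.EW χ ((N : ℝ) ^ (β - 1)) N K n
        ≤ ∑ n ∈ Icc (1 - (FGP.Mw N K : ℤ)) ((N : ℤ) + FGP.Mw N K), (2 * LHM.EX c₀ N K n +
          2 * (∑ m ∈ Icc 1 N, ((N : ℝ) ^ (β - 1) - (m : ℝ) ^ (β - 1)) *
            FGP.vw N K ((m : ℤ) - n)) ^ 2) :=
          sum_le_sum fun n _ => SZ.z2_EW hs hq1 hq₁K hχP hmem _ N n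
      _ = 2 * (∑ n ∈ Icc (1 - (FGP.Mw N K : ℤ)) ((N : ℤ) + FGP.Mw N K), LHM.EX c₀ N K n) +
          2 * ∑ n ∈ Icc (1 - (FGP.Mw N K : ℤ)) ((N : ℤ) + FGP.Mw N K),
            (∑ m ∈ Icc 1 N, ((N : ℝ) ^ (β - 1) - (m : ℝ) ^ (β - 1)) *
            FGP.vw N K ((m : ℤ) - n)) ^ 2 := by
          rw [sum_add_distrib, mul_sum, mul_sum]
      _ ≤ _ := by linarith
  have h3 := hE K hK0 N hR hKN q₁ χ β hEx hbad
  have h4 := SZ.z2_sum N hκ0.le
  rw [show -(1 - β) = β - 1 by ring] at h4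
  have hN0 : (0 : ℝ) ≤ N := Nat.cast_nonneg N
  have hKc : 0 ≤ (K : ℝ) ^ (-c) := by positivity
  have h5 : (1 - β) ^ 2 ≤ (1 - β) * Real.log K := by
    rw [sq]
    exact mul_le_mul_of_nonneg_left (by linarith) hκ0.le
  have h6 : N * (1 - β) ^ 2 ≤ N * ((1 - β) * Real.log K) := mul_le_mul_of_nonneg_left h5 hN0
  have h7 : 0 ≤ N * (K : ℝ) ^ (-c) := by positivity
  calc SZ.EEW χ ((N : ℝ) ^ (β - 1)) N K
      ≤ 2 * (C * N * ((1 - β) * Real.log K + (K : ℝ) ^ (-c))) + 2 * (32 * (1 - β) ^ 2 * N) := by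
        linarith
    _ ≤ (2 * C + 64) * N * ((1 - β) * Real.log K + (K : ℝ) ^ (-c)) := by nlinarith

end Pool.Agent.DH

/-! ## Block F1 (helper45) -/

set_option maxHeartbeats 4000000

namespace Pool.Agent.DH

open Finset Pool.Agent.GA
open Filter Topology

open scoped Classical in
theorem f1_ne {q₁ : ℕ} {χ : DirichletCharacter ℂ q₁} (hχ : SZ.Qd χ) : χ ≠ 1 :=
  (mem_filter.1 hχ.1).2.2

theorem f1_lt {q₁ : ℕ} {χ : DirichletCharacter ℂ q₁} (hχ : SZ.Qd χ) {β : ℝ}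
    (hβ : LF χ (β : ℂ) = 0) : β < 1 := by
  have : NeZero q₁ := ⟨by have := hχ.2.2; omega⟩
  have h1 : ((β : ℂ)).re < 1 := by
    by_contra h1
    exact LF_ne_zero (f1_ne hχ) (not_lt.1 h1) hβ
  rwa [Complex.ofReal_re] at h1

/-- facts for large `K` -/
theorem f1_K {c : ℝ} (hc : 0 < c) (a b : ℝ) (ha : 0 < a) (hb : 0 < b) :
    ∃ K0 : ℕ, ∀ K ≥ K0, (K : ℝ) ^ (-c) ≤ a ∧ (K : ℝ) ^ (-(c / 2)) ≤ b ∧ 1 ≤ Real.log K := by
  have t1 : Tendsto (fun K : ℕ => (K : ℝ) ^ (-c)) atTop (𝓝 0) :=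
    (tendsto_rpow_neg_atTop hc).comp tendsto_natCast_atTop_atTop
  have t2 : Tendsto (fun K : ℕ => (K : ℝ) ^ (-(c / 2))) atTop (𝓝 0) :=
    (tendsto_rpow_neg_atTop (by positivity : 0 < c / 2)).comp tendsto_natCast_atTop_atTop
  have e1 : ∀ᶠ K : ℕ in atTop, (K : ℝ) ^ (-c) ≤ a := t1.eventually_le_const ha
  have e2 : ∀ᶠ K : ℕ in atTop, (K : ℝ) ^ (-(c / 2)) ≤ b := t2.eventually_le_const hb
  have e3 : ∀ᶠ K : ℕ in atTop, 1 ≤ Real.log K :=
    (Real.tendsto_log_atTop.comp tendsto_natCast_atTop_atTop).eventually_ge_atTop 1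
  exact eventually_atTop.1 (e1.and (e2.and e3))

/-- the square root of the energy -/
theorem f1_sqrt {A x s : ℝ} (hA : 0 ≤ A) (hx : 0 ≤ x) (hs : 0 ≤ s) :
    Real.sqrt (A * (x + s ^ 2)) ≤ Real.sqrt A * (Real.sqrt x + s) := by
  rw [Real.sqrt_mul hA]
  apply mul_le_mul_of_nonneg_left _ (Real.sqrt_nonneg _)
  apply Real.sqrt_le_iff.2
  have h0 := Real.sqrt_nonneg x
  refine ⟨by positivity, ?_⟩
  have h1 : Real.sqrt x ^ 2 = x := Real.sq_sqrt hx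
  nlinarith [mul_nonneg h0 hs]

theorem F1_pr (h18 : SZ.S18) (hEB : EEB) : F1 := by
  obtain ⟨C₂, c₂, B₂, ε₂, hC₂, hc₂, hB₂, hε₂, K₂, hZ⟩ := hEB
  obtain ⟨C₁, hC₁, hS⟩ := h18
  obtain ⟨A, hA⟩ : ∃ A : ℝ, A = Real.sqrt C₂ := ⟨_, rfl⟩
  have hA0 : 0 < A := by rw [hA]; exact Real.sqrt_pos.2 hC₂
  refine ⟨C₁ * A, B₂, min ε₂ (1 / (2 * C₂)), by positivity, hB₂, by positivity,
    fun η hη => ?_⟩
  obtain ⟨C', q₀, K₁, hS1⟩ := hS (η / 2) (by positivity)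
  obtain ⟨K₃, hK₃⟩ := f1_K hc₂ (1 / (2 * C₂)) (η / (2 * (C₁ * A))) (by positivity) (by positivity)
  refine ⟨C', q₀, max K₂ (max K₁ K₃), ?_⟩
  intro K hK N hRg hKB q₁ χ β hχ hq0 hqK hβ hβK Y hRY hYN
  have hK2 : K₂ ≤ K := (le_max_left _ _).trans hK
  have hK1 : K₁ ≤ K := ((le_max_left _ _).trans (le_max_right _ _)).trans hK
  have hK3 : K₃ ≤ K := ((le_max_right _ _).trans (le_max_right _ _)).trans hK
  obtain ⟨k1, k2, k3⟩ := hK₃ K hK3
  have hK10 : (10 : ℝ) ≤ K := by exact_mod_cast hRg.hK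
  have hK0 : (0 : ℝ) < K := by linarith
  have hKN : (K : ℝ) ≤ N := by
    have h1 : (K : ℝ) ^ 400 ≤ N := by exact_mod_cast hRg.hN
    exact (le_self_pow₀ (by linarith) (by norm_num)).trans h1
  have hN0 : (0 : ℝ) < N := by linarith
  have hlN : 1 ≤ Real.log N := k3.trans (Real.log_le_log hK0 hKN)
  have hlN0 : 0 < Real.log N := by linarith
  have hlK0 : 0 < Real.log K := by linarith
  -- the zero
  have hκ0 : 0 ≤ 1 - β := by
    have := f1_lt hχ hβ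
    linarith
  have hκε : (1 - β) * Real.log K ≤ ε₂ := hβK.trans (min_le_left _ _)
  have hκC : (1 - β) * Real.log K ≤ 1 / (2 * C₂) := hβK.trans (min_le_right _ _)
  obtain ⟨x, hx⟩ : ∃ x : ℝ, x = (1 - β) * Real.log K := ⟨_, rfl⟩
  have hx0 : 0 ≤ x := by rw [hx]; positivity
  obtain ⟨w, hw⟩ : ∃ w : ℝ, w = (N : ℝ) ^ (β - 1) := ⟨_, rfl⟩
  have hw0 : 0 ≤ w := by rw [hw]; exact Real.rpow_nonneg hN0.le _
  have hw1 : w ≤ 1 := by
    rw [hw]
    exact Real.rpow_le_one_of_one_le_of_nonpos (by linarith) (by linarith)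
  -- the energy
  obtain ⟨s, hs⟩ : ∃ s : ℝ, s = (K : ℝ) ^ (-(c₂ / 2)) := ⟨_, rfl⟩
  have hs0 : 0 ≤ s := by rw [hs]; exact Real.rpow_nonneg hK0.le _
  have hs2 : (K : ℝ) ^ (-c₂) = s ^ 2 := by
    rw [hs, ← Real.rpow_natCast, ← Real.rpow_mul hK0.le]
    congr 1
    push_cast
    ring
  have hEE := hZ K hK2 N hRg hKB q₁ χ β hχ hqK hβ hκε
  rw [← hw, hs2, ← hx] at hEE
  have hEN : SZ.EEW χ w N K / N ≤ C₂ * (x + s ^ 2) := by
    rw [div_le_iff₀ hN0]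
    linarith
  rw [← hx] at hκC
  rw [hs2] at k1
  have p1 : C₂ * x ≤ 1 / 2 := by
    calc C₂ * x ≤ C₂ * (1 / (2 * C₂)) := by gcongr
      _ = 1 / 2 := by field_simp
  have p2 : C₂ * s ^ 2 ≤ 1 / 2 := by
    calc C₂ * s ^ 2 ≤ C₂ * (1 / (2 * C₂)) := by gcongr
      _ = 1 / 2 := by field_simp
  have hENN : SZ.EEW χ w N K ≤ N := by
    have h1 : SZ.EEW χ w N K / N ≤ 1 := by
      refine hEN.trans ?_
      have : C₂ * (x + s ^ 2) = C₂ * x + C₂ * s ^ 2 := by ring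
      rw [this]
      linarith
    rwa [div_le_one hN0] at h1
  have hsq : Real.sqrt (SZ.EEW χ w N K / N) ≤ A * (Real.sqrt x + s) := by
    rw [hA]
    exact (Real.sqrt_le_sqrt hEN).trans (f1_sqrt hC₂.le hx0 hs0)
  have q1 : C₁ * A * s ≤ η / 2 := by
    rw [← hs] at k2
    calc C₁ * A * s ≤ C₁ * A * (η / (2 * (C₁ * A))) := by gcongr
      _ = η / 2 := by field_simp
  have hfin := hS1 K hK1 N hRg q₁ χ w hχ hw0 hw1 hq0 hqK hENN Y hRY hYN
  rw [← hw]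
  refine hfin.trans ?_
  have hY0 : (0 : ℝ) ≤ Y := Nat.cast_nonneg _
  have hYl : 0 ≤ (Y : ℝ) / Real.log N := by positivity
  rw [← hx]
  apply mul_le_mul_of_nonneg_right _ hYl
  apply mul_le_mul_of_nonneg_right _ hN0.le
  calc C₁ * Real.sqrt (SZ.EEW χ w N K / N) * Real.log N + η / 2 * Real.log N + C' ≤
      C₁ * (A * (Real.sqrt x + s)) * Real.log N + η / 2 * Real.log N + C' := by gcongr
    _ = C₁ * A * Real.sqrt x * Real.log N + C₁ * A * s * Real.log N + η / 2 * Real.log N + C' := by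
      ring
    _ ≤ C₁ * A * Real.sqrt x * Real.log N + η / 2 * Real.log N + η / 2 * Real.log N + C' := by
      gcongr
    _ = _ := by ring

end Pool.Agent.DH
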