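import Pool.Agent.Lib_helper59.DH.W
import Pool.Agent.Lib_helper26.SD.AA
import Pool.Agent.Lib_helper99.SZX.F4

/-!
# DH: blocks AAX, F4X of dhr_block
-/

set_option autoImplicit false

/-! ## Block AAX (helper26) -/

namespace Pool.Agent.DH

open Finset Pool.Agent.Var35 Pool.Agent.Var73 Pool.Agent.PV Pool.Agent.FGP Pool.Agent.SZ
open Pool.Agent.SD

/-- `AAX` with `a = 17` -/
def AAX17 : Prop := ∃ b c C : ℝ, 0 < b ∧ 0 < c ∧ c < 1 ∧ 0 < C ∧ ∀ d : ℝ, 0 < d → d ≤ c →
  ∀ ε : ℝ, 0 < ε → ∃ X₀ : ℝ, ∀ X : ℝ, X₀ ≤ X → ∀ (q : ℕ) (χ : DirichletCharacter ℂ q) (β : ℝ),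
  SZ.IsExc 17 b d X q χ β → ∀ Y : ℝ, X ^ (1 - d) ≤ Y → Y ≤ X / C →
  ∑ Q ∈ FGP.QR Y, |SZ.V X Q - (X * Real.log Q -
      X ^ (2 * β - 1) * max 0 (Real.log (X / (q * Q))))| ≤
    (C * Real.sqrt ((1 - β) * Real.log X) + ε) * (X * Real.log X) * (Y / Real.log Y)

theorem AAX17_pr (h1 : F1) : AAX17 := by
  obtain ⟨C₂, B₂, ε₂, hC₂, hB₂, hε₂, hG⟩ := h1
  set b : ℝ := ε₂ / 17 with hb
  have hb0 : 0 < b := by positivity
  obtain ⟨N0, hN0⟩ := cmp_pr (1 / 4) (by norm_num)
  obtain ⟨Y₀, hY₀, hcnt⟩ := cnt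
  set c : ℝ := min (1 / 7000) (1 / (34 * B₂)) with hc
  have hc0 : 0 < c := lt_min (by norm_num) (by positivity)
  have hcA : c ≤ 1 / 7000 := min_le_left _ _
  have hcB2 : c ≤ 1 / (34 * B₂) := min_le_right _ _
  set CT : ℝ := 2 * C₂ + 8 with hCT
  refine ⟨b, c, CT, hb0, hc0, by linarith, by positivity, fun d hd hdc ε hε => ?_⟩
  set E : ℝ := min 1 (ε / 7) with hEd
  have hE0 : 0 < E := lt_min one_pos (by positivity)
  have hE1 : E ≤ 1 := min_le_left _ _
  have hE7 : 7 * E ≤ ε := by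
    have : E ≤ ε / 7 := min_le_right _ _
    linarith
  obtain ⟨C'', q₀', K2, hG1⟩ := hG E hE0
  obtain ⟨ε', hε', hnear⟩ := near_large q₀'
  set M : ℝ := (K2 : ℝ) + |C''| + (N0 + 1) + Y₀ + b / (d * ε') + 2 * b / d with hM
  have hK2R : (0 : ℝ) ≤ K2 := Nat.cast_nonneg _
  have hN0R : (0 : ℝ) ≤ N0 := Nat.cast_nonneg _
  have hC''0 := abs_nonneg C''
  have hp3 : 0 < b / (d * ε') := by positivity
  have hp4 : 0 < 2 * b / d := by positivity
  obtain ⟨X₀, hX₀⟩ := gs_ex hd (hdc.trans hcA) hE0 hE1 M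
  refine ⟨X₀, fun X hX q χ β hexc Y hY1 hY2 => ?_⟩
  have h := hX₀ X hX
  have hXpos := h.X0
  have hlX := h.logX
  have hY8 : Y ≤ X / 8 := by
    refine hY2.trans ?_
    apply div_le_div_of_nonneg_left hXpos.le (by norm_num) (by linarith)
  have hy : Gy d E M X Y := ⟨h, hY1, hY8⟩
  have hY0 := hy.Y0
  set K : ℕ := ⌊X ^ (17 * d)⌋₊ with hK
  set N : ℕ := ⌊X⌋₊ with hN
  have hKM : M ≤ K := h.f4.trans h.K2
  have hNM : (N0 : ℝ) ≤ N := by
    have h1 := h.xM
    have h2 := h.N2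
    rw [← hN] at h2
    linarith
  have hNN0 : N0 ≤ N := by exact_mod_cast hNM
  have hYM : Y₀ ≤ Y := by
    have h1 : X ^ (17 * d) ≤ Y := by
      refine le_trans (Real.rpow_le_rpow_of_exponent_le h.X1 ?_) hy.Y1
      linarith [hdc.trans hcA]
    have h2 := h.f4
    linarith
  obtain ⟨hcnt1, hcnt2⟩ := hcnt Y hYM
  have hlK := h.logK
  rw [← hK] at hlK
  have hK10 := h.K10
  rw [← hK] at hK10
  have hK0 : (0 : ℝ) < K := by linarith
  have hlK0 : 0 < Real.log K := Real.log_pos (by linarith)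
  have hlN := h.logN
  rw [← hN] at hlN
  have hlN2 := h.logN2
  rw [← hN] at hlN2
  have hNR : (500 : ℝ) ≤ N := by
    have h1 := h.N3
    rw [← hN] at h1
    linarith [h.X100]
  have hN0' : (0 : ℝ) < N := by linarith
  have hdB : ∀ B : ℝ, 1 ≤ B → c ≤ 1 / (34 * B) → 17 * d * B ≤ 1 / 2 := by
    intro B hB hcB
    have h1 : d ≤ 1 / (34 * B) := hdc.trans hcB
    rw [le_div_iff₀ (by positivity)] at h1
    linarith
  have hcmp := hN0 N hNN0 ⌊Y⌋₊ hy.cond (Nat.floor_le_floor hy.YX)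
  have hQlog : ∀ Q ∈ QR Y, 0 ≤ Real.log Q ∧ Real.log Q ≤ Real.log X ∧ (1 : ℝ) ≤ Q := by
    intro Q hQ
    obtain ⟨hQp, hYQ, hQ2⟩ := hy.Qf hQ
    have h1 : (1 : ℝ) ≤ Q := by exact_mod_cast hQp.one_lt.le
    refine ⟨Real.log_nonneg h1, Real.log_le_log (by linarith) ?_, h1⟩
    linarith
  have hNX1 := h.N1
  have hNX2 := h.N2
  rw [← hN] at hNX1 hNX2
  obtain ⟨hq, hQd, hz, hβ⟩ := hexc
  have : NeZero q := ⟨by have := hQd.2.2; omega⟩
  have hβ1 : β < 1 := by
    have := GA.z3_zero_re (GA.z3_Prm hQd.1).2 hz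
    rwa [Complex.ofReal_re] at this
  have hdl : 0 < d * Real.log X := by positivity
  have hMl : M ≤ Real.log X := by
    have h1 := h.f6
    have h2 : E * Real.log X ≤ 1 * Real.log X := mul_le_mul_of_nonneg_right hE1 (by linarith)
    linarith
  have hβε : 1 - ε' < β := by
    have h1 : b / (d * Real.log X) ≤ ε' := by
      rw [div_le_iff₀ hdl]
      have h2 : b / (d * ε') ≤ Real.log X := by linarith
      rw [div_le_iff₀ (by positivity)] at h2
      linarith
    linarith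
  have hβ2 : 1 / 2 ≤ β := by
    have h1 : b / (d * Real.log X) ≤ 1 / 2 := by
      rw [div_le_iff₀ hdl]
      have h2 : 2 * b / d ≤ Real.log X := by linarith
      rw [div_le_iff₀ hd] at h2
      linarith
    linarith
  have hq0 : q₀' ≤ q := hnear q χ β hQd.2.2 hQd.1 hQd.2.1 hz hβε
  have hqK : q ≤ K := Nat.le_floor hq
  have hβK : (1 - β) * Real.log K ≤ ε₂ := by
    have h1 : 1 - β ≤ b / (d * Real.log X) := by linarith
    calc (1 - β) * Real.log K ≤ (b / (d * Real.log X)) * (17 * (d * Real.log X)) := by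
          apply mul_le_mul h1 hlK.2 hlK0.le (by positivity)
      _ = ε₂ := by
          rw [hb]
          field_simp
  have hK2' : K2 ≤ K := by
    have : (K2 : ℝ) ≤ K := by linarith
    exact_mod_cast this
  have h1 := hG1 K hK2' N h.rg (h.KB (by linarith) (hdB B₂ hB₂ hcB2)) q χ β hQd hq0 hqK hz hβK
    ⌊Y⌋₊ hy.ry hy.YN
  have hlN0 : 0 ≤ Real.log N := by linarith
  have hC'b : |C''| ≤ E * Real.log X := by
    have := h.f6
    linarith
  set R : ℝ := Real.sqrt ((1 - β) * Real.log X) with hR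
  have hR0 : 0 ≤ R := Real.sqrt_nonneg _
  set T : ℝ := (C₂ * R + 2 * E) * Real.log X with hT
  have hT0 : 0 ≤ T := by positivity
  have m1 : ∑ Q ∈ QQ ⌊Y⌋₊, |SQ N Q - mW N Q q ((N : ℝ) ^ (β - 1))| ≤
      T * N * (⌊Y⌋₊ / Real.log N) := by
    refine h1.trans ?_
    have hYf : (0 : ℝ) ≤ (⌊Y⌋₊ : ℝ) / Real.log N := by positivity
    apply mul_le_mul_of_nonneg_right _ hYf
    apply mul_le_mul_of_nonneg_right _ hN0'.le
    have hsq : Real.sqrt ((1 - β) * Real.log K) ≤ R := by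
      apply Real.sqrt_le_sqrt
      apply mul_le_mul_of_nonneg_left _ (by linarith)
      have : 17 * (d * Real.log X) ≤ Real.log X := by
        have h2 : d ≤ 1 / 7000 := hdc.trans hcA
        nlinarith
      linarith [hlK.2]
    have h2 : C₂ * Real.sqrt ((1 - β) * Real.log K) * Real.log N ≤ C₂ * R * Real.log X := by
      gcongr
    have h3 : E * Real.log N ≤ E * Real.log X := by gcongr
    have h4 : C'' ≤ E * Real.log X := (le_abs_self C'').trans hC'b
    calc _ ≤ C₂ * R * Real.log X + E * Real.log X + E * Real.log X := by linarith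
      _ = _ := by rw [hT]; ring
  have m2 : ∀ Q ∈ QR Y, |mW N Q q ((N : ℝ) ^ (β - 1)) - X * Real.log Q +
      X ^ (2 * β - 1) * max 0 (Real.log (X / (q * Q)))| ≤ 4 * Real.log X := by
    intro Q hQ
    obtain ⟨k1, k2, k3⟩ := hQlog Q hQ
    have hq1 : (1 : ℝ) ≤ q := by exact_mod_cast hQd.2.2
    have h2 := exc_diff (X := X) (N := N) (A := Q * q) (β := β) (by linarith) hNX1 hNX2.le
      (one_le_mul_of_one_le_of_one_le k3 hq1) hβ2 hβ1.le
    have e1 : mW N Q q ((N : ℝ) ^ (β - 1)) - X * Real.log Q +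
        X ^ (2 * β - 1) * max 0 (Real.log (X / (q * Q))) = (N - X) * Real.log Q +
        (X ^ (2 * β - 1) * max 0 (Real.log (X / (Q * q))) -
          ((N : ℝ) ^ (β - 1)) ^ 2 * N * max 0 (Real.log (N / (Q * q)))) := by
      unfold mW
      rw [mul_comm (q : ℝ) (Q : ℝ)]
      ring
    rw [e1]
    refine (abs_add_le _ _).trans ?_
    rw [abs_mul, abs_of_nonneg k1]
    have h3 : |(N : ℝ) - X| ≤ 1 := by
      rw [abs_le]
      constructor <;> linarith
    have h4 : |(N : ℝ) - X| * Real.log Q ≤ 1 * Real.log X := by gcongr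
    linarith
  have hfin := hy.total (W := fun Q : ℕ => X ^ (2 * β - 1) * max 0 (Real.log (X / (q * Q))))
    hT0 (by linarith) hcmp m1 m2 hcnt2
  have hlY := hy.logY
  have hZ : 0 ≤ Y / Real.log Y := by positivity
  have hLHS : ∑ Q ∈ QR Y, |V X Q - (X * Real.log Q -
      X ^ (2 * β - 1) * max 0 (Real.log (X / (q * Q))))| =
      ∑ Q ∈ QR Y, |V X Q - X * Real.log Q +
        X ^ (2 * β - 1) * max 0 (Real.log (X / (q * Q)))| := by
    refine sum_congr rfl fun Q _ => ?_
    congr 1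
    ring
  rw [hLHS]
  refine hfin.trans ?_
  apply mul_le_mul_of_nonneg_right _ hZ
  have h3 := h.f7
  have hXl : X ≤ X * Real.log X := le_mul_of_one_le_right hXpos.le (by linarith)
  have h4 : E * X ≤ E * (X * Real.log X) := mul_le_mul_of_nonneg_left hXl hE0.le
  have h5 : 2 * T * X = (2 * C₂ * R + 4 * E) * (X * Real.log X) := by rw [hT]; ring
  have h6 : 0 ≤ X * Real.log X := by positivity
  have h7 : 7 * E * (X * Real.log X) ≤ ε * (X * Real.log X) := mul_le_mul_of_nonneg_right hE7 h6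
  have h8 : 0 ≤ 8 * R * (X * Real.log X) := by positivity
  calc E * X + 2 * T * X + 3 * (4 * Real.log X) ≤ E * (X * Real.log X) +
        (2 * C₂ * R + 4 * E) * (X * Real.log X) + 2 * (E * (X * Real.log X)) := by
        rw [h5]
        linarith
    _ = 2 * C₂ * R * (X * Real.log X) + 7 * E * (X * Real.log X) := by ring
    _ ≤ (CT * R + ε) * (X * Real.log X) := by
        rw [hCT]
        linarith

theorem AAX_pr (h1 : F1) : AAX := by
  obtain ⟨b, c, C, hb, hc, hc1, hC, h⟩ := AAX17_pr h1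
  exact ⟨17, b, c, C, by norm_num, hb, hc, hc1, hC, h⟩

end Pool.Agent.DH

/-! ## Block F4X (helper99) -/

namespace Pool.Agent.DH

open Finset Pool.Agent.Var35 Pool.Agent.Var73 Pool.Agent.PV Pool.Agent.FGP Pool.Agent.SZ
open scoped ArithmeticFunction ArithmeticFunction.Moebius

theorem F4X_pr (hAA : AAX) (h1 : SZ.F1) (hW : FGP.WSC) : F4X := by
  obtain ⟨a, b, c, C, ha, hb, hc, hc1, hC, hAA⟩ := hAA
  obtain ⟨C1, hC1, h1⟩ := h1
  obtain ⟨Z₀, hZ₀⟩ := hW
  refine ⟨min c (1 / 4), max C 2, by positivity, ?_, by positivity, ?_⟩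
  · have h2 : min c (1 / 4) ≤ 1 / 4 := min_le_right _ _
    linarith
  intro hno δ hδ hδδ ε' hε' X₀
  have hd1 : δ ≤ c := hδδ.trans (min_le_left _ _)
  have hd2 : δ ≤ 1 / 4 := hδδ.trans (min_le_right _ _)
  -- the parameters
  set E : ℝ := min 1 (ε' / (C * C1 + C1 + 3)) with hEdef
  have hE0 : 0 < E := by positivity
  have hE1 : E ≤ 1 := min_le_left _ _
  have hEε : E * (C * C1 + C1 + 3) ≤ ε' := by
    have h2 : E ≤ ε' / (C * C1 + C1 + 3) := min_le_right _ _
    rwa [le_div_iff₀ (by positivity)] at h2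
  obtain ⟨X₁, hX₁⟩ := hAA δ hδ hd1 E hE0
  set A : ℝ := max (1 / E) (1 / (a * δ)) with hAdef
  have hAE : 1 ≤ E * A := by
    have h2 : 1 / E ≤ A := le_max_left _ _
    rwa [div_le_iff₀ hE0, mul_comm] at h2
  have hA1 : 1 ≤ A := by
    have h2 : 1 ≤ 1 / E := by rwa [le_div_iff₀ hE0, one_mul]
    exact h2.trans (le_max_left _ _)
  have hA0 : 0 < A := by linarith
  have hAaδ : 1 ≤ A * (a * δ) := by
    have h2 : 1 / (a * δ) ≤ A := le_max_right _ _
    rwa [div_le_iff₀ (by positivity)] at h2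
  set η : ℝ := min (b / (40 * A * δ)) (E ^ 2 / (80 * A)) with hηdef
  have hη0 : 0 < η := by positivity
  have hη1 : 40 * A * η * δ ≤ b := by
    have h2 : η ≤ b / (40 * A * δ) := min_le_left _ _
    rw [le_div_iff₀ (by positivity)] at h2
    linarith
  have hη2' : 2 * (40 * A * η) ≤ E ^ 2 := by
    have h2 : η ≤ E ^ 2 / (80 * A) := min_le_right _ _
    rw [le_div_iff₀ (by positivity)] at h2
    linarith
  have hη2 : 2 * (40 * A * η) ≤ E := by nlinarith
  -- the modulus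
  set T : ℝ := max (max (max X₀ X₁) (max Z₀ 256)) (max (max (Real.exp 1) (C1 ^ 4 + 1)) ((8 / E) ^ 4))
    with hT
  obtain ⟨q0', hq0'⟩ := exists_nat_ge T
  set q0 : ℕ := max q0' 2 with hq0
  obtain ⟨ε, hε, hlarge⟩ := Pool.Agent.SD.near_large q0
  have hl2 : 0 < Real.log 2 := Real.log_pos (by norm_num)
  have hno' : ¬ NS (min η (ε * Real.log 2)) := fun h => hno ⟨_, by positivity, h⟩
  unfold NS at hno'
  push Not at hno'
  obtain ⟨q, χ, hχ, hsq, β, hβ0, hβ⟩ := hno'
  have hq1 : 1 ≤ q := by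
    rcases Nat.eq_zero_or_pos q with h | h
    · subst h
      unfold Pool.Agent.GA.LF at hβ0
      rw [dif_pos rfl] at hβ0
      exact absurd hβ0 one_ne_zero
    · exact h
  have hβ1 : β < 1 := by
    have : NeZero q := ⟨by omega⟩
    have h2 := Pool.Agent.GA.z3_zero_re (Pool.Agent.GA.z3_Prm hχ).2 hβ0
    simpa using h2
  have hq2 : 2 ≤ q := by
    by_contra h
    have h2 : q = 1 := by omega
    subst h2
    rw [Nat.cast_one, Real.log_one, div_zero] at hβ
    linarith
  have hlq2 : Real.log 2 ≤ Real.log q := Real.log_le_log (by norm_num) (by exact_mod_cast hq2)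
  have hlq0 : 0 < Real.log q := by linarith
  have hβε : 1 - ε < β := by
    have h2 : min η (ε * Real.log 2) / Real.log q ≤ ε := by
      rw [div_le_iff₀ hlq0]
      calc min η (ε * Real.log 2) ≤ ε * Real.log 2 := min_le_right _ _
        _ ≤ ε * Real.log q := mul_le_mul_of_nonneg_left hlq2 hε.le
    linarith
  have hβη : (1 - β) * Real.log q ≤ η := by
    have h2 : 1 - β < min η (ε * Real.log 2) / Real.log q := by linarith
    rw [lt_div_iff₀ hlq0] at h2
    exact h2.le.trans (min_le_left _ _)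
  have hq0q : q0 ≤ q := hlarge q χ β hq1 hχ hsq hβ0 hβε
  have hqT : T ≤ (q : ℝ) := hq0'.trans (by exact_mod_cast (le_max_left _ _).trans hq0q)
  have hqR1 : (1 : ℝ) ≤ q := by exact_mod_cast hq1
  have hqR0 : (0 : ℝ) < q := by linarith
  have hqA : (q : ℝ) ≤ (q : ℝ) ^ A := by
    calc (q : ℝ) = (q : ℝ) ^ (1 : ℝ) := (Real.rpow_one _).symm
      _ ≤ (q : ℝ) ^ A := Real.rpow_le_rpow_of_exponent_le hqR1 hA1
  have hTA : T ≤ (q : ℝ) ^ A := hqT.trans hqA
  have hZA : Z₀ ≤ (q : ℝ) ^ A :=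
    ((le_max_left _ _).trans ((le_max_right _ _).trans (le_max_left _ _))).trans hTA
  obtain ⟨N, hN1, hN2, hN3⟩ := hZ₀ _ hZA
  have hTN : T ≤ (N : ℝ) := hTA.trans hN1
  have hNX₀ : X₀ ≤ N :=
    (((le_max_left _ _).trans (le_max_left _ _)).trans (le_max_left _ _)).trans hTN
  have hNX₁ : X₁ ≤ N :=
    (((le_max_right _ _).trans (le_max_left _ _)).trans (le_max_left _ _)).trans hTN
  have hN256 : (256 : ℝ) ≤ N :=
    (((le_max_right _ _).trans (le_max_right _ _)).trans (le_max_left _ _)).trans hTN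
  have hNe : Real.exp 1 ≤ N :=
    (((le_max_left _ _).trans (le_max_left _ _)).trans (le_max_right _ _)).trans hTN
  have hNC : C1 ^ 4 + 1 ≤ N :=
    (((le_max_right _ _).trans (le_max_left _ _)).trans (le_max_right _ _)).trans hTN
  have hNE : (8 / E) ^ 4 ≤ N := ((le_max_right _ _).trans (le_max_right _ _)).trans hTN
  have hN0 : (0 : ℝ) < N := by linarith
  have hN1' : (1 : ℝ) ≤ N := by linarith
  set L : ℝ := Real.log N with hL
  have hL1 : 1 ≤ L := by
    rw [hL, Real.le_log_iff_exp_le hN0]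
    exact hNe
  have hL0 : 0 < L := by linarith
  -- `L` and `log q`
  have hLlow : A * Real.log q ≤ L := by
    rw [hL, ← Real.log_rpow hqR0]
    exact Real.log_le_log (Real.rpow_pos_of_pos hqR0 _) hN1
  have hLup : L ≤ 40 * A * Real.log q := by
    have h2 : L ≤ Real.log (((q : ℝ) ^ A) ^ (40 : ℝ)) := Real.log_le_log hN0 hN2
    rw [Real.log_rpow (Real.rpow_pos_of_pos hqR0 _), Real.log_rpow hqR0] at h2
    linarith
  have hθ : (1 - β) * L ≤ 40 * A * η := by
    calc (1 - β) * L ≤ (1 - β) * (40 * A * Real.log q) :=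
          mul_le_mul_of_nonneg_left hLup (by linarith)
      _ = 40 * A * ((1 - β) * Real.log q) := by ring
      _ ≤ 40 * A * η := mul_le_mul_of_nonneg_left hβη (by positivity)
  have hlqE : Real.log q ≤ E * L := by
    calc Real.log q = 1 * Real.log q := (one_mul _).symm
      _ ≤ (E * A) * Real.log q := mul_le_mul_of_nonneg_right hAE hlq0.le
      _ = E * (A * Real.log q) := by ring
      _ ≤ E * L := mul_le_mul_of_nonneg_left hLlow hE0.le
  have hsqrt : Real.sqrt ((1 - β) * L) ≤ E := by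
    rw [show E = Real.sqrt (E ^ 2) by rw [Real.sqrt_sq hE0.le]]
    apply Real.sqrt_le_sqrt
    have : 0 ≤ 40 * A * η := by positivity
    linarith
  have hexc : IsExc a b δ (N : ℝ) q χ β := by
    refine ⟨?_, ⟨hχ, hsq, hq1⟩, hβ0, ?_⟩
    · calc (q : ℝ) = (q : ℝ) ^ (1 : ℝ) := (Real.rpow_one _).symm
        _ ≤ (q : ℝ) ^ (A * (a * δ)) := Real.rpow_le_rpow_of_exponent_le hqR1 hAaδ
        _ = ((q : ℝ) ^ A) ^ (a * δ) := Real.rpow_mul hqR0.le _ _
        _ ≤ (N : ℝ) ^ (a * δ) :=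
            Real.rpow_le_rpow (Real.rpow_nonneg hqR0.le _) hN1 (by positivity)
    · have h2 : 1 - β < b / (δ * L) := by
        have h3 : 1 - β < min η (ε * Real.log 2) / Real.log q := by linarith
        refine h3.trans_le ?_
        rw [div_le_div_iff₀ hlq0 (by positivity)]
        have h4 : min η (ε * Real.log 2) ≤ η := min_le_left _ _
        calc min η (ε * Real.log 2) * (δ * L) ≤ η * (δ * L) :=
              mul_le_mul_of_nonneg_right h4 (by positivity)
          _ ≤ η * (δ * (40 * A * Real.log q)) := by gcongr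
          _ = (40 * A * η * δ) * Real.log q := by ring
          _ ≤ b * Real.log q := mul_le_mul_of_nonneg_right hη1 hlq0.le
      linarith
  refine ⟨(N : ℝ), hNX₀, fun Y hY1 hY2 => ?_⟩
  set W : ℕ → ℝ := fun Q => (N : ℝ) ^ (2 * β - 1) * max 0 (Real.log ((N : ℝ) / (q * Q))) with hWdef
  have hYC : Y ≤ N / C := hY2.trans (div_le_div_of_nonneg_left hN0.le hC (le_max_left _ _))
  have hY22 : 2 * Y ≤ N := by
    have h2 : Y ≤ N / 2 := hY2.trans (div_le_div_of_nonneg_left hN0.le two_pos (le_max_right _ _))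
    linarith
  have hmain : ∑ Q ∈ QR Y, |V N Q - (N * Real.log Q - W Q)| ≤
      (C * Real.sqrt ((1 - β) * Real.log N) + E) * (N * Real.log N) * (Y / Real.log Y) :=
    hX₁ (N : ℝ) hNX₁ q χ β hexc Y hY1 hYC
  have hY34 : (N : ℝ) ^ (3 / 4 : ℝ) ≤ Y :=
    (Real.rpow_le_rpow_of_exponent_le hN1' (by linarith)).trans hY1
  have hYC1 : C1 ≤ Y := by
    refine le_trans ?_ hY34
    have h2 : C1 ^ 4 ≤ (N : ℝ) := by linarith
    have h3 : C1 ≤ (N : ℝ) ^ (1 / 4 : ℝ) := by
      calc C1 = (C1 ^ 4) ^ (1 / 4 : ℝ) := by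
            rw [← Real.rpow_natCast, ← Real.rpow_mul hC1.le]
            norm_num
        _ ≤ _ := Real.rpow_le_rpow (by positivity) h2 (by norm_num)
    exact h3.trans (Real.rpow_le_rpow_of_exponent_le hN1' (by norm_num))
  have hcard := (h1 Y hYC1).1
  -- one prime
  have hterm : ∀ Q ∈ QR Y, |FGP.GV N Q - N * (2 * Real.log Q - Real.log N)| ≤
      |V N Q - (N * Real.log Q - W Q)| + 3 * (E * (N * L)) := by
    intro Q hQ
    unfold QR at hQ
    rw [mem_filter, mem_Icc] at hQ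
    obtain ⟨⟨hQ1, hQ2⟩, hQp, hYQ⟩ := hQ
    have hYpos : 0 < Y := (Real.rpow_pos_of_pos hN0 _).trans_le hY34
    have hQY : (Q : ℝ) ≤ 2 * Y :=
      le_trans (by exact_mod_cast hQ2) (Nat.floor_le (by linarith))
    have hQ0 : (0 : ℝ) < Q := by linarith
    have hQN : (Q : ℝ) ≤ N := by linarith
    have hpv := f4_pv0 (by exact_mod_cast hN256) hN3 hQp hYQ hY34
    set u : ℝ := L - Real.log Q with hu
    have hu0 : 0 ≤ u := by
      have := Real.log_le_log hQ0 hQN
      linarith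
    have hu1 : u ≤ δ * L := by
      have h2 : (1 - δ) * L ≤ Real.log Q := by
        rw [hL, ← Real.log_rpow hN0]
        exact Real.log_le_log (Real.rpow_pos_of_pos hN0 _) (hY1.trans hYQ.le)
      linarith
    have hWQ : W Q = (N : ℝ) ^ (2 * β - 1) * max 0 (u - Real.log q) := by
      rw [hWdef]
      show (N : ℝ) ^ (2 * β - 1) * max 0 (Real.log ((N : ℝ) / (q * Q))) = _
      rw [Real.log_div hN0.ne' (by positivity), Real.log_mul hqR0.ne' hQ0.ne', hu]
      congr 2
      ring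
    have hWu := f4_W (X := N) (L := L) (u := u) (lq := Real.log q) hN0 rfl hβ1 hθ hL0.le hu0
      hlq0.le
    rw [← hWQ] at hWu
    have hWu2 : |W Q - N * u| ≤ 2 * (E * (N * L)) := by
      refine hWu.trans ?_
      have h2 : 2 * (40 * A * η) * u ≤ E * L := by
        calc 2 * (40 * A * η) * u ≤ E * (δ * L) := mul_le_mul hη2 hu1 hu0 hE0.le
          _ ≤ E * L := by
            refine mul_le_mul_of_nonneg_left ?_ hE0.le
            nlinarith
      have h3 : 2 * (40 * A * η) * u + Real.log q ≤ 2 * (E * L) := by linarith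
      calc (N : ℝ) * (2 * (40 * A * η) * u + Real.log q) ≤ N * (2 * (E * L)) :=
            mul_le_mul_of_nonneg_left h3 hN0.le
        _ = _ := by ring
    have hpv2 : |PV0 N Q| ≤ E * (N * L) := by
      refine hpv.trans ?_
      have h2 : 8 / E ≤ (N : ℝ) ^ (1 / 4 : ℝ) := by
        calc 8 / E = ((8 / E) ^ 4) ^ (1 / 4 : ℝ) := by
              rw [← Real.rpow_natCast, ← Real.rpow_mul (by positivity)]
              norm_num
          _ ≤ _ := Real.rpow_le_rpow (by positivity) hNE (by norm_num)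
      have h3 : 8 ≤ E * (N : ℝ) ^ (1 / 4 : ℝ) := by
        rw [div_le_iff₀ hE0] at h2
        linarith
      have h34 : 0 ≤ (N : ℝ) ^ (3 / 4 : ℝ) := Real.rpow_nonneg hN0.le _
      calc 8 * (N : ℝ) ^ (3 / 4 : ℝ) ≤ (E * (N : ℝ) ^ (1 / 4 : ℝ)) * (N : ℝ) ^ (3 / 4 : ℝ) :=
            mul_le_mul_of_nonneg_right h3 h34
        _ = E * N := by
            rw [mul_assoc, ← Real.rpow_add hN0]
            norm_num
        _ ≤ E * (N * L) := by
            refine mul_le_mul_of_nonneg_left ?_ hE0.le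
            exact le_mul_of_one_le_right hN0.le hL1
    have e1 : FGP.GV N Q - N * (2 * Real.log Q - Real.log N) =
        (V N Q - (N * Real.log Q - W Q)) + (PV0 N Q - (W Q - N * u)) := by
      unfold V
      rw [hu]
      ring
    rw [e1]
    have h5 := abs_add_le (V N Q - (N * Real.log Q - W Q)) (PV0 N Q - (W Q - N * u))
    have h6 := abs_sub (PV0 (N : ℝ) Q) (W Q - N * u)
    linarith
  refine (sum_le_sum hterm).trans ?_
  rw [sum_add_distrib, sum_const, nsmul_eq_mul]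
  have hNL : 0 ≤ (N : ℝ) * L := by positivity
  have hcn : (0 : ℝ) ≤ ((QR Y).card : ℝ) := Nat.cast_nonneg _
  have hYl : 0 ≤ Y / Real.log Y := by
    have hY1' : 1 ≤ Y := by
      refine le_trans ?_ hY34
      exact Real.one_le_rpow hN1' (by norm_num)
    exact div_nonneg (by linarith) (Real.log_nonneg hY1')
  calc ∑ Q ∈ QR Y, |V N Q - (N * Real.log Q - W Q)| + ((QR Y).card : ℝ) * (3 * (E * (N * L)))
      ≤ (C * E + E) * (N * L) * (C1 * (QR Y).card) + ((QR Y).card : ℝ) * (3 * (E * (N * L))) := by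
        refine add_le_add (hmain.trans ?_) le_rfl
        refine mul_le_mul ?_ hcard hYl (by positivity)
        refine mul_le_mul_of_nonneg_right ?_ hNL
        have := mul_le_mul_of_nonneg_left hsqrt hC.le
        linarith
    _ = (E * (C * C1 + C1 + 3)) * (N * L) * (QR Y).card := by ring
    _ ≤ ε' * (N * L) * (QR Y).card := by gcongr

end Pool.Agent.DH
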