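import Pool.Agent.Lib_helper59.DH.M1
import Pool.Agent.Lib_helper59.DH.M2
import Pool.Agent.Lib_helper59.DH.M3
import Pool.Agent.Lib_helper59.DH.M4
import Pool.Agent.Lib_helper59.DH.M5
import Pool.Agent.Lib_helper59.DH.M6
import Pool.Agent.Lib_helper59.DH.M7
import Pool.Agent.Lib_helper59.DH.M8
import Pool.Agent.Lib_helper59.SZ.All

/-!
# DH: the blocks put together
-/

set_option autoImplicit false

namespace Pool.Agent.DH

open Pool.Agent.FGP Pool.Agent.FGA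

theorem a1 : A1 := A1_pr
theorem a5 : A5 := A5_pr a1 A4_pr
theorem c2 : C2 := C2_pr
theorem c6 : C6 := C6_pr C1_pr c2 C3_pr
theorem c7 : C7 := C7_pr B1_pr a5 a1 C1_pr C4_pr C5_pr c6 c2
theorem den : DEN := DEN_pr c7 c2
theorem e2 : E2 := E2_pr den

theorem e4 (c₀ : ℝ) (hU : UZ c₀) : E4 c₀ := by
  have hB := LHM.WZB_pr c₀ hU.1
  exact E4_pr c₀ f01 hB (E3_pr c₀ hB (E1_pr c₀ hU den c2) e2 f01 f02)

theorem eeb : EEB := EEB_pr SZ.z1 e4
theorem f1 : F1 := F1_pr SZ.s18 eeb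
theorem aax17 : AAX17 := AAX17_pr f1
theorem aax : AAX := AAX_pr f1
theorem f4x : F4X := F4X_pr aax SZ.f1 WSC_pr

theorem aa17 : SD.AA17 := SD.AA17_pr SZ.s18 SZ.s18g SZ.ze

end Pool.Agent.DH
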