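import Pool.Agent.Lib_helper59.SZ.W
import Pool.Agent.Lib_helper98.GAF.X5
import Pool.Agent.Lib_helper98.GAF.Den3

/-!
# DH: the Deuring-Heilbronn phenomenon (MP_5dd4bb_nt). Blocks

GOAL (DEN): if `β` is an exceptional zero of the real character `χ` modulo `q₁ ≤ D`, then the log-free zero density theorem
(`GA.density`) holds for ALL other zeros (of all primitive characters of conductor `≤ D` and of zeta), with the additional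
factor `(1-β) log D + D^(-c)`. CONSEQUENCE (EEB): the energy `EEW` of the library SZ is at most
`C N ((1-β) log K + K^(-c))`, hence the asymptotic formula with `o(1)` for every fixed `δ` (AAX, F4X).

METHOD (Bombieri): Gallagher's proof (files GAF/Abs, Den, WMS) for the products `L(s, ψ) L(s, ψ χ)`; the coefficients are
`Λ(n) ψ(n) (1 + χ(n))`, and `1 + χ(p)` is small on average (part A). The pole of zeta and the zero `β` cancel up to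
`(j+1)(1-β)/δ` in the `j`-th derivative (part C).

Blocks are Props; a block proves `theorem <name>_pr (hypotheses = the Props of the column uses, in this order) : <name>`,
file `DH_<name>_<seat>.lean` in namespace `Pool.Agent.DH`. Landed files may be imported: Lib_helper98/GAF,
Lib_helper3/FGP, Lib_helper59/LHM, Lib_helper59/SZ, Lib_helper26/XSF (`XS.lap_pr`), Lib_helper26/SD ...
-/

set_option autoImplicit false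

namespace Pool.Agent.DH

open Finset Complex Metric Pool.Agent.GA
open scoped ArithmeticFunction.vonMangoldt Classical

/-! ## Definitions -/

/-- the exceptional zero -/
structure Ex {q₁ : ℕ} (D : ℕ) (χ : DirichletCharacter ℂ q₁) (β : ℝ) : Prop where
  hD : 2 ≤ D
  hq : 1 ≤ q₁
  hqD : q₁ ≤ D
  hχ : χ ∈ Prm q₁
  h2 : χ ^ 2 = 1
  hβ : 15 / 16 ≤ β
  hβ1 : β < 1
  hz : LF χ (β : ℂ) = 0

/-- the values of `χ` as real numbers -/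
noncomputable def cr {q₁ : ℕ} (χ : DirichletCharacter ℂ q₁) (n : ℕ) : ℝ := (χ (n : ZMod q₁)).re

/-- the window of primes with a weight `w` (compare `GA.Pw`) -/
noncomputable def Pv (w : ℕ → ℝ) {q : ℕ} (χ : DirichletCharacter ℂ q) (j : ℕ) (δ v : ℝ) (a b : ℕ) :
    ℂ :=
  ∑ p ∈ (Ioc a b).filter Nat.Prime,
    ((w p * (Real.log p ^ (j + 1) / (j.factorial : ℝ)) : ℝ) : ℂ) * χ (p : ZMod q) *
      (p : ℂ) ^ (-(1 + δ + v * I) : ℂ)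

/-- `L(s, ψ)`, divided by `s - β` if `ψ` is the exceptional character -/
noncomputable def LFd {q₁ q : ℕ} (χ : DirichletCharacter ℂ q₁) (β : ℝ) (ψ : DirichletCharacter ℂ q) :
    ℂ → ℂ :=
  if SZ.Same χ ψ then dslope (LF ψ) (β : ℂ) else LF ψ

/-- the ends of the window -/
noncomputable def wa (δ : ℝ) (K : ℕ) : ℕ := ⌊Real.exp (K / (100 * δ))⌋₊

/-- the ends of the window -/
noncomputable def wb (δ : ℝ) (K : ℕ) : ℕ := ⌊Real.exp (40 * K / δ)⌋₊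

/-! ## Part A: the primes with `χ(p) = 1` are rare -/

/-- A1 : values of `χ` -/
def A1 : Prop := ∀ (q₁ : ℕ) (χ : DirichletCharacter ℂ q₁), 1 ≤ q₁ → χ ^ 2 = 1 →
  (∀ n : ℕ, χ (n : ZMod q₁) = (cr χ n : ℂ) ∧ |cr χ n| ≤ 1) ∧
  ∀ m n : ℕ, cr χ (m * n) = cr χ m * cr χ n

/-- A4 : the primes (helper26; elementary). PROOF: `f = 1 * χ ≥ 0` (Mathlib: `DirichletCharacter.zetaMul_nonneg`), `f(p) = 1 + χ(p)`.
`S(x) = ∑_{n ≤ x} f(n) n^(-β) = L(1) x^(1-β)/(1-β) + O(q₁ x^(-1/4))` by the hyperbola method and `L(β) = 0`. The products `p m`,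
`m ≤ a < p ≤ b`, are in `(a, ab]`, each `n ≤ ab` has at most `log (ab)/log a` prime divisors `> a`, so
`P S(a) ≤ (log (ab)/log a) (S(ab) - S(a)) ≤ (..) (L(1) a^(1-β) b^(1-β) log b + ..)`, and `S(a) ≥ 1`, `S(a) ≥ L(1) a^(1-β)/(1-β) - small`. -/
def A4 : Prop := ∃ C c : ℝ, 1 ≤ C ∧ 0 < c ∧ ∀ (q₁ : ℕ) (χ : DirichletCharacter ℂ q₁) (β : ℝ),
  1 ≤ q₁ → χ ∈ Prm q₁ → χ ^ 2 = 1 → 15 / 16 ≤ β → β < 1 → LF χ (β : ℂ) = 0 →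
  ∀ a b : ℕ, 2 ≤ a → q₁ ^ 8 ≤ a → a ≤ b →
  ∑ p ∈ (Ioc a b).filter Nat.Prime, (1 + cr χ p) * (Real.log p / p) ≤
    C * (Real.log b / Real.log a) ^ 2 * ((1 - β) * Real.log b ^ 2) +
      C * Real.log b ^ 3 * (a : ℝ) ^ (-c)

/-- A5 : the form used in the large sieve (uses `A1`, `A4`). `(1 + χ)² ≤ 2 (1 + χ)`, `p^(-(1+δ)) ≤ 1/p`; `log b ≤ 40 K/δ ≤ 8000 log a`
(`x = K/(100 δ) ≥ 6`, `log ⌊e^x⌋ ≥ x/2`), `δ (1-β) (40 K/δ)² ≤ 1600 K² · 8 (1-β) log D`, `δ (40 K/δ)³ a^(-c) ≤ C K³ (log D)² a^(-c)`,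
`a ≥ D^8`; powers of `K` into `C^K`. -/
def A5 : Prop := ∃ C c : ℝ, 1 ≤ C ∧ 0 < c ∧ ∀ (D q₁ : ℕ) (χ : DirichletCharacter ℂ q₁) (β : ℝ),
  Ex D χ β → ∀ (δ : ℝ) (K : ℕ), 1 / (8 * Real.log D) ≤ δ → δ ≤ 1 / 600 → 1 ≤ K → D ^ 8 ≤ wa δ K →
  δ * ∑ p ∈ (Ioc (wa δ K) (wb δ K)).filter Nat.Prime,
    (1 + cr χ p) ^ 2 * (Real.log p * (p : ℝ) ^ (-(1 + δ))) ≤
    C ^ K * ((1 - β) * Real.log D + (D : ℝ) ^ (-c))

/-! ## Part B: the mean square -/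

/-- B1 : `GAT.window_mean_square` with weights (model GAF/WMS.lean: copy `wms_Pw`, `wms_one`, `window_mean_square`; `wms_term`,
`wms_pow_exp`, `wms_fact` are used unchanged) -/
def B1 : Prop := ∃ C : ℝ, 1 ≤ C ∧ ∀ D : ℕ, 2 ≤ D → ∀ K : ℕ, 1 ≤ K → ∀ δ : ℝ, 0 < δ → δ ≤ 1 →
  ∀ a b : ℕ, D ^ 5 ≤ a → ∀ w : ℕ → ℝ,
  Real.log D * ∑ q ∈ Icc 1 D, ∑ ψ ∈ GAT.Prp q, ∫ v in (-(2 * D : ℝ))..(2 * D : ℝ),
      ∑ j ∈ Icc K (2 * K), (δ ^ (j + 1) * ‖Pv w ψ j δ v a b‖) ^ 2 ≤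
    C ^ K * (δ * ∑ p ∈ (Ioc a b).filter Nat.Prime, w p ^ 2 * (Real.log p * (p : ℝ) ^ (-(1 + δ))))

/-! ## Part C: the zeros -/

/-- C1 : local data of a product. (`analyticOrderNatAt` of a product of entire functions which are not identically `0`;
`zb (f₁ f₂) c R = zb f₁ c R ∪ zb f₂ c R`, sums over the union with `mlt f₁ + mlt f₂`.) -/
def C1 : Prop := ∀ (f₁ f₂ : ℂ → ℂ), Differentiable ℂ f₁ → Differentiable ℂ f₂ →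
  (∀ s : ℂ, 1 ≤ s.re → f₁ s ≠ 0) → (∀ s : ℂ, 1 ≤ s.re → f₂ s ≠ 0) →
  (∀ (G₁ G₂ : ℕ → ℂ → ℂ) (C₁ C₂ ℒ t : ℝ), LD f₁ G₁ C₁ ℒ t → LD f₂ G₂ C₂ ℒ t →
    LD (fun s => f₁ s * f₂ s) (fun j s => G₁ j s + G₂ j s) (C₁ + C₂) ℒ t) ∧
  ∀ a T : ℝ, nz (fun s => f₁ s * f₂ s) a T = nz f₁ a T + nz f₂ a T

/-- C2 : local data after division by `s - β`. (`f = (s - β) dslope f β`; `mlt (dslope f β) ρ = mlt f ρ` for `ρ ≠ β`, `mlt f β - 1` for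
`ρ = β`. If `β` is not in the ball `zb f c (1/4)` the new term is at most `4^(j+1) ≤ 4 · 16^j`.) -/
def C2 : Prop := ∀ (f : ℂ → ℂ) (β : ℝ), Differentiable ℂ f → (∀ s : ℂ, 1 ≤ s.re → f s ≠ 0) →
  β < 1 → f (β : ℂ) = 0 →
  Differentiable ℂ (dslope f (β : ℂ)) ∧ (∀ s : ℂ, 1 ≤ s.re → dslope f (β : ℂ) s ≠ 0) ∧
  (∀ ρ : ℂ, mlt (dslope f (β : ℂ)) ρ = mlt f ρ - if ρ = (β : ℂ) then 1 else 0) ∧
  (∀ a T : ℝ, nz (dslope f (β : ℂ)) a T ≤ nz f a T) ∧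
  ∀ (G : ℕ → ℂ → ℂ) (C ℒ t : ℝ), 0 ≤ C → LD f G C ℒ t →
    LD (dslope f (β : ℂ)) (fun j s => G j s + (j.factorial : ℂ) / (s - β) ^ (j + 1)) (C + 4) ℒ t

/-- C3 : local data of `(s-1) ζ(s)` at every height. (`|t| ≥ 1/2`: `GA.LD_zeta` (with `GA.z2_growth`, see `GAT.density_zeta` and its use
in `FGP.W03_pr`), `|c - 1| ≥ 1/2`. `|t| < 1/2`: `expa_gen`, `cnt_gen`, `near_gen` with a lower bound for `|riemannZeta₁|` on the compact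
set `1 ≤ re ≤ 2, |im| ≤ 1`, upper bound on a bigger one; `z1_deriv`.) -/
def C3 : Prop := ∃ C : ℝ, 1 ≤ C ∧ ∀ t ℒ : ℝ, 1 ≤ ℒ → lt 1 t ≤ ℒ →
  LD riemannZeta₁ (fun j s => Gj (1 : DirichletCharacter ℂ 1) j s -
    (j.factorial : ℂ) / (s - 1) ^ (j + 1)) C ℒ t

/-- C4 : one function (model `LD.window_lower` in GAF/Abs.lean and `GAT.zeros_one` in GAF/Den.lean; uses nothing). For every
zero: `LD.deriv_lower`, `window_error` for both characters, `(2/9)(2/5)^j - 2 · (1/9)(1/36..)^j - (1/2)(1/100)^K ≥ (1/200)^K`;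
then `GAT.cover`. (`4 log D` is replaced by `8 log D`.) -/
def C4 : Prop := ∀ C : ℝ, 1 ≤ C → ∃ B : ℝ, 500 ≤ B ∧ ∀ D : ℕ, 2 ≤ D → ∀ (q q' : ℕ),
  1 ≤ q → 1 ≤ q' → ∀ (ψ : DirichletCharacter ℂ q) (ψ' : DirichletCharacter ℂ q') (f : ℂ → ℂ)
  (G : ℕ → ℂ → ℂ) (δ : ℝ), 1 / (8 * Real.log D) ≤ δ → δ ≤ 1 / 600 → Differentiable ℂ f →
  (∀ s : ℂ, 1 ≤ s.re → f s ≠ 0) →
  (∀ v : ℝ, |v| ≤ D + 1 → LD f G C (8 * Real.log D) v) → ∀ K : ℕ, B * (δ * (8 * Real.log D)) ≤ K →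
  (∀ v : ℝ, ∀ j ∈ Icc K (2 * K), δ ^ (j + 1) * ‖(G j (1 + δ + v * I) - Gj ψ j (1 + δ + v * I) -
    Gj ψ' j (1 + δ + v * I)) / (j.factorial : ℂ)‖ ≤ 1 / 2 * (1 / 100 : ℝ) ^ K) →
  nz f δ D * (1 / 200 : ℝ) ^ (2 * K) ≤ 8 * C * Real.log D *
    ∫ v in (-(2 * D : ℝ))..(2 * D : ℝ), ∑ j ∈ Icc K (2 * K), (δ ^ (j + 1) *
      ‖Pw ψ j δ v (wa δ K) (wb δ K) + Pw ψ' j δ v (wa δ K) (wb δ K)‖) ^ 2

/-- C5 : the product of two characters. PROOF: `ψ`, `χ` lifted to the modulus `q q₁`, their product, its primitive character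
(`DirichletCharacter.changeLevel`, `primitiveCharacter`, `conductor`); if it is trivial then `ψ` and `χ` (`χ = χ⁻¹`) have the same lift,
so the same primitive character, `Same χ ψ`. -/
def C5 : Prop := ∀ (q q₁ : ℕ) (ψ : DirichletCharacter ℂ q) (χ : DirichletCharacter ℂ q₁), 1 ≤ q →
  1 ≤ q₁ → ψ.IsPrimitive → χ.IsPrimitive → χ ^ 2 = 1 → ¬ SZ.Same χ ψ →
  ∃ (q' : ℕ) (ψ' : DirichletCharacter ℂ q'), 1 ≤ q' ∧ q' ≤ q * q₁ ∧ ψ' ∈ Prm q' ∧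
    ∀ p : ℕ, p.Prime → q * q₁ < p → ψ' (p : ZMod q') = ψ (p : ZMod q) * χ (p : ZMod q₁)

/-- C6 : the special function (uses `C1`, `C2`, `C3`). `f₀ = riemannZeta₁ · dslope (LF χ) β`, `G₀ j = Gj 1 j + Gj χ j - j!/(s-1)^(j+1) +
j!/(s-β)^(j+1)`; `LD_char` for `χ` with `lt q₁ v ≤ 8 log D` (`|v| ≤ D + 1`); the difference of the two last terms, times
`δ^(j+1)/j!`, is at most `(j+1)(1-β)/δ` at `s = 1 + δ + i v` (`|s - 1|, |s - β| ≥ δ`). -/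
def C6 : Prop := ∃ C : ℝ, 1 ≤ C ∧ ∀ (D q₁ : ℕ) (χ : DirichletCharacter ℂ q₁) (β : ℝ), Ex D χ β →
  ∃ G : ℕ → ℂ → ℂ, (∀ v : ℝ, |v| ≤ D + 1 →
    LD (fun s => riemannZeta₁ s * dslope (LF χ) (β : ℂ) s) G C (8 * Real.log D) v) ∧
  (∀ a T : ℝ, nz (fun s => riemannZeta₁ s * dslope (LF χ) (β : ℂ) s) a T =
    nz riemannZeta₁ a T + nz (dslope (LF χ) (β : ℂ)) a T) ∧
  ∀ (δ : ℝ), 0 < δ → δ ≤ 1 → ∀ (v : ℝ) (j : ℕ), δ ^ (j + 1) * ‖(G j (1 + δ + v * I) -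
    Gj (1 : DirichletCharacter ℂ 1) j (1 + δ + v * I) - Gj χ j (1 + δ + v * I)) /
      (j.factorial : ℂ)‖ ≤ (j + 1) * (1 - β) / δ

/-- C7 : the density of the products (uses `B1`, `A5`, `A1`, `C1`, `C4`, `C5`, `C6`; model `GAT.dens_core`). `K = ⌈B δ 8 log D⌉`, `B` the
maximum of the constants; ordinary characters: `f = LF ψ · LF ψ'`, `G = Gj ψ + Gj ψ'` (the hypothesis of `C4` is trivial);
`Pw ψ + Pw ψ' = Pv (1 + χ) ψ` on the window since `wa δ K ≥ D^5 > q q₁` (`Pw ψ'` by `C5`), special function: `ψ = 1` modulo `1`, `ψ' = χ`;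
its hypothesis holds if `(2K+1)(1-β)/δ ≤ (1/2)(1/100)^K`; if not, `(1-β) log D ≥ exp(-C' (1 + δ log D))` and `GA.density`,
`GAT.density_zeta` (`nz_dslope ≤ nz`) suffice. Sum with `B1` (`w = 1 + cr χ`) and `A5`. -/
def C7 : Prop := ∃ C c : ℝ, 1 ≤ C ∧ 0 < c ∧ ∀ (D q₁ : ℕ) (χ : DirichletCharacter ℂ q₁) (β : ℝ),
  Ex D χ β → ∀ δ : ℝ, 1 / (8 * Real.log D) ≤ δ → δ ≤ 1 / 600 →
  (∑ q ∈ Icc 1 D, ∑ ψ ∈ Prm q, nz (LFd χ β ψ) δ D) + nz riemannZeta₁ δ D ≤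
    ((1 - β) * Real.log D + (D : ℝ) ^ (-c)) * Real.exp (C * (1 + δ * Real.log D))

/-- DEN : **log-free zero density with the Deuring-Heilbronn factor** (uses `C7`, `C2`; model `GAT.glue`, `GAT.density`). Small `δ`: monotone;
`δ > 1/600` (or `8 log D < 600`): trivial bound `C D^4 ≤ D^(-c) exp(C' (1 + δ log D))`. -/
def DEN : Prop := ∃ C c : ℝ, 1 ≤ C ∧ 0 < c ∧ ∀ (D q₁ : ℕ) (χ : DirichletCharacter ℂ q₁) (β : ℝ),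
  Ex D χ β → ∀ δ : ℝ, 0 ≤ δ → δ ≤ 1 / 16 →
  (∑ q ∈ Icc 1 D, ∑ ψ ∈ Prm q, nz (LFd χ β ψ) δ D) + nz riemannZeta₁ δ D ≤
    ((1 - β) * Real.log D + (D : ℝ) ^ (-c)) * Real.exp (C * (1 + δ * Real.log D))

/-! ## Part E: the energy -/

/-- `c₀` is a zero-free constant with at most one bad zero (the body of `SZ.Z1`) -/
def UZ (c₀ : ℝ) : Prop := LHM.ZF c₀ ∧ ∀ D : ℕ, 2 ≤ D →
  ∑ q ∈ Icc 1 D, ∑ χ ∈ Prm q, ∑ ρ ∈ LHM.BZ c₀ D χ, mlt (LF χ) ρ ≤ 1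

/-- E1 : Gallagher's theorem with the bad zero and the factor (uses `UZ c₀`, `DEN`, `C2`; model LHM/ZC.lean). `β` is the only
bad zero, simple; so the zeros of `LF ψ` with `re ≤ 1 - c₀/log D` are zeros of `LFd χ β ψ` with the same multiplicity. The zero
sums are treated by `DEN` instead of `GA.density` (the factor goes through `zc_zero_sum`); the error terms `exp(-M/132)` are
at most `D^(-c)`. -/
def E1 (c₀ : ℝ) : Prop := ∃ C c A : ℝ, 1 ≤ C ∧ 0 < c ∧ 1 ≤ A ∧ ∀ (D q₁ : ℕ)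
  (χ : DirichletCharacter ℂ q₁) (β : ℝ), 4 ≤ D → Ex D χ β → 1 - c₀ / Real.log D < β →
  ∀ (k : ℕ) (M : ℝ), 2 ≤ M → A * Real.log D ≤ M → M ^ 2 ≤ k → 4 * k ≤ D ^ 2 * M →
  ∑ q ∈ Icc 1 D, ∑ ψ ∈ Prm q, ‖SKP ψ k M 0 + ((LHM.wg c₀ D ψ k M : ℝ) : ℂ)‖ ≤
    C * ((1 - β) * Real.log D + (D : ℝ) ^ (-c))

/-- E2 : the same for zeta (uses `DEN`; model `GA.gal_zeta` in GAF/X5.lean, `t = 0`) -/
def E2 : Prop := ∃ C c A : ℝ, 1 ≤ C ∧ 0 < c ∧ 1 ≤ A ∧ ∀ (D q₁ : ℕ)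
  (χ : DirichletCharacter ℂ q₁) (β : ℝ), 4 ≤ D → Ex D χ β →
  ∀ (k : ℕ) (M : ℝ), 2 ≤ M → A * Real.log D ≤ M → M ^ 2 ≤ k → 4 * k ≤ D ^ 2 * M →
  ‖SKP (1 : DirichletCharacter ℂ 1) k M 0 - 1‖ ≤ C * ((1 - β) * Real.log D + (D : ℝ) ^ (-c))

/-- E3 : the energy of one window (uses `LHM.WZB c₀`, `E1 c₀`, `E2`, `FGP.W01`, `FGP.W02`; model LHM/ZD.lean, whose lemmas may be
imported). `D = K ^ 20`; the sum of the squares is at most the square of the sum. -/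
def E3 (c₀ : ℝ) : Prop := ∃ C c B : ℝ, 0 < C ∧ 0 < c ∧ 1 ≤ B ∧ ∃ K0 : ℕ, ∀ K ≥ K0, ∀ N : ℕ,
  FGP.Rg K N → (K : ℝ) ^ B ≤ N → ∀ (q₁ : ℕ) (χ : DirichletCharacter ℂ q₁) (β : ℝ),
  Ex (K ^ 20) χ β → 1 - c₀ / Real.log ((K ^ 20 : ℕ) : ℝ) < β →
  ∀ n : ℕ, N ≤ n * K ^ 3 → n + FGP.Mw N K ≤ N →
  LHM.EX c₀ N K n ≤ C * ((1 - β) * Real.log K + (K : ℝ) ^ (-c))

/-- E4 : the total energy (uses `FGP.W01`, `LHM.WZB c₀`, `E3 c₀`; model LHM/ZE.lean) -/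
def E4 (c₀ : ℝ) : Prop := ∃ C c B : ℝ, 0 < C ∧ 0 < c ∧ 1 ≤ B ∧ ∃ K0 : ℕ, ∀ K ≥ K0, ∀ N : ℕ,
  FGP.Rg K N → (K : ℝ) ^ B ≤ N → ∀ (q₁ : ℕ) (χ : DirichletCharacter ℂ q₁) (β : ℝ),
  Ex (K ^ 20) χ β → 1 - c₀ / Real.log ((K ^ 20 : ℕ) : ℝ) < β →
  LHM.EEX c₀ N K ≤ C * N * ((1 - β) * Real.log K + (K : ℝ) ^ (-c))

/-- EEB : the energy `EEW` (uses `SZ.Z1`, `hE4 : ∀ c₀, UZ c₀ → E4 c₀`; model `SZ.Z2_pr`) -/
def EEB : Prop := ∃ C c B ε₀ : ℝ, 0 < C ∧ 0 < c ∧ 1 ≤ B ∧ 0 < ε₀ ∧ ∃ K0 : ℕ, ∀ K ≥ K0, ∀ N : ℕ,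
  FGP.Rg K N → (K : ℝ) ^ B ≤ N → ∀ (q₁ : ℕ) (χ : DirichletCharacter ℂ q₁) (β : ℝ), SZ.Qd χ →
  q₁ ≤ K → LF χ (β : ℂ) = 0 → (1 - β) * Real.log K ≤ ε₀ →
  SZ.EEW χ ((N : ℝ) ^ (β - 1)) N K ≤ C * N * ((1 - β) * Real.log K + (K : ℝ) ^ (-c))

/-! ## Part F: the variance -/

/-- F1 : the exceptional case of the main theorem with `o(1)` (uses `SZ.S18`, `EEB`; model `SZ.S18g_pr`). `√(EEW/N) ≤
C (√((1-β) log K) + K^(-c/2))`, `K^(-c/2) ≤ η` for `K ≥ K0`. -/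
def F1 : Prop := ∃ C B ε₀ : ℝ, 0 < C ∧ 1 ≤ B ∧ 0 < ε₀ ∧ ∀ η : ℝ, 0 < η →
  ∃ (C' : ℝ) (q₀ K0 : ℕ), ∀ K ≥ K0, ∀ N : ℕ,
  FGP.Rg K N → (K : ℝ) ^ B ≤ N → ∀ (q₁ : ℕ) (χ : DirichletCharacter ℂ q₁) (β : ℝ), SZ.Qd χ →
  q₀ ≤ q₁ → q₁ ≤ K → LF χ (β : ℂ) = 0 → (1 - β) * Real.log K ≤ ε₀ →
  ∀ Y, FGP.RY K N Y → 4 * Y ≤ N →
  ∑ Q ∈ PV.QQ Y, |PV.SQ N Q - SZ.mW N Q q₁ ((N : ℝ) ^ (β - 1))| ≤
    (C * Real.sqrt ((1 - β) * Real.log K) * Real.log N + η * Real.log N + C') * N *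
      (Y / Real.log N)

/-- AAX : the two-sided formula in the exceptional case with `o(1)` (uses `F1`; model `SD.AA_pr` in Lib_helper26/SD/AA.lean,
second case) -/
def AAX : Prop := ∃ a b c C : ℝ, 0 < a ∧ 0 < b ∧ 0 < c ∧ c < 1 ∧ 0 < C ∧ ∀ d : ℝ, 0 < d → d ≤ c →
  ∀ ε : ℝ, 0 < ε → ∃ X₀ : ℝ, ∀ X : ℝ, X₀ ≤ X → ∀ (q : ℕ) (χ : DirichletCharacter ℂ q) (β : ℝ),
  SZ.IsExc a b d X q χ β → ∀ Y : ℝ, X ^ (1 - d) ≤ Y → Y ≤ X / C →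
  ∑ Q ∈ FGP.QR Y, |SZ.V X Q - (X * Real.log Q -
      X ^ (2 * β - 1) * max 0 (Real.log (X / (q * Q))))| ≤
    (C * Real.sqrt ((1 - β) * Real.log X) + ε) * (X * Real.log X) * (Y / Real.log Y)

/-- F4X : Siegel zeros make the variance asymptotically minimal (uses `AAX`, `SZ.F1`, `FGP.WSC`; model `SZ.F4s_pr` in
Lib_helper99/SZX/F4.lean). Given `d` and `ε`: `A` large (`log q ≤ log X / A`, `1/A ≤ ε'`), then a zero with `(1-β) log q ≤ η'`, `η'` small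
(`(1-β) log X ≤ 40 A η'`). -/
def F4X : Prop := ∃ c C : ℝ, 0 < c ∧ c < 1 ∧ 0 < C ∧ ((¬ ∃ c₀ : ℝ, 0 < c₀ ∧ SZ.NS c₀) →
  ∀ d : ℝ, 0 < d → d ≤ c → ∀ ε : ℝ, 0 < ε → ∀ X₀ : ℝ, ∃ X : ℝ, X₀ ≤ X ∧
  ∀ Y : ℝ, X ^ (1 - d) ≤ Y → Y ≤ X / C →
  ∑ Q ∈ FGP.QR Y, |FGP.GV X Q - X * (2 * Real.log Q - Real.log X)| ≤
    ε * (X * Real.log X) * (FGP.QR Y).card)

end Pool.Agent.DH
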